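import Pool.Agent.H957.HN.Stm

/-! Project HN (helper957), C4: the Abel transform (helper977) -/

set_option autoImplicit false

open Set Filter Topology MeasureTheory Polynomial

namespace Pool.Agent.H957.HN.PAbel

open Pool.Agent.H957.HN

/-- the inner integrand -/
noncomputable def ff (V t : ℝ) (q : ℕ) (c : ℝ) : ℝ := (√(c - V)) ^ (2 * q + 1) / √(t - c)

/-- the constants -/
noncomputable def bb (q : ℕ) : ℝ := ∫ v in (0 : ℝ)..1, ff 0 1 q v

lemma isq_int (t : ℝ) (ht : 0 ≤ t) : IntervalIntegrable (fun c => 1 / √(t - c)) volume 0 t := by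
  have h1 : IntervalIntegrable (fun x : ℝ => x ^ (-(1 / 2) : ℝ)) volume t 0 :=
    intervalIntegral.intervalIntegrable_rpow' (by norm_num)
  have h2 := h1.comp_sub_left t
  rw [sub_self, sub_zero] at h2
  refine h2.congr fun c hc => ?_
  rw [uIoc_of_le ht] at hc
  have h3 : 0 ≤ t - c := by linarith [hc.2]
  show (t - c) ^ (-(1 / 2) : ℝ) = 1 / √(t - c)
  rw [Real.rpow_neg h3, ← Real.sqrt_eq_rpow, one_div]

lemma ff_int (V t : ℝ) (ht : 0 ≤ t) (q : ℕ) : IntervalIntegrable (ff V t q) volume 0 t := by
  have h1 : Continuous fun c : ℝ => (√(c - V)) ^ (2 * q + 1) :=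
    ((Real.continuous_sqrt.comp (continuous_id.sub continuous_const)).pow _)
  have h2 := (isq_int t ht).continuousOn_mul h1.continuousOn
  refine h2.congr fun c _ => ?_
  show (√(c - V)) ^ (2 * q + 1) * (1 / √(t - c)) = ff V t q c
  unfold ff
  ring

lemma bb_pos (q : ℕ) : 0 < bb q := by
  refine intervalIntegral.intervalIntegral_pos_of_pos_on (ff_int 0 1 zero_le_one q) (fun v hv => ?_)
    one_pos
  unfold ff
  have h1 : 0 < √(v - 0) := Real.sqrt_pos.2 (by linarith [hv.1])
  have h2 : 0 < √(1 - v) := Real.sqrt_pos.2 (by linarith [hv.2])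
  positivity

lemma ff_zero {V t c : ℝ} (q : ℕ) (h : c ≤ V) : ff V t q c = 0 := by
  unfold ff
  rw [Real.sqrt_eq_zero_of_nonpos (by linarith), zero_pow (by omega), zero_div]

lemma ff_scale (V L v : ℝ) (hL : 0 < L) (q : ℕ) :
    ff V (V + L) q (L * v + V) = L ^ q * ff 0 1 q v := by
  unfold ff
  have e1 : L * v + V - V = L * v := by ring
  have e2 : V + L - (L * v + V) = L * (1 - v) := by ring
  rw [e1, e2, Real.sqrt_mul hL.le, Real.sqrt_mul hL.le, sub_zero]
  have hs : 0 < √L := Real.sqrt_pos.2 hL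
  have e3 : L ^ q = √L ^ (2 * q) := by rw [pow_mul, Real.sq_sqrt hL.le]
  rw [e3, mul_pow, pow_succ √L (2 * q)]
  rcases eq_or_ne √(1 - v) 0 with h | h
  · rw [h, mul_zero, div_zero, div_zero, mul_zero]
  · field_simp

/-- the inner integral -/
lemma inner (V t : ℝ) (hV : 0 ≤ V) (ht : 0 < t) (q : ℕ) :
    ∫ c in (0 : ℝ)..t, ff V t q c = bb q * (max 0 (t - V)) ^ (q + 1) := by
  rcases le_or_gt t V with h | h
  · rw [max_eq_left (by linarith), zero_pow (by omega), mul_zero]
    rw [intervalIntegral.integral_congr (g := fun _ => (0 : ℝ)) fun c hc => ?_]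
    · simp
    · rw [uIcc_of_le ht.le] at hc
      exact ff_zero q (hc.2.trans h)
  · have hL : 0 < t - V := by linarith
    rw [max_eq_right hL.le]
    have hI := ff_int V t ht.le q
    have hI1 : IntervalIntegrable (ff V t q) volume 0 V := hI.mono_set (by
      rw [uIcc_of_le hV, uIcc_of_le ht.le]
      exact Icc_subset_Icc le_rfl h.le)
    have hI2 : IntervalIntegrable (ff V t q) volume V t := hI.mono_set (by
      rw [uIcc_of_le h.le, uIcc_of_le ht.le]
      exact Icc_subset_Icc hV le_rfl)
    rw [← intervalIntegral.integral_add_adjacent_intervals hI1 hI2]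
    have e0 : ∫ c in (0 : ℝ)..V, ff V t q c = 0 := by
      rw [intervalIntegral.integral_congr (g := fun _ => (0 : ℝ)) fun c hc => ?_]
      · simp
      · rw [uIcc_of_le hV] at hc
        exact ff_zero q hc.2
    rw [e0, zero_add]
    have e1 := intervalIntegral.integral_comp_mul_add (a := 0) (b := 1) (ff V t q) hL.ne' V
    have e2 : (t - V) * 0 + V = V := by ring
    have e3 : (t - V) * 1 + V = t := by ring
    rw [e2, e3] at e1
    have e4 : ∫ v in (0 : ℝ)..1, ff V t q ((t - V) * v + V) = (t - V) ^ q * bb q := by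
      unfold bb
      rw [← intervalIntegral.integral_const_mul]
      refine intervalIntegral.integral_congr fun v _ => ?_
      have h5 := ff_scale V (t - V) v hL q
      have e6 : V + (t - V) = t := by ring
      rw [e6] at h5
      exact h5
    rw [e4, smul_eq_mul] at e1
    have e5 : ∫ c in V..t, ff V t q c = (t - V) * ((t - V) ^ q * bb q) := by
      rw [e1, ← mul_assoc, mul_inv_cancel₀ hL.ne', one_mul]
    rw [e5, pow_succ]
    ring

lemma ee_mem (M : ℕ) (hM : 0 < M) : 0 ≤ ee M ∧ ee M ≤ 2 := by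
  unfold ee
  have hM' : (1 : ℝ) ≤ M := by exact_mod_cast hM
  refine ⟨mul_nonneg (by norm_num) (Real.sin_nonneg_of_nonneg_of_le_pi (by positivity) ?_), ?_⟩
  · rw [div_le_iff₀ (by positivity)]
    nlinarith [Real.pi_pos]
  · linarith [Real.sin_le_one (Real.pi / (2 * M))]

lemma VV_nonneg (hC : S_CHEB) (M : ℕ) {X : ℝ} (h1 : -2 ≤ X) (h2 : X ≤ 2) : 0 ≤ VV M X := by
  have e : 2 * Real.cos (Real.arccos (X / 2)) = X := by
    rw [Real.cos_arccos (by linarith) (by linarith)]
    ring
  have h3 := hC.1 M (Real.arccos (X / 2))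
  rw [e] at h3
  unfold VV
  rw [h3]
  linarith [Real.cos_le_one (M * Real.arccos (X / 2))]

lemma VV_cont (hC : S_CHEB) (M : ℕ) : Continuous (VV M) := by
  unfold VV
  exact continuous_const.sub (hC.2.2.2.2.2.2.2 M).1

theorem main : S_ABEL := by
  intro hC
  refine ⟨bb, bb_pos, fun M p q t hM ht => ?_⟩
  obtain ⟨he0, he2⟩ := ee_mem M hM
  have hV := VV_cont hC M
  have hee : -(ee M) ≤ ee M := by linarith
  set μ : Measure ℝ := volume.restrict (Ioc 0 t) with hμ
  set ν : Measure ℝ := volume.restrict (Ioc (-(ee M)) (ee M)) with hν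
  set G : ℝ → ℝ → ℝ := fun c X => X ^ (2 * p) * ff (VV M X) t q c with hG
  have hmem : ∀ X ∈ Ioc (-(ee M)) (ee M), -2 ≤ X ∧ X ≤ 2 := fun X hX =>
    ⟨by linarith [hX.1], by linarith [hX.2]⟩
  -- integrability on the product
  have hGi : Integrable (Function.uncurry G) (μ.prod ν) := by
    have hg1 : Integrable (fun c => 1 / √(t - c)) μ := by
      have := isq_int t ht.le
      rwa [intervalIntegrable_iff_integrableOn_Ioc_of_le ht.le] at this
    have hg2 : Integrable (fun _ : ℝ => (2 : ℝ) ^ (2 * p) * √t ^ (2 * q + 1)) ν :=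
      integrable_const _
    have hg := hg1.mul_prod hg2
    refine hg.mono' ?_ ?_
    · have hm : Measurable (Function.uncurry G) := by
        have e : Function.uncurry G = fun z : ℝ × ℝ =>
            z.2 ^ (2 * p) * ((√(z.1 - VV M z.2)) ^ (2 * q + 1) / √(t - z.1)) := rfl
        rw [e]
        refine (continuous_snd.pow _).measurable.mul (Measurable.div ?_ ?_)
        · exact ((Real.continuous_sqrt.comp (continuous_fst.sub (hV.comp continuous_snd))).pow
            _).measurable
        · exact (Real.continuous_sqrt.comp (continuous_const.sub continuous_fst)).measurable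
      exact hm.aestronglyMeasurable
    · rw [hμ, hν, Measure.prod_restrict]
      refine ae_restrict_of_forall_mem (measurableSet_Ioc.prod measurableSet_Ioc) fun z hz => ?_
      obtain ⟨h1, h2⟩ := hz
      obtain ⟨h3, h4⟩ := hmem _ h2
      have h5 := VV_nonneg hC M h3 h4
      have e : Function.uncurry G z =
          1 / √(t - z.1) * (z.2 ^ (2 * p) * (√(z.1 - VV M z.2)) ^ (2 * q + 1)) := by
        show z.2 ^ (2 * p) * ((√(z.1 - VV M z.2)) ^ (2 * q + 1) / √(t - z.1)) = _
        ring
      rw [e, Real.norm_eq_abs, abs_mul, abs_mul, abs_of_nonneg (show 0 ≤ 1 / √(t - z.1) by positivity)]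
      refine mul_le_mul_of_nonneg_left ?_ (by positivity)
      refine mul_le_mul ?_ ?_ (abs_nonneg _) (by positivity)
      · rw [abs_pow]
        exact pow_le_pow_left₀ (abs_nonneg _) (abs_le.2 ⟨h3, h4⟩) _
      · rw [abs_of_nonneg (by positivity)]
        refine pow_le_pow_left₀ (Real.sqrt_nonneg _) (Real.sqrt_le_sqrt ?_) _
        linarith [h1.2]
  -- the function of `c`
  have hNN : ∀ c : ℝ, NN M p q c / √(t - c) = ∫ X, G c X ∂ν := by
    intro c
    unfold NN
    rw [intervalIntegral.integral_of_le hee, ← integral_div]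
    refine integral_congr_ae (Eventually.of_forall fun X => ?_)
    show X ^ (2 * p) * (√(c - VV M X)) ^ (2 * q + 1) / √(t - c) =
      X ^ (2 * p) * ((√(c - VV M X)) ^ (2 * q + 1) / √(t - c))
    ring
  have hfun : (fun c => NN M p q c / √(t - c)) = fun c => ∫ X, G c X ∂ν := funext hNN
  refine ⟨?_, ?_⟩
  · rw [hfun, intervalIntegrable_iff_integrableOn_Ioc_of_le ht.le]
    exact hGi.integral_prod_left
  · rw [hfun, intervalIntegral.integral_of_le ht.le, integral_integral_swap hGi]
    unfold BB
    rw [intervalIntegral.integral_of_le hee, ← integral_const_mul]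
    refine setIntegral_congr_fun measurableSet_Ioc fun X hX => ?_
    obtain ⟨h3, h4⟩ := hmem X hX
    have h5 := inner (VV M X) t (VV_nonneg hC M h3 h4) ht q
    rw [intervalIntegral.integral_of_le ht.le] at h5
    show ∫ c, X ^ (2 * p) * ff (VV M X) t q c ∂μ = _
    rw [integral_const_mul, h5]
    ring

end Pool.Agent.H957.HN.PAbel
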