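import Pool.Agent.H957.HN.Stm

/-!
# HN ALG (helper336, for helper957): algebraic independence
-/

set_option autoImplicit false

open Set Filter Topology MeasureTheory Polynomial

namespace Pool.Agent.H957.HN.PAlg

/-- numerators of the derivatives of `x ^ (2 p + 1)` -/
noncomputable def Pn (W : ℝ[X]) (p : ℕ) : ℕ → ℝ[X]
  | 0 => C (2 * (p : ℝ) + 1) * X ^ (2 * p)
  | k + 1 => derivative (Pn W p k) * W - C (2 * (k : ℝ) + 1) * Pn W p k * derivative W

/-- the constant -/
noncomputable def kp (v : ℝ) : ℕ → ℝ
  | 0 => 1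
  | k + 1 => kp v k * (-(2 * (k : ℝ) + 1) * v)

theorem kp_ne {v : ℝ} (hv : v ≠ 0) (k : ℕ) : kp v k ≠ 0 := by
  induction k with
  | zero =>
    unfold kp
    exact one_ne_zero
  | succ k ih =>
    unfold kp
    have h : (2 * (k : ℝ) + 1) ≠ 0 := by positivity
    exact mul_ne_zero ih (mul_ne_zero (neg_ne_zero.2 h) hv)

theorem Pn_eval (W : ℝ[X]) (p : ℕ) (b : ℝ) (hb : W.eval b = 0) (k : ℕ) :
    (Pn W p k).eval b = (2 * (p : ℝ) + 1) * b ^ (2 * p) * kp ((derivative W).eval b) k := by
  induction k with
  | zero =>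
    unfold Pn kp
    simp
  | succ k ih =>
    unfold Pn kp
    rw [eval_sub, eval_mul, hb, mul_zero, eval_mul, eval_mul, eval_C, ih]
    ring

theorem alg_id (a b w v c : ℝ) (k : ℕ) (hw : w ≠ 0) :
    (a * (1 / w) * w ^ (2 * k + 1) - b * (c * w ^ (2 * k) * (v * (1 / w)))) /
      (w ^ (2 * k + 1)) ^ 2 = (a * w - c * b * v) / w ^ (2 * (k + 1) + 1) := by
  have h1 : w ^ (2 * k + 1) = w ^ (2 * k) * w := pow_succ _ _
  have h2 : w ^ (2 * (k + 1) + 1) = w ^ (2 * k) * w ^ 3 := by
    rw [← pow_add]
    congr 1
  rw [h1, h2]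
  have h3 : w ^ (2 * k) ≠ 0 := pow_ne_zero _ hw
  generalize w ^ (2 * k) = u at h3 ⊢
  field_simp

theorem iter (W : ℝ[X]) (x : ℝ → ℝ) (t₀ t₁ : ℝ)
    (hx : ∀ t ∈ Ioo t₀ t₁, W.eval (x t) ≠ 0 ∧ HasDerivAt x (1 / W.eval (x t)) t) (p k : ℕ) :
    ∀ t ∈ Ioo t₀ t₁, iteratedDeriv (k + 1) (fun s => x s ^ (2 * p + 1)) t =
      (Pn W p k).eval (x t) / (W.eval (x t)) ^ (2 * k + 1) := by
  induction k with
  | zero =>
    intro t ht
    rw [zero_add, iteratedDeriv_one]
    have h := ((hx t ht).2.pow (2 * p + 1)).deriv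
    have e : (fun s => x s ^ (2 * p + 1)) = x ^ (2 * p + 1) := rfl
    rw [e, h]
    unfold Pn
    rw [eval_mul, eval_C, eval_pow, eval_X, Nat.add_sub_cancel]
    push_cast
    rw [pow_one]
    ring
  | succ k ih =>
    intro t ht
    rw [iteratedDeriv_succ]
    have hev : iteratedDeriv (k + 1) (fun s => x s ^ (2 * p + 1)) =ᶠ[𝓝 t]
        fun s => (Pn W p k).eval (x s) / (W.eval (x s)) ^ (2 * k + 1) := by
      filter_upwards [Ioo_mem_nhds ht.1 ht.2] with s hs
      exact ih s hs
    rw [hev.deriv_eq]
    obtain ⟨hw, hxt⟩ := hx t ht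
    have h1 : HasDerivAt (fun s => (Pn W p k).eval (x s))
        ((derivative (Pn W p k)).eval (x t) * (1 / W.eval (x t))) t :=
      ((Pn W p k).hasDerivAt (x t)).comp t hxt
    have h2 : HasDerivAt (fun s => W.eval (x s))
        ((derivative W).eval (x t) * (1 / W.eval (x t))) t :=
      (W.hasDerivAt (x t)).comp t hxt
    have h3 : HasDerivAt (fun s => (W.eval (x s)) ^ (2 * k + 1))
        (((2 * k + 1 : ℕ) : ℝ) * (W.eval (x t)) ^ (2 * k) *
          ((derivative W).eval (x t) * (1 / W.eval (x t)))) t := by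
      have h4 := h2.pow (2 * k + 1)
      rw [Nat.add_sub_cancel] at h4
      exact h4
    have h5 := (h1.div h3 (pow_ne_zero _ hw)).deriv
    have e : (fun s => (Pn W p k).eval (x s) / (W.eval (x s)) ^ (2 * k + 1)) =
        (fun s => (Pn W p k).eval (x s)) / (fun s => (W.eval (x s)) ^ (2 * k + 1)) := rfl
    rw [e, h5, alg_id _ _ _ _ _ _ hw]
    have e2 : (Pn W p (k + 1)).eval (x t) = (derivative (Pn W p k)).eval (x t) * W.eval (x t) -
        ((2 * k + 1 : ℕ) : ℝ) * (Pn W p k).eval (x t) * (derivative W).eval (x t) := by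
      have e3 : Pn W p (k + 1) =
        derivative (Pn W p k) * W - C (2 * (k : ℝ) + 1) * Pn W p k * derivative W := rfl
      rw [e3, eval_sub, eval_mul, eval_mul, eval_mul, eval_C]
      push_cast
      rfl
    rw [e2]

theorem coeff_odd (D q : ℕ) (a : ℕ → ℝ) (hq : q < D) (i : ℕ) :
    (∑ p ∈ Finset.range D, C (a p) * X ^ (2 * p + i)).coeff (2 * q + i) = a q := by
  rw [finsetSum_coeff, Finset.sum_eq_single q]
  · rw [coeff_C_mul_X_pow, if_pos rfl]
  · intro p _ hp
    rw [coeff_C_mul_X_pow, if_neg]
    omega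
  · intro h
    exact absurd (Finset.mem_range.2 hq) h

/-- **S_ALG** -/
theorem main : S_ALG := by
  intro V D Q S x t₀ t₁ μ hS hD ht hx
  have hcont : ContinuousOn x (Ioo t₀ t₁) := fun t h => (hx t h).2.continuousAt.continuousWithinAt
  have hinf : (x '' Ioo t₀ t₁).Infinite := by
    refine (isPreconnected_Ioo.image x hcont).infinite_of_nontrivial ?_
    by_contra hnt
    rw [Set.not_nontrivial_iff] at hnt
    have hm : (t₀ + t₁) / 2 ∈ Ioo t₀ t₁ := ⟨by linarith, by linarith⟩
    have hc : x =ᶠ[𝓝 ((t₀ + t₁) / 2)] fun _ => x ((t₀ + t₁) / 2) := by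
      filter_upwards [Ioo_mem_nhds hm.1 hm.2] with s hs
      exact hnt (mem_image_of_mem x hs) (mem_image_of_mem x hm)
    have h1 := (hasDerivAt_const ((t₀ + t₁) / 2) (x ((t₀ + t₁) / 2))).congr_of_eventuallyEq hc
    have h2 := (hx _ hm).2.unique h1
    exact one_div_ne_zero (hx _ hm).1 h2
  have key : ∀ R : ℝ[X], (∀ t ∈ Ioo t₀ t₁, R.eval (x t) = 0) → R = 0 := by
    intro R hR
    refine Polynomial.eq_zero_of_infinite_isRoot R (hinf.mono ?_)
    rintro _ ⟨t, ht', rfl⟩
    exact hR t ht'
  have hit := fun p k => iter (derivative V) x t₀ t₁ hx p k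
  induction Q with
  | zero =>
    intro h p hp n hn
    have hn0 : n = 0 := by omega
    subst hn0
    have hR := key (∑ p ∈ Finset.range D, C (μ p 0) * X ^ (2 * p + 1)) (by
      intro t ht'
      have h1 := h t ht'
      simp only [zero_add, Finset.range_one, Finset.sum_singleton, iteratedDeriv_zero] at h1
      rw [eval_finsetSum, ← h1]
      refine Finset.sum_congr rfl fun p _ => ?_
      rw [eval_mul, eval_C, eval_pow, eval_X])
    have h2 := coeff_odd D p (fun p => μ p 0) hp 1
    rw [hR, coeff_zero] at h2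
    exact h2.symm
  | succ k ih =>
    intro h
    have hk : ∀ p < D, μ p (k + 1) = 0 := by
      have hR := key (∑ p ∈ Finset.range D, (∑ j ∈ Finset.range (k + 1),
        C (μ p (j + 1)) * Pn (derivative V) p j * (derivative V) ^ (2 * (k - j)) +
          C (μ p 0) * X ^ (2 * p + 1) * (derivative V) ^ (2 * k + 1))) (by
        intro t ht'
        have hw := (hx t ht').1
        have h1 := h t ht'
        have h2 : (∑ p ∈ Finset.range D, ∑ n ∈ Finset.range (k + 1 + 1),
          μ p n * iteratedDeriv n (fun s => x s ^ (2 * p + 1)) t) *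
            ((derivative V).eval (x t)) ^ (2 * k + 1) = 0 := by
          rw [h1, zero_mul]
        rw [eval_finsetSum, ← h2, Finset.sum_mul]
        refine Finset.sum_congr rfl fun p _ => ?_
        rw [Finset.sum_range_succ' (fun n => μ p n * iteratedDeriv n
          (fun s => x s ^ (2 * p + 1)) t) (k + 1), eval_add, eval_finsetSum, add_mul,
          Finset.sum_mul, iteratedDeriv_zero]
        congr 1
        · refine Finset.sum_congr rfl fun j hj => ?_
          have hj' : j ≤ k := by
            have := Finset.mem_range.1 hj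
            omega
          rw [hit p j t ht', eval_mul, eval_mul, eval_C, eval_pow]
          have e : ((derivative V).eval (x t)) ^ (2 * k + 1) =
              ((derivative V).eval (x t)) ^ (2 * (k - j)) *
                ((derivative V).eval (x t)) ^ (2 * j + 1) := by
            rw [← pow_add]
            congr 1
            omega
          rw [e]
          have hp0 : ((derivative V).eval (x t)) ^ (2 * j + 1) ≠ 0 := pow_ne_zero _ hw
          field_simp
        · rw [eval_mul, eval_mul, eval_C, eval_pow, eval_pow, eval_X])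
      have hT : (∑ p ∈ Finset.range D, C (μ p (k + 1) * (2 * (p : ℝ) + 1)) * X ^ (2 * p + 0) :
          ℝ[X]) = 0 := by
        rcases Nat.eq_zero_or_pos D with hD0 | hD0
        · rw [hD0, Finset.range_zero, Finset.sum_empty]
        refine Polynomial.eq_zero_of_natDegree_lt_card_of_eval_eq_zero' _ S ?_ ?_
        · intro b hb
          obtain ⟨hb0, hb1⟩ := hS b hb
          have h1 := congrArg (Polynomial.eval b) hR
          rw [eval_zero, eval_finsetSum] at h1
          have h2 : ∀ p ∈ Finset.range D, (∑ j ∈ Finset.range (k + 1),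
              C (μ p (j + 1)) * Pn (derivative V) p j * (derivative V) ^ (2 * (k - j)) +
              C (μ p 0) * X ^ (2 * p + 1) * (derivative V) ^ (2 * k + 1)).eval b =
              (μ p (k + 1) * (2 * (p : ℝ) + 1) * b ^ (2 * p)) *
                kp ((derivative (derivative V)).eval b) k := by
            intro p _
            rw [eval_add, eval_finsetSum, Finset.sum_eq_single k]
            · rw [eval_mul, eval_mul, eval_mul, eval_mul, eval_pow, eval_pow, eval_pow, hb0, eval_C,
                Nat.sub_self, mul_zero, pow_zero, Pn_eval _ _ _ hb0, zero_pow (by omega)]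
              ring
            · intro j hj hjk
              have hj' := Finset.mem_range.1 hj
              rw [eval_mul, eval_pow, hb0, zero_pow (by omega), mul_zero]
            · intro hk'
              exact absurd (Finset.mem_range.2 (Nat.lt_succ_self k)) hk'
          rw [Finset.sum_congr rfl h2, ← Finset.sum_mul] at h1
          have h3 := (mul_eq_zero.1 h1).resolve_right (kp_ne hb1 k)
          rw [eval_finsetSum, ← h3]
          refine Finset.sum_congr rfl fun p _ => ?_
          rw [eval_mul, eval_C, eval_pow, eval_X, add_zero]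
        · have h4 : (∑ p ∈ Finset.range D, C (μ p (k + 1) * (2 * (p : ℝ) + 1)) *
              X ^ (2 * p + 0) : ℝ[X]).natDegree ≤ 2 * (D - 1) := by
            refine Polynomial.natDegree_sum_le_of_forall_le _ _ ?_
            intro p hp
            have hp' := Finset.mem_range.1 hp
            refine (natDegree_C_mul_X_pow_le _ _).trans ?_
            omega
          omega
      intro p hp
      have h2 := coeff_odd D p (fun p => μ p (k + 1) * (2 * (p : ℝ) + 1)) hp 0
      rw [hT, coeff_zero] at h2
      have h3 : (2 * (p : ℝ) + 1) ≠ 0 := by positivity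
      exact (mul_eq_zero.1 h2.symm).resolve_right h3
    have h' : ∀ t ∈ Ioo t₀ t₁, ∑ p ∈ Finset.range D, ∑ n ∈ Finset.range (k + 1),
        μ p n * iteratedDeriv n (fun s => x s ^ (2 * p + 1)) t = 0 := by
      intro t ht'
      rw [← h t ht']
      refine Finset.sum_congr rfl fun p hp => ?_
      rw [Finset.sum_range_succ _ (k + 1), hk p (Finset.mem_range.1 hp), zero_mul, add_zero]
    intro p hp n hn
    rcases Nat.lt_or_ge n (k + 1) with hn' | hn'
    · exact ih h' p hp n (by omega)
    · have : n = k + 1 := by omega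
      rw [this]
      exact hk p hp

end Pool.Agent.H957.HN.PAlg
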