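import Pool.Agent.H957.HN.Stm2

/-! Project HN (helper957), part ALL (helper225): all critical points together. -/

set_option autoImplicit false

open Set Filter Topology MeasureTheory

namespace Pool.Agent.H957.HN.PAll

open Pool.Agent.Y300

/-- the index set: levels and numbers of the critical points -/
def idx (J : ℕ) : Finset (Σ _ : ℕ × ℕ, ℕ × ℕ) :=
  (Finset.range (J - 1) ×ˢ Finset.range (J - 1)).sigma
    fun x => Finset.range (2 ^ x.1) ×ˢ Finset.range (2 ^ x.2)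

theorem mem_idx {J : ℕ} {i : Σ _ : ℕ × ℕ, ℕ × ℕ} (h : i ∈ idx J) :
    i.1.1 < J - 1 ∧ i.2.1 < 2 ^ i.1.1 ∧ i.1.2 < J - 1 ∧ i.2.2 < 2 ^ i.1.2 := by
  unfold idx at h
  rw [Finset.mem_sigma, Finset.mem_product, Finset.mem_product] at h
  simp only [Finset.mem_range] at h
  exact ⟨h.1.1, h.2.1, h.1.2, h.2.2⟩

/-- the critical point -/
noncomputable def pt (i : Σ _ : ℕ × ℕ, ℕ × ℕ) : ℝ × ℝ := (zr i.1.1 i.2.1, zr i.1.2 i.2.2)

theorem sum_idx (m J : ℕ) :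
    ∑ i ∈ idx J, ((TT m i.1.1 i.1.2).card - 2) = cnt m J := by
  unfold idx cnt
  rw [Finset.sum_sigma, Finset.sum_product]
  apply Finset.sum_congr rfl
  intro t _
  apply Finset.sum_congr rfl
  intro t' _
  simp only [Finset.sum_const, Finset.card_product, Finset.card_range, smul_eq_mul]

theorem disj {m J : ℕ} {r : ℝ} (hG : Geo m J r) (ρ : (Σ _ : ℕ × ℕ, ℕ × ℕ) → ℝ) :
    ∀ i ∈ idx J, ∀ j ∈ idx J, i ≠ j → Disjoint (ann (pt i) (ρ i) r) (ann (pt j) (ρ j) r) := by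
  intro i hi j hj hij
  rw [Set.disjoint_left]
  intro z h1 h2
  have n1 := norm_le_of_mem_ann hG.1.le h1
  have n2 := norm_le_of_mem_ann hG.1.le h2
  obtain ⟨i1, i2, i3, i4⟩ := mem_idx hi
  obtain ⟨j1, j2, j3, j4⟩ := mem_idx hj
  have a1 : |z.1 - zr i.1.1 i.2.1| ≤ r := (norm_fst_le (z - pt i)).trans n1
  have a2 : |z.2 - zr i.1.2 i.2.2| ≤ r := (norm_snd_le (z - pt i)).trans n1
  have b1 : |z.1 - zr j.1.1 j.2.1| ≤ r := (norm_fst_le (z - pt j)).trans n2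
  have b2 : |z.2 - zr j.1.2 j.2.2| ≤ r := (norm_snd_le (z - pt j)).trans n2
  have c1 : |zr i.1.1 i.2.1 - zr j.1.1 j.2.1| ≤ 2 * r := by
    rw [abs_le] at a1 b1 ⊢
    constructor <;> linarith [a1.1, a1.2, b1.1, b1.2]
  have c2 : |zr i.1.2 i.2.2 - zr j.1.2 j.2.2| ≤ 2 * r := by
    rw [abs_le] at a2 b2 ⊢
    constructor <;> linarith [a2.1, a2.2, b2.1, b2.2]
  by_cases h3 : (i.1.1, i.2.1) = (j.1.1, j.2.1)
  · by_cases h4 : (i.1.2, i.2.2) = (j.1.2, j.2.2)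
    · apply hij
      obtain ⟨⟨it, it'⟩, ⟨ia, ia'⟩⟩ := i
      obtain ⟨⟨jt, jt'⟩, ⟨ja, ja'⟩⟩ := j
      simp only [Prod.mk.injEq] at h3 h4
      obtain ⟨rfl, rfl⟩ := h3
      obtain ⟨rfl, rfl⟩ := h4
      rfl
    · exact absurd (hG.2.2 _ _ _ _ i3 i4 j3 j4 h4) (not_lt.2 c2)
  · exact absurd (hG.2.2 _ _ _ _ i1 i2 j1 j2 h3) (not_lt.2 c1)

theorem main : S_ALL := by
  intro hONE hH s J r θ h c hs hJ hG hθ hh hF
  obtain ⟨h1, h2, h3, h4, h5, h6, h7, h8, h9, h10⟩ := hH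
  have key : ∀ i ∈ idx J, ∀ᶠ τ : ℝ in 𝓝[>] 0, ∃ r₁ : ℝ,
      Many (HH (s * 2 ^ J) θ) (YY (s * 2 ^ J) J c τ) (ann (pt i) r₁ r)
        ((TT (s * 2 ^ J) i.1.1 i.1.2).card - 2) := by
    intro i hi
    obtain ⟨i1, i2, i3, i4⟩ := mem_idx hi
    obtain ⟨lo, hi', Φ, ψ, hfam⟩ := hF i.1.1 i.1.2 i1 i3
    exact hONE h1 h2 h3 h4 h5 ⟨h6, h7, h8, h9, h10⟩ s J r θ h i.1.1 i.2.1 i.1.2 i.2.2 c lo hi' Φ ψ
      hs hG hθ i1 i2 i3 i4 hh hfam
  obtain ⟨τ, hτ⟩ := ((Filter.eventually_all_finset (idx J)).2 key).exists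
  choose! ρ hρ using hτ
  refine ⟨τ, ⋃ i ∈ idx J, ann (pt i) (ρ i) r, ?_, ?_⟩
  · exact (idx J).isCompact_biUnion fun i _ => isCompact_ann hG.1.le
  · rw [← sum_idx]
    exact Many.biUnion (idx J) (K := fun i => ann (pt i) (ρ i) r)
      (N := fun i => (TT (s * 2 ^ J) i.1.1 i.1.2).card - 2) hρ (disj hG ρ)

end Pool.Agent.H957.HN.PAll
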