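import Pool.Agent.H957.HN.Stm

/-! Project HN, E3: asymptotics. -/

set_option autoImplicit false

open Set Filter Topology MeasureTheory Polynomial

namespace Pool.Agent.H957.HN.PAsym

open Pool.Agent.H957.HN

theorem arith {a B δ c x N S J : ℝ} (hc : 0 ≤ c) (hδ : 0 ≤ δ) (hN : 0 ≤ N)
    (hS : N * δ ≤ S) (hJ : a * x - B ≤ J - 1) (hax : B + 2 ≤ a * x)
    (hx : c * x ^ 2 ≤ δ ^ 2 * (((a * x - B) ^ 2 - 4) / 8)) :
    c * N ^ 2 * x ^ 2 ≤ S ^ 2 * ((J - 1) ^ 2 - 4) / 8 := by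
  have h1 : (a * x - B) ^ 2 ≤ (J - 1) ^ 2 := pow_le_pow_left₀ (by linarith) hJ 2
  have h2 : (2 : ℝ) ^ 2 ≤ (a * x - B) ^ 2 := pow_le_pow_left₀ (by norm_num) (by linarith) 2
  have h3 : (N * δ) ^ 2 ≤ S ^ 2 := pow_le_pow_left₀ (by positivity) hS 2
  have h4 : (N * δ) ^ 2 * (((a * x - B) ^ 2 - 4) / 8) ≤ S ^ 2 * (((J - 1) ^ 2 - 4) / 8) :=
    mul_le_mul h3 (by linarith) (by linarith) (by positivity)
  have h5 : N ^ 2 * (c * x ^ 2) ≤ N ^ 2 * (δ ^ 2 * (((a * x - B) ^ 2 - 4) / 8)) :=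
    mul_le_mul_of_nonneg_left hx (by positivity)
  calc c * N ^ 2 * x ^ 2 = N ^ 2 * (c * x ^ 2) := by ring
    _ ≤ N ^ 2 * (δ ^ 2 * (((a * x - B) ^ 2 - 4) / 8)) := h5
    _ = (N * δ) ^ 2 * (((a * x - B) ^ 2 - 4) / 8) := by ring
    _ ≤ S ^ 2 * (((J - 1) ^ 2 - 4) / 8) := h4
    _ = S ^ 2 * ((J - 1) ^ 2 - 4) / 8 := by ring

/-- E3. -/
theorem main : S_ASYM := by
  intro c hc
  have hl2 : 0 < Real.log 2 := Real.log_pos (by norm_num)
  obtain ⟨a, ha⟩ : ∃ a : ℝ, a = 1 / Real.log 2 := ⟨_, rfl⟩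
  have ha0 : 0 < a := by
    rw [ha]
    positivity
  have hal : a * Real.log 2 = 1 := by
    rw [ha]
    field_simp
  obtain ⟨c', hcd⟩ : ∃ c' : ℝ, c' = max c 0 := ⟨_, rfl⟩
  have hcc' : c ≤ c' := by
    rw [hcd]
    exact le_max_left _ _
  have hc0 : 0 ≤ c' := by
    rw [hcd]
    exact le_max_right _ _
  have hc' : c' < a ^ 2 / 8 := by
    rw [hcd]
    refine max_lt ?_ (by positivity)
    have h1 : 1 / (8 * Real.log 2 ^ 2) = a ^ 2 / 8 := by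
      rw [ha]
      field_simp
    rwa [← h1]
  obtain ⟨A, hA⟩ : ∃ A : ℕ, c' < (1 - (1 / 2 : ℝ) ^ A) ^ 2 * (a ^ 2 / 8) := by
    have h0 : Tendsto (fun A : ℕ => (1 / 2 : ℝ) ^ A) atTop (𝓝 0) :=
      tendsto_pow_atTop_nhds_zero_of_lt_one (by norm_num) (by norm_num)
    have h1 : Tendsto (fun A : ℕ => (1 - (1 / 2 : ℝ) ^ A) ^ 2 * (a ^ 2 / 8)) atTop
        (𝓝 ((1 - 0) ^ 2 * (a ^ 2 / 8))) := ((h0.const_sub 1).pow 2).mul_const _
    have h2 : c' < (1 - 0) ^ 2 * (a ^ 2 / 8) := by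
      rw [sub_zero, one_pow, one_mul]
      exact hc'
    exact (h1.eventually_const_lt h2).exists
  obtain ⟨δ, hδ⟩ : ∃ δ : ℝ, δ = 1 - (1 / 2 : ℝ) ^ A := ⟨_, rfl⟩
  have hδ0 : 0 ≤ δ := by
    rw [hδ]
    have h1 : (1 / 2 : ℝ) ^ A ≤ 1 := pow_le_one₀ (by norm_num) (by norm_num)
    linarith
  rw [← hδ] at hA
  obtain ⟨B, hB⟩ : ∃ B : ℝ, B = 2 + (A : ℝ) := ⟨_, rfl⟩
  have hev : ∀ᶠ x : ℝ in atTop, c' * x ^ 2 ≤ δ ^ 2 * (((a * x - B) ^ 2 - 4) / 8) := by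
    have h1 : Tendsto (fun x : ℝ => B / x) atTop (𝓝 0) := tendsto_const_nhds.div_atTop tendsto_id
    have h2 : Tendsto (fun x : ℝ => 4 / x ^ 2) atTop (𝓝 0) :=
      tendsto_const_nhds.div_atTop (tendsto_pow_atTop two_ne_zero)
    have h3 : Tendsto (fun x : ℝ => δ ^ 2 * (((a - B / x) ^ 2 - 4 / x ^ 2) / 8)) atTop
        (𝓝 (δ ^ 2 * (((a - 0) ^ 2 - 0) / 8))) :=
      ((((h1.const_sub a).pow 2).sub h2).div_const 8).const_mul _
    have h4 : c' < δ ^ 2 * (((a - 0) ^ 2 - 0) / 8) := by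
      rw [sub_zero, sub_zero]
      exact hA
    filter_upwards [h3.eventually_const_lt h4, eventually_gt_atTop (0 : ℝ)] with x hx hx0
    have h5 : δ ^ 2 * (((a * x - B) ^ 2 - 4) / 8) =
        (δ ^ 2 * (((a - B / x) ^ 2 - 4 / x ^ 2) / 8)) * x ^ 2 := by
      have h6 : a * x - B = (a - B / x) * x := by
        field_simp
      rw [h6]
      field_simp
    rw [h5]
    exact mul_le_mul_of_nonneg_right hx.le (by positivity)
  have hev2 : ∀ᶠ x : ℝ in atTop, B + 2 ≤ a * x := by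
    filter_upwards [eventually_ge_atTop ((B + 2) / a)] with x hx
    rw [div_le_iff₀ ha0] at hx
    linarith
  have hlog : Tendsto (fun n : ℕ => Real.log ((n : ℝ) + 1)) atTop atTop :=
    Real.tendsto_log_atTop.comp (tendsto_atTop_add_const_right _ 1 tendsto_natCast_atTop_atTop)
  obtain ⟨n₀, hn₀⟩ := eventually_atTop.1
    ((hlog.eventually hev).and ((hlog.eventually hev2).and (eventually_ge_atTop 1)))
  refine ⟨n₀, fun n hn => ?_⟩
  obtain ⟨h1, h2, h3⟩ := hn₀ n hn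
  obtain ⟨x, hx⟩ : ∃ x : ℝ, x = Real.log ((n : ℝ) + 1) := ⟨_, rfl⟩
  rw [← hx] at h1 h2
  obtain ⟨l, hl⟩ : ∃ l : ℕ, l = Nat.log 2 (n + 1) := ⟨_, rfl⟩
  have hl1 : 2 ^ l ≤ n + 1 := by
    rw [hl]
    exact Nat.pow_log_le_self 2 (by omega)
  have hl3 : n + 1 < 2 ^ (l + 1) := by
    rw [hl]
    exact Nat.lt_pow_succ_log_self (by norm_num) (n + 1)
  have hl4 : a * x < (l : ℝ) + 1 := by
    have h4 : ((n : ℝ) + 1) < 2 ^ (l + 1) := by exact_mod_cast hl3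
    have h5 := Real.log_lt_log (by positivity) h4
    rw [← hx, Real.log_pow] at h5
    calc a * x < a * (((l + 1 : ℕ) : ℝ) * Real.log 2) := mul_lt_mul_of_pos_left h5 ha0
      _ = ((l + 1 : ℕ) : ℝ) * (a * Real.log 2) := by ring
      _ = (l : ℝ) + 1 := by
        rw [hal, mul_one]
        push_cast
        ring
  have hlA : A + 3 ≤ l := by
    have h4 : (A : ℝ) + 3 < (l : ℝ) + 1 + 0 := by
      rw [hB] at h2
      linarith
    have h5 : A + 3 < l + 1 := by exact_mod_cast (by linarith : (A : ℝ) + 3 < (l : ℝ) + 1)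
    omega
  obtain ⟨J, hJ⟩ : ∃ J : ℕ, J + A = l := ⟨l - A, by omega⟩
  have hJl : (J : ℝ) + A = l := by exact_mod_cast hJ
  have hJ2 : 2 ≤ J := by omega
  have hpJ : 2 ^ J * 2 ^ A ≤ n + 1 := by
    rw [← pow_add, hJ]
    exact hl1
  have hpos : 0 < 2 ^ J := by positivity
  have hpA : 1 ≤ 2 ^ A := Nat.one_le_two_pow
  have hJn : 2 ^ J ≤ n + 1 := le_trans (Nat.le_mul_of_pos_right _ hpA) hpJ
  refine ⟨(n + 1) / 2 ^ J, J, Nat.div_pos hJn hpos, hJ2, Nat.div_mul_le_self _ _, ?_⟩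
  obtain ⟨S, hS⟩ : ∃ S : ℕ, S = (n + 1) / 2 ^ J * 2 ^ J := ⟨_, rfl⟩
  rw [← hS]
  have hS1 : n + 1 ≤ S + 2 ^ J := by
    have h4 := Nat.div_add_mod (n + 1) (2 ^ J)
    have h5 := Nat.mod_lt (n + 1) hpos
    rw [mul_comm] at h4
    rw [hS]
    omega
  have hS2 : ((n : ℝ) + 1) * δ ≤ (S : ℝ) := by
    have h4 : ((n : ℝ) + 1) ≤ (S : ℝ) + 2 ^ J := by exact_mod_cast hS1
    have h5 : (2 : ℝ) ^ J * 2 ^ A ≤ (n : ℝ) + 1 := by exact_mod_cast hpJ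
    have h6 : (2 : ℝ) ^ J ≤ ((n : ℝ) + 1) * (1 / 2) ^ A := by
      rw [one_div, inv_pow, ← div_eq_mul_inv, le_div_iff₀ (by positivity)]
      exact h5
    rw [hδ]
    linarith
  have hfin := arith (a := a) (B := B) (δ := δ) (c := c') (x := x) (N := (n : ℝ) + 1)
    (S := (S : ℝ)) (J := (J : ℝ)) hc0 hδ0 (by positivity) hS2 (by
      rw [hB]
      linarith) h2 h1
  refine le_trans ?_ hfin
  have hn1 : (1 : ℝ) ≤ n := by exact_mod_cast h3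
  have h7 : 0 ≤ Real.log n := Real.log_nonneg hn1
  have h8 : Real.log n ≤ x := by
    rw [hx]
    exact Real.log_le_log (by linarith) (by linarith)
  have h9 : (n : ℝ) ^ 2 ≤ ((n : ℝ) + 1) ^ 2 := pow_le_pow_left₀ (by positivity) (by linarith) 2
  have h10 : Real.log n ^ 2 ≤ x ^ 2 := pow_le_pow_left₀ h7 h8 2
  calc c * (n : ℝ) ^ 2 * Real.log n ^ 2 ≤ c' * (n : ℝ) ^ 2 * Real.log n ^ 2 := by
        have h11 : 0 ≤ (n : ℝ) ^ 2 * Real.log n ^ 2 := by positivity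
        have h12 := mul_le_mul_of_nonneg_right hcc' h11
        linarith
    _ ≤ c' * ((n : ℝ) + 1) ^ 2 * x ^ 2 :=
        mul_le_mul (mul_le_mul_of_nonneg_left h9 hc0) h10 (by positivity) (by positivity)

end Pool.Agent.H957.HN.PAsym
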