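import Pool.Agent.H957.HN.Stm

/-! B1 (S_BOX): from the disc to the rectangle. -/

set_option autoImplicit false

open Set Filter Topology MeasureTheory Polynomial

namespace Pool.Agent.H957.HN.PBox

open Pool.Agent.H957.HN

theorem main : S_BOX := by
  intro p r α β α' β' lam h θ g a b Φ hg ha hb hΦ hr hα hβ hα' hβ' hlam hθ hgx hgy hh hΦ0
  have hab : α ≤ β := by linarith
  have hab' : α' ≤ β' := by linarith
  have hgy0 : ∀ y ∈ Icc α' β', 0 ≤ g y := fun y hy =>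
    (mul_nonneg hlam.le (sq_nonneg _)).trans (hgy y hy)
  have hFc : Continuous (fun z : ℝ × ℝ => Φ (g z.1 + θ * g z.2) * (a z.1 * b z.2)) := by
    fun_prop
  have hsub : {z : ℝ × ℝ | (z.1 - p.1) ^ 2 + (z.2 - p.2) ^ 2 < r ^ 2} ⊆
      Icc α β ×ˢ Icc α' β' := by
    intro z hz
    have h1 : (z.1 - p.1) ^ 2 < r ^ 2 := by
      have h2 : (z.1 - p.1) ^ 2 + (z.2 - p.2) ^ 2 < r ^ 2 := hz
      nlinarith [sq_nonneg (z.2 - p.2)]
    have h1' : (z.2 - p.2) ^ 2 < r ^ 2 := by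
      have h2 : (z.1 - p.1) ^ 2 + (z.2 - p.2) ^ 2 < r ^ 2 := hz
      nlinarith [sq_nonneg (z.1 - p.1)]
    have h3 := abs_lt_of_sq_lt_sq h1 hr.le
    have h3' := abs_lt_of_sq_lt_sq h1' hr.le
    rw [abs_lt] at h3 h3'
    exact ⟨⟨by linarith [h3.1], by linarith [h3.2]⟩, ⟨by linarith [h3'.1], by linarith [h3'.2]⟩⟩
  have hzero : ∀ z ∈ (Icc α β ×ˢ Icc α' β') \
      {z : ℝ × ℝ | (z.1 - p.1) ^ 2 + (z.2 - p.2) ^ 2 < r ^ 2},
      Φ (g z.1 + θ * g z.2) * (a z.1 * b z.2) = 0 := by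
    intro z hz
    have h1 : r ^ 2 ≤ (z.1 - p.1) ^ 2 + (z.2 - p.2) ^ 2 := not_lt.mp hz.2
    have h2 := hgx z.1 hz.1.1
    have h3 := hgy z.2 hz.1.2
    have h4 := hgy0 z.2 hz.1.2
    have h5 : g z.2 ≤ θ * g z.2 := le_mul_of_one_le_left h4 hθ
    have h6 : lam * r ^ 2 ≤ lam * ((z.1 - p.1) ^ 2 + (z.2 - p.2) ^ 2) :=
      mul_le_mul_of_nonneg_left h1 hlam.le
    rw [hΦ0 (g z.1 + θ * g z.2) (by linarith), zero_mul]
  have hmeas : MeasurableSet (Icc α β ×ˢ Icc α' β' : Set (ℝ × ℝ)) :=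
    measurableSet_Icc.prod measurableSet_Icc
  have hint : IntegrableOn (fun z : ℝ × ℝ => Φ (g z.1 + θ * g z.2) * (a z.1 * b z.2))
      (Icc α β ×ˢ Icc α' β') volume :=
    hFc.continuousOn.integrableOn_compact (isCompact_Icc.prod isCompact_Icc)
  rw [← setIntegral_eq_of_subset_of_forall_diff_eq_zero hmeas hsub hzero]
  rw [Measure.volume_eq_prod] at hint ⊢
  rw [setIntegral_prod _ hint, intervalIntegral.integral_of_le hab,
    ← integral_Icc_eq_integral_Ioc]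
  apply setIntegral_congr_fun measurableSet_Icc
  intro x _
  change (∫ y in Icc α' β', Φ (g x + θ * g y) * (a x * b y)) =
    ∫ y in α'..β', Φ (g x + θ * g y) * (a x * b y)
  rw [intervalIntegral.integral_of_le hab', ← integral_Icc_eq_integral_Ioc]

end Pool.Agent.H957.HN.PBox
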