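import Pool.Agent.H957.HN.Stm

/-! Project HN (helper957): statement D6, narrow weights (helper719). -/

set_option autoImplicit false

open Set Filter Topology MeasureTheory

namespace Pool.Agent.H957.HN.PBump

/-- a bump -/
noncomputable def rho (u : ℝ) : ℝ := max 0 (1 - u ^ 2)

theorem rho_cont : Continuous rho := by
  unfold rho
  fun_prop

/-- the bump around `c` -/
noncomputable def psi (c η t : ℝ) : ℝ := rho ((t - c) / η)

theorem psi_cont (c η : ℝ) : Continuous (psi c η) := by
  unfold psi
  exact rho_cont.comp (by fun_prop)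

theorem psi_nonneg (c η t : ℝ) : 0 ≤ psi c η t := le_max_left _ _

theorem psi_supp {c η t : ℝ} (hη : 0 < η) (ht : t ∉ Ioo (c - η) (c + η)) : psi c η t = 0 := by
  have h : 1 ≤ |(t - c) / η| := by
    rw [abs_div, abs_of_pos hη, le_div_iff₀ hη, one_mul]
    rw [mem_Ioo, not_and_or, not_lt, not_lt] at ht
    rcases ht with h | h
    · rw [abs_of_nonpos (by linarith)]
      linarith
    · rw [abs_of_nonneg (by linarith)]
      linarith
  have h2 : 1 ≤ ((t - c) / η) ^ 2 := by
    rw [← sq_abs]
    exact one_le_pow₀ h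
  unfold psi rho
  exact max_eq_left (by linarith)

/-- the primitive -/
noncomputable def Phi (c η t : ℝ) : ℝ := ∫ s in t..(c + η), psi c η s

theorem wt {c η : ℝ} (hη : 0 < η) : Wt (c - η) (c + η) (Phi c η) (psi c η) where
  lt := by linarith
  der t := intervalIntegral.integral_hasDerivAt_left ((psi_cont c η).intervalIntegrable _ _)
    ((psi_cont c η).stronglyMeasurableAtFilter _ _) (psi_cont c η).continuousAt
  cont := psi_cont c η
  nonneg := psi_nonneg c η
  supp _ ht := psi_supp hη ht
  top t ht := by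
    have h : ∀ s ∈ uIcc t (c + η), psi c η s = 0 := by
      intro s hs
      rw [uIcc_of_ge ht] at hs
      exact psi_supp hη fun h => absurd hs.1 (not_le.2 h.2)
    show ∫ s in t..(c + η), psi c η s = 0
    rw [intervalIntegral.integral_congr (g := fun _ => (0 : ℝ)) h]
    simp

theorem kappa : (∫ u in (-1 : ℝ)..1, rho u) ≠ 0 := by
  have h : ∀ s ∈ uIcc (-1 : ℝ) 1, rho s = 1 - s ^ 2 := by
    intro s hs
    rw [uIcc_of_le (by norm_num)] at hs
    unfold rho
    apply max_eq_right
    nlinarith [hs.1, hs.2]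
  rw [intervalIntegral.integral_congr (g := fun s => 1 - s ^ 2) h,
    intervalIntegral.integral_sub (by simp) (by simp)]
  simp [integral_pow]
  norm_num

theorem subst {c η : ℝ} (hη : 0 < η) (f : ℝ → ℝ) :
    ∫ t in (c - η)..(c + η), psi c η t * f t =
      η * ∫ u in (-1 : ℝ)..1, rho u * f (c + η * u) := by
  have h := intervalIntegral.mul_integral_comp_add_mul (a := -1) (b := 1) (c := η)
    (f := fun t => psi c η t * f t) (d := c)
  have e1 : c + η * -1 = c - η := by ring
  have e2 : c + η * 1 = c + η := by ring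
  rw [e1, e2] at h
  rw [← h]
  refine congrArg (fun x => η * x) (intervalIntegral.integral_congr ?_)
  intro u _
  have e : (c + η * u - c) / η = u := by
    field_simp
    ring
  show psi c η (c + η * u) * f (c + η * u) = rho u * f (c + η * u)
  unfold psi
  rw [e]

theorem main : S_BUMP := by
  intro R f h c hf hc hch hdet
  let G : ℝ → Matrix (Fin R) (Fin R) ℝ := fun η =>
    Matrix.of fun l i => ∫ u in (-1 : ℝ)..1, rho u * f i (c l + η * u)
  have hG : Continuous G := by
    refine continuous_matrix fun l i => ?_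
    have hc' : Continuous (Function.uncurry fun (η u : ℝ) => rho u * f i (c l + η * u)) := by
      have h1 := rho_cont
      have h2 := hf i
      show Continuous fun p : ℝ × ℝ => rho p.2 * f i (c l + p.1 * p.2)
      fun_prop
    exact intervalIntegral.continuous_parametric_intervalIntegral_of_continuous' hc' _ _
  have hG0 : (G 0).det ≠ 0 := by
    have e : G 0 = (∫ u in (-1 : ℝ)..1, rho u) • Matrix.of fun l i => f i (c l) := by
      ext l i
      show ∫ u in (-1 : ℝ)..1, rho u * f i (c l + 0 * u) =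
        (∫ u in (-1 : ℝ)..1, rho u) * f i (c l)
      rw [← intervalIntegral.integral_mul_const]
      simp
    rw [e, Matrix.det_smul]
    exact mul_ne_zero (pow_ne_zero _ kappa) hdet
  have h1 : ∀ᶠ η in 𝓝[>] (0 : ℝ), (G η).det ≠ 0 :=
    ((hG.matrix_det.continuousAt (x := 0)).eventually_ne hG0).filter_mono nhdsWithin_le_nhds
  have h2 : ∀ᶠ η in 𝓝[>] (0 : ℝ), ∀ l, η < c l :=
    eventually_all.2 fun l => (Ioo_mem_nhdsGT (hch l).1 : Ioo 0 (c l) ∈ 𝓝[>] (0 : ℝ)) |>
      fun h => Filter.mem_of_superset h fun η hη => hη.2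
  have h3 : ∀ᶠ η in 𝓝[>] (0 : ℝ), ∀ l, η < h - c l :=
    eventually_all.2 fun l => (Ioo_mem_nhdsGT (sub_pos.2 (hch l).2) :
      Ioo 0 (h - c l) ∈ 𝓝[>] (0 : ℝ)) |> fun h => Filter.mem_of_superset h fun η hη => hη.2
  have h4 : ∀ᶠ η in 𝓝[>] (0 : ℝ), ∀ l l', l < l' → 2 * η < c l' - c l := by
    refine eventually_all.2 fun l => eventually_all.2 fun l' => ?_
    by_cases hl : l < l'
    · have hpos : 0 < (c l' - c l) / 2 := by
        have := hc hl
        linarith
      have := (Ioo_mem_nhdsGT hpos : Ioo 0 ((c l' - c l) / 2) ∈ 𝓝[>] (0 : ℝ))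
      filter_upwards [this] with η hη _
      have := hη.2
      linarith
    · exact Eventually.of_forall fun η h => absurd h hl
  have h5 : ∀ᶠ η in 𝓝[>] (0 : ℝ), 0 < η := eventually_mem_nhdsWithin
  obtain ⟨η, hη1, hη2, hη3, hη4, hη5⟩ := (h1.and (h2.and (h3.and (h4.and h5)))).exists
  refine ⟨fun l => c l - η, fun l => c l + η, fun l => Phi (c l) η, fun l => psi (c l) η,
    fun l => ⟨?_, ?_, wt hη5⟩, fun l l' hl => ?_, ?_⟩
  · have := hη2 l
    show 0 < c l - η
    linarith
  · have := hη3 l
    show c l + η < h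
    linarith
  · have := hη4 l l' hl
    show c l + η ≤ c l' - η
    linarith
  · have e : (Matrix.of fun l i => ∫ t in (c l - η)..(c l + η), psi (c l) η t * f i t) =
        η • G η := by
      ext l i
      show ∫ t in (c l - η)..(c l + η), psi (c l) η t * f i t =
        η * ∫ u in (-1 : ℝ)..1, rho u * f i (c l + η * u)
      exact subst hη5 (f i)
    show (Matrix.of fun l i => ∫ t in (c l - η)..(c l + η), psi (c l) η t * f i t).det ≠ 0
    rw [e, Matrix.det_smul]
    exact mul_ne_zero (pow_ne_zero _ hη5.ne') hη1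

end Pool.Agent.H957.HN.PBump
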