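import Pool.Agent.H957.HN.Stm

/-! Project HN (helper957), part E1: counting the index set (helper124). -/

set_option autoImplicit false

open Finset

namespace Pool.Agent.H957.HN.PCard

theorem sum_odd (h : ℕ) : ∑ p ∈ Finset.range h, (2 * h - (2 * p + 1)) = h ^ 2 := by
  have h1 : ∑ p ∈ Finset.range h, (2 * h - (2 * p + 1)) = ∑ p ∈ Finset.range h, (2 * p + 1) := by
    rw [← Finset.sum_range_reflect (fun p => 2 * p + 1) h]
    refine Finset.sum_congr rfl fun p hp => ?_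
    rw [Finset.mem_range] at hp
    omega
  rw [h1]
  induction h with
  | zero => rfl
  | succ n ih =>
    have ih' : ∑ p ∈ Finset.range n, (2 * p + 1) = n ^ 2 := by
      clear h1 ih
      induction n with
      | zero => rfl
      | succ k ihk => rw [Finset.sum_range_succ, ihk]; ring
    rw [Finset.sum_range_succ, ih']
    ring

theorem mem_TT (m t t' : ℕ) (x : ℕ × ℕ) : x ∈ TT m t t' ↔ (x.1 < m ∧ x.2 < m) ∧
    2 ^ t * (2 * x.1 + 1) + 2 ^ t' * (2 * x.2 + 1) ≤ m := by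
  unfold TT
  rw [Finset.mem_filter, Finset.mem_product, Finset.mem_range, Finset.mem_range]

theorem card_swap (m t t' : ℕ) : (TT m t t').card = (TT m t' t).card := by
  refine Finset.card_bij (fun x _ => x.swap) ?_ ?_ ?_
  · intro x hx
    rw [mem_TT] at hx ⊢
    exact ⟨⟨hx.1.2, hx.1.1⟩, by have := hx.2; show 2 ^ t' * (2 * x.2 + 1) + 2 ^ t * (2 * x.1 + 1) ≤ m; omega⟩
  · intro x _ y _ h
    exact Prod.swap_injective h
  · intro x hx
    refine ⟨x.swap, ?_, Prod.swap_swap x⟩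
    rw [mem_TT] at hx ⊢
    exact ⟨⟨hx.1.2, hx.1.1⟩, by have := hx.2; show 2 ^ t * (2 * x.2 + 1) + 2 ^ t' * (2 * x.1 + 1) ≤ m; omega⟩

theorem low (m t' e : ℕ) (hm : 0 < m) (hd : 2 ^ (t' + e + 2) ∣ m) :
    m ^ 2 ≤ 8 * 2 ^ (t' + e + t') * (TT m (t' + e) t').card := by
  obtain ⟨g, hg⟩ := hd
  set h : ℕ := 2 * g with hh
  have hm' : m = 2 ^ t' * (2 ^ e * (2 * h)) := by
    rw [hg, hh, pow_add, pow_add]; ring
  have hp1 : 1 ≤ 2 ^ t' := Nat.one_le_two_pow
  have hp2 : 1 ≤ 2 ^ e := Nat.one_le_two_pow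
  have hN : 2 ^ e * (2 * h) ≤ m := by
    rw [hm']
    exact Nat.le_mul_of_pos_left _ hp1
  have hM : 2 * h ≤ m := (Nat.le_mul_of_pos_left _ hp2).trans hN
  let K : ℕ → ℕ := fun p => 2 ^ e * (2 * h - (2 * p + 1))
  have hcard : ∑ p ∈ Finset.range h, (K p + 1) / 2 ≤ (TT m (t' + e) t').card := by
    have h1 : ((Finset.range h).sigma (fun p => Finset.range ((K p + 1) / 2))).card =
        ∑ p ∈ Finset.range h, (K p + 1) / 2 := by
      rw [Finset.card_sigma]
      exact Finset.sum_congr rfl fun p _ => Finset.card_range _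
    rw [← h1]
    refine Finset.card_le_card_of_injOn (fun x : (_ : ℕ) × ℕ => (x.1, x.2)) ?_ ?_
    · rintro ⟨p, q⟩ hx
      have hx' := Finset.mem_sigma.1 hx
      have hp : p < h := Finset.mem_range.1 hx'.1
      have hq : q < (K p + 1) / 2 := Finset.mem_range.1 hx'.2
      have hq2 : 2 * q + 1 ≤ K p := by omega
      have hle : 2 ^ e * (2 * p + 1) + K p = 2 ^ e * (2 * h) := by
        show 2 ^ e * (2 * p + 1) + 2 ^ e * (2 * h - (2 * p + 1)) = 2 ^ e * (2 * h)
        rw [← mul_add]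
        congr 1
        omega
      show (p, q) ∈ TT m (t' + e) t'
      rw [mem_TT]
      refine ⟨⟨?_, ?_⟩, ?_⟩
      · show p < m
        omega
      · show q < m
        have : K p ≤ m := by omega
        omega
      · show 2 ^ (t' + e) * (2 * p + 1) + 2 ^ t' * (2 * q + 1) ≤ m
        calc 2 ^ (t' + e) * (2 * p + 1) + 2 ^ t' * (2 * q + 1)
            = 2 ^ t' * (2 ^ e * (2 * p + 1) + (2 * q + 1)) := by rw [pow_add]; ring
          _ ≤ 2 ^ t' * (2 ^ e * (2 * p + 1) + K p) :=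
              Nat.mul_le_mul_left _ (Nat.add_le_add_left hq2 _)
          _ = m := by rw [hle, ← hm']
    · rintro ⟨p, q⟩ _ ⟨p', q'⟩ _ hxy
      have h2 : (p, q) = (p', q') := hxy
      rw [Prod.mk.injEq] at h2
      obtain ⟨rfl, rfl⟩ := h2
      rfl
  have hK : 2 ^ e * h ^ 2 ≤ 2 * ∑ p ∈ Finset.range h, (K p + 1) / 2 := by
    rw [← sum_odd h, Finset.mul_sum, Finset.mul_sum]
    refine Finset.sum_le_sum fun p _ => ?_
    show K p ≤ 2 * ((K p + 1) / 2)
    omega
  have h5 : 2 ^ e * h ^ 2 ≤ 2 * (TT m (t' + e) t').card := hK.trans (Nat.mul_le_mul_left 2 hcard)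
  calc m ^ 2 = 4 * 2 ^ (t' + e + t') * (2 ^ e * h ^ 2) := by
        rw [hm', pow_add, pow_add]; ring
    _ ≤ 4 * 2 ^ (t' + e + t') * (2 * (TT m (t' + e) t').card) := Nat.mul_le_mul_left _ h5
    _ = 8 * 2 ^ (t' + e + t') * (TT m (t' + e) t').card := by ring

theorem bd (m t t' : ℕ) (hd : 2 ^ (t + 2) ∣ m) {x : ℕ × ℕ} (hx : x ∈ TT m t t') :
    x.1 < m / 2 ^ t / 2 := by
  rw [mem_TT] at hx
  obtain ⟨g, hg⟩ := hd
  have hm : m = 2 ^ t * (4 * g) := by rw [hg, pow_add]; ring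
  have hpos : 0 < 2 ^ t := Nat.two_pow_pos t
  have h1 : m / 2 ^ t = 4 * g := by rw [hm]; exact Nat.mul_div_cancel_left _ hpos
  have hpos' : 0 < 2 ^ t' * (2 * x.2 + 1) := Nat.mul_pos (Nat.two_pow_pos t') (by omega)
  have h2 : 2 ^ t * (2 * x.1 + 1) < 2 ^ t * (4 * g) := by
    rw [← hm]
    have := hx.2
    omega
  have h3 : 2 * x.1 + 1 < 4 * g := Nat.lt_of_mul_lt_mul_left h2
  rw [h1]
  omega

theorem main : S_CARD := by
  intro m t t' hm hd hd'
  refine ⟨?_, fun x hx => ⟨bd m t t' hd hx, ?_⟩⟩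
  · rcases le_total t' t with h | h
    · obtain ⟨e, rfl⟩ := Nat.exists_eq_add_of_le h
      exact low m t' e hm hd
    · obtain ⟨e, rfl⟩ := Nat.exists_eq_add_of_le h
      have h1 := low m t e hm hd'
      rw [card_swap m t (t + e)]
      have e1 : t + (t + e) = t + e + t := by ring
      rw [e1]
      exact h1
  · have hx' : x.swap ∈ TT m t' t := by
      rw [mem_TT] at hx ⊢
      exact ⟨⟨hx.1.2, hx.1.1⟩, by have := hx.2; show 2 ^ t' * (2 * x.2 + 1) + 2 ^ t * (2 * x.1 + 1) ≤ m; omega⟩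
    exact bd m t' t hd' hx'

end Pool.Agent.H957.HN.PCard
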