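import Pool.Agent.H957.HN.Stm

/-! Project HN (helper957), task CHEB (helper263): basic facts on the Chebyshev polynomials. -/

set_option autoImplicit false

open Set Filter Topology MeasureTheory Polynomial

namespace Pool.Agent.H957.HN.PCheb

theorem cf_cos (n : ℕ) (φ : ℝ) : Cf n (2 * Real.cos φ) = 2 * Real.cos (n * φ) := by
  have h := Polynomial.Chebyshev.C_two_mul_real_cos φ (n : ℤ)
  rw [Int.cast_natCast] at h
  exact h

theorem der (n : ℕ) (x : ℝ) : HasDerivAt (Cf n) (dC n x) x := (Cp n).hasDerivAt x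

theorem cp_mul (k l : ℕ) : Cp (k * l) = (Cp k).comp (Cp l) := by
  unfold Cp
  rw [← Polynomial.Chebyshev.C_mul, Nat.cast_mul]

theorem cf_mul (k l : ℕ) (x : ℝ) : Cf (k * l) x = Cf k (Cf l x) := by
  unfold Cf
  rw [cp_mul, eval_comp]

theorem dc_mul (k l : ℕ) (x : ℝ) : dC (k * l) x = dC k (Cf l x) * dC l x := by
  unfold dC Cf
  rw [cp_mul, derivative_comp, eval_mul, eval_comp, mul_comm]

theorem cp_two : Cp 2 = X ^ 2 - 2 := Polynomial.Chebyshev.C_two ℝ

theorem cf_two (x : ℝ) : Cf 2 x = x ^ 2 - 2 := by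
  unfold Cf
  rw [cp_two]
  simp

theorem dc_two (x : ℝ) : dC 2 x = 2 * x := by
  unfold dC
  rw [cp_two]
  simp
  left
  norm_num

theorem deg (n : ℕ) : (Cp n).natDegree = n ∧ (Cp (n + 1)).natDegree = n + 1 := by
  induction n with
  | zero =>
    constructor
    · change (Polynomial.Chebyshev.C ℝ 0).natDegree = 0
      rw [Polynomial.Chebyshev.C_zero]
      exact natDegree_ofNat 2
    · change (Polynomial.Chebyshev.C ℝ 1).natDegree = 0 + 1
      rw [Polynomial.Chebyshev.C_one]
      exact natDegree_X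
  | succ n ih =>
    refine ⟨ih.2, ?_⟩
    have h1 : Cp (n + 1 + 1) = X * Cp (n + 1) - Cp n := by
      unfold Cp
      have h2 := Polynomial.Chebyshev.C_add_two ℝ (n : ℤ)
      push_cast
      rw [add_assoc]
      exact h2
    have h0 : Cp (n + 1) ≠ 0 := by
      intro h
      have h3 := ih.2
      rw [h, natDegree_zero] at h3
      omega
    have h3 : (X * Cp (n + 1)).natDegree = n + 1 + 1 := by
      rw [natDegree_X_mul h0, ih.2]
    rw [h1, natDegree_sub_eq_left_of_natDegree_lt (by rw [h3, ih.1]; omega), h3]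

theorem main : S_CHEB := by
  refine ⟨cf_cos, fun n φ => ?_, cf_mul, dc_mul, der, fun n x hn => ?_, fun n => (deg n).1,
    fun n => ⟨(Cp n).continuous, (Cp n).derivative.continuous⟩⟩
  · have h1 : HasDerivAt (fun φ : ℝ => Cf n (2 * Real.cos φ))
        (dC n (2 * Real.cos φ) * (2 * -Real.sin φ)) φ :=
      (der n _).comp φ ((Real.hasDerivAt_cos φ).const_mul 2)
    have h2 : HasDerivAt (fun φ : ℝ => 2 * Real.cos (n * φ))
        (2 * (-Real.sin (n * φ) * (n * 1))) φ :=
      (((hasDerivAt_id φ).const_mul (n : ℝ)).cos).const_mul 2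
    have h3 : (fun φ : ℝ => Cf n (2 * Real.cos φ)) = fun φ : ℝ => 2 * Real.cos (n * φ) := by
      funext φ
      exact cf_cos n φ
    rw [h3] at h1
    have h4 := h1.unique h2
    linarith
  · obtain ⟨k, hk⟩ := hn
    have hk2 : n = k * 2 := by omega
    subst hk2
    constructor
    · rw [cf_mul, cf_mul, cf_two, cf_two, neg_sq]
    · rw [dc_mul, dc_mul, cf_two, cf_two, dc_two, dc_two, neg_sq]
      ring

end Pool.Agent.H957.HN.PCheb
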