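import Pool.Agent.H957.HN.Stm2

/-! Project HN (helper957), task CHOICE (helper706): one `θ` for all levels -/

set_option autoImplicit false

open Set Filter Topology MeasureTheory

namespace Pool.Agent.H957.HN.PChoice

open Pool.Agent.H957.HN

theorem div_facts {s J t : ℕ} (hs : 1 ≤ s) (hJ : 2 ≤ J) (ht : t < J - 1) :
    2 ^ (t + 2) ∣ s * 2 ^ J ∧ 0 < s * 2 ^ J / 2 ^ t ∧ 4 ∣ s * 2 ^ J / 2 ^ t := by
  obtain ⟨k, hk⟩ : ∃ k, J = t + 2 + k := ⟨J - (t + 2), by omega⟩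
  have hpos : 0 < 2 ^ t := Nat.pow_pos (by norm_num)
  have e : s * 2 ^ J = 2 ^ t * (4 * (s * 2 ^ k)) := by
    rw [hk, pow_add, pow_add]
    ring
  have e2 : s * 2 ^ J / 2 ^ t = 4 * (s * 2 ^ k) := by
    rw [e, Nat.mul_div_cancel_left _ hpos]
  refine ⟨?_, ?_, ?_⟩
  · rw [hk, pow_add 2 (t + 2) k]
    exact Dvd.intro_left (s * 2 ^ k) (by ring)
  · rw [e2]
    positivity
  · rw [e2]
    exact Dvd.intro _ rfl

theorem main : S_CHOICE := by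
  intro hC hK s J h hs hJ h0 h2
  have hm : 0 < s * 2 ^ J := by positivity
  have hev : ∀ x ∈ Finset.range (J - 1) ×ˢ Finset.range (J - 1), ∀ᶠ θ : ℝ in atTop,
      ∃ (lo hi : ℕ → ℝ) (Φ ψ : ℕ → ℝ → ℝ) (c : ℕ × ℕ → ℝ),
        Fam (s * 2 ^ J / 2 ^ x.1) (s * 2 ^ J / 2 ^ x.2) θ h (TT (s * 2 ^ J) x.1 x.2)
          (TT (s * 2 ^ J) x.1 x.2).card lo hi Φ ψ c := by
    rintro ⟨t, t'⟩ hx
    obtain ⟨ht, ht'⟩ := Finset.mem_product.1 hx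
    rw [Finset.mem_range] at ht ht'
    obtain ⟨a1, a2, a3⟩ := div_facts hs hJ ht
    obtain ⟨b1, b2, b3⟩ := div_facts hs hJ ht'
    refine hC _ _ (s * 2 ^ J / 2 ^ t' / 2) h _ a2 a3 b2 b3 h0 h2 fun y hy => ?_
    have h3 := (hK (s * 2 ^ J) t t' hm a1 b1).2 y hy
    exact ⟨h3.1, h3.2.le⟩
  obtain ⟨θ, hθ, hθ1⟩ := (((Finset.range (J - 1) ×ˢ Finset.range (J - 1)).eventually_all.2
    hev).and (eventually_ge_atTop (1 : ℝ))).exists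
  have key : ∀ t t' : ℕ, t < J - 1 → t' < J - 1 → ∃ (c : ℕ × ℕ → ℝ) (lo hi : ℕ → ℝ)
      (Φ ψ : ℕ → ℝ → ℝ),
        Fam (s * 2 ^ J / 2 ^ t) (s * 2 ^ J / 2 ^ t') θ h (TT (s * 2 ^ J) t t')
          (TT (s * 2 ^ J) t t').card lo hi Φ ψ c := by
    intro t t' ht ht'
    obtain ⟨lo, hi, Φ, ψ, c, hF⟩ := hθ (t, t')
      (Finset.mem_product.2 ⟨Finset.mem_range.2 ht, Finset.mem_range.2 ht'⟩)
    exact ⟨c, lo, hi, Φ, ψ, hF⟩
  choose! c hc using key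
  exact ⟨θ, c, hθ1, hc⟩

end Pool.Agent.H957.HN.PChoice
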