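import Pool.Agent.H957.HN.Stm

set_option autoImplicit false

namespace Pool.Agent.H957.HN.PCnt

open Finset

theorem term_bound (hC : S_CARD) (m t t' : ℕ) (hm : 0 < m) (h1 : 2 ^ (t + 2) ∣ m)
    (h2 : 2 ^ (t' + 2) ∣ m) :
    (m : ℝ) ^ 2 / 8 - 2 * ((2 : ℝ) ^ t * 2 ^ t') ≤
      ((2 ^ t * 2 ^ t' * ((TT m t t').card - 2) : ℕ) : ℝ) := by
  have h3 := (hC m t t' hm h1 h2).1
  have h4 : (m : ℝ) ^ 2 ≤ 8 * 2 ^ (t + t') * ((TT m t t').card : ℝ) := by exact_mod_cast h3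
  have h5 : ((TT m t t').card : ℝ) - 2 ≤ (((TT m t t').card - 2 : ℕ) : ℝ) := by
    have h6 : (TT m t t').card ≤ ((TT m t t').card - 2) + 2 := by omega
    have h7 : ((TT m t t').card : ℝ) ≤ (((TT m t t').card - 2 : ℕ) : ℝ) + 2 := by exact_mod_cast h6
    linarith
  have hp : (0 : ℝ) ≤ (2 : ℝ) ^ t * 2 ^ t' := by positivity
  have h8 := mul_le_mul_of_nonneg_left h5 hp
  rw [pow_add] at h4
  have h9 : ((2 ^ t * 2 ^ t' * ((TT m t t').card - 2) : ℕ) : ℝ) =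
      (2 : ℝ) ^ t * 2 ^ t' * (((TT m t t').card - 2 : ℕ) : ℝ) := by
    rw [Nat.cast_mul, Nat.cast_mul, Nat.cast_pow, Nat.cast_pow, Nat.cast_ofNat]
  rw [h9]
  linarith

theorem sum_two (n : ℕ) : ∑ t ∈ Finset.range n, (2 : ℝ) ^ t = 2 ^ n - 1 := by
  induction n with
  | zero => simp
  | succ n ih =>
    rw [Finset.sum_range_succ, ih, pow_succ]
    ring

theorem main : S_CNT := by
  intro hC s J hs hJ
  obtain ⟨m, hm⟩ : ∃ m : ℕ, m = s * 2 ^ J := ⟨_, rfl⟩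
  rw [← hm]
  have hm0 : 0 < m := by rw [hm]; positivity
  obtain ⟨K, hK⟩ : ∃ K : ℕ, J = K + 1 := ⟨J - 1, by omega⟩
  have hK1 : J - 1 = K := by omega
  have hdiv : ∀ t ∈ Finset.range K, 2 ^ (t + 2) ∣ m := by
    intro t ht
    rw [Finset.mem_range] at ht
    rw [hm]
    exact Dvd.dvd.mul_left (pow_dvd_pow 2 (by omega)) s
  have h1 : ∑ t ∈ Finset.range K, ∑ t' ∈ Finset.range K,
      ((m : ℝ) ^ 2 / 8 - 2 * ((2 : ℝ) ^ t * 2 ^ t')) ≤ (cnt m J : ℝ) := by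
    unfold cnt
    rw [hK1, Nat.cast_sum]
    refine Finset.sum_le_sum (fun t ht => ?_)
    rw [Nat.cast_sum]
    exact Finset.sum_le_sum (fun t' ht' => term_bound hC m t t' hm0 (hdiv t ht) (hdiv t' ht'))
  have h2 : ∑ t ∈ Finset.range K, ∑ t' ∈ Finset.range K,
      ((m : ℝ) ^ 2 / 8 - 2 * ((2 : ℝ) ^ t * 2 ^ t')) =
      (K : ℝ) ^ 2 * ((m : ℝ) ^ 2 / 8) - 2 * ((2 : ℝ) ^ K - 1) ^ 2 := by
    have h3 : ∀ t ∈ Finset.range K, ∑ t' ∈ Finset.range K,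
        ((m : ℝ) ^ 2 / 8 - 2 * ((2 : ℝ) ^ t * 2 ^ t')) =
        (K : ℝ) * ((m : ℝ) ^ 2 / 8) - 2 * ((2 : ℝ) ^ K - 1) * 2 ^ t := by
      intro t _
      rw [Finset.sum_sub_distrib, Finset.sum_const, Finset.card_range, nsmul_eq_mul,
        ← Finset.mul_sum, ← Finset.mul_sum, sum_two]
      ring
    rw [Finset.sum_congr rfl h3, Finset.sum_sub_distrib, Finset.sum_const, Finset.card_range,
      nsmul_eq_mul, ← Finset.mul_sum, sum_two]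
    ring
  have h4 : ((2 : ℝ) ^ K - 1) ^ 2 ≤ (m : ℝ) ^ 2 / 4 := by
    have h5 : (1 : ℝ) ≤ 2 ^ K := one_le_pow₀ (by norm_num)
    have h6 : (2 : ℝ) * 2 ^ K ≤ m := by
      have h7 : 2 ^ J ≤ m := by
        rw [hm]
        exact Nat.le_mul_of_pos_left _ hs
      have h8 : ((2 ^ J : ℕ) : ℝ) ≤ (m : ℝ) := by exact_mod_cast h7
      rw [hK, pow_succ, Nat.cast_mul, Nat.cast_pow, Nat.cast_ofNat] at h8
      linarith
    have h9 : (2 : ℝ) ^ K - 1 ≤ m / 2 := by linarith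
    have h10 : ((2 : ℝ) ^ K - 1) ^ 2 ≤ (m / 2 : ℝ) ^ 2 :=
      pow_le_pow_left₀ (by linarith) h9 2
    calc ((2 : ℝ) ^ K - 1) ^ 2 ≤ (m / 2 : ℝ) ^ 2 := h10
      _ = (m : ℝ) ^ 2 / 4 := by ring
  rw [h2] at h1
  have h11 : (J : ℝ) - 1 = K := by
    rw [hK]
    push_cast
    ring
  rw [h11]
  refine le_trans ?_ h1
  have h12 : (m : ℝ) ^ 2 * ((K : ℝ) ^ 2 - 4) / 8 = (K : ℝ) ^ 2 * ((m : ℝ) ^ 2 / 8) - (m : ℝ) ^ 2 / 2 := by
    ring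
  rw [h12]
  linarith

end Pool.Agent.H957.HN.PCnt
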