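import Pool.Agent.H957.HN.Stm

/-!
# HN COEF: choice of the weights and of the coefficients
-/

set_option autoImplicit false

open Set Filter Topology MeasureTheory Polynomial

namespace Pool.Agent.H957.HN.PCoef

open Pool.Agent.H957.HN

theorem kq_pos {N : ℕ} (hN : 0 < N) (q : ℕ) : 0 < kq N q := by
  unfold kq
  have h1 : (0:ℝ) < N := by exact_mod_cast hN
  positivity

/-- numbering of a finite set -/
noncomputable def gg (T : Finset (ℕ × ℕ)) (i : Fin T.card) : ℕ × ℕ := (T.equivFin.symm i).val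

theorem gg_mem (T : Finset (ℕ × ℕ)) (i : Fin T.card) : gg T i ∈ T := (T.equivFin.symm i).2

theorem sum_gg (T : Finset (ℕ × ℕ)) (F : ℕ × ℕ → ℝ) : ∑ x ∈ T, F x = ∑ i, F (gg T i) := by
  rw [← Finset.sum_coe_sort T F, ← Equiv.sum_comp T.equivFin.symm (fun x : T => F x)]
  rfl

open scoped Classical in
/-- a function on the set from one on the numbers -/
noncomputable def ext (T : Finset (ℕ × ℕ)) (y : Fin T.card → ℝ) (x : ℕ × ℕ) : ℝ :=
  if hx : x ∈ T then y (T.equivFin ⟨x, hx⟩) else 0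

theorem ext_gg (T : Finset (ℕ × ℕ)) (y : Fin T.card → ℝ) (i : Fin T.card) :
    ext T y (gg T i) = y i := by
  unfold ext
  rw [dif_pos (gg_mem T i)]
  congr 1
  have : (⟨gg T i, gg_mem T i⟩ : T) = T.equivFin.symm i := rfl
  rw [this, Equiv.apply_symm_apply]

theorem ext_not {T : Finset (ℕ × ℕ)} (y : Fin T.card → ℝ) {x : ℕ × ℕ} (hx : x ∉ T) :
    ext T y x = 0 := dif_neg hx

/-- a function of the natural numbers from one on `Fin R` -/
noncomputable def exn {α : Type} {R : ℕ} (d : α) (y : Fin R → α) (k : ℕ) : α :=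
  if hk : k < R then y ⟨k, hk⟩ else d

theorem exn_lt {α : Type} {R : ℕ} (d : α) (y : Fin R → α) {k : ℕ} (hk : k < R) :
    exn d y k = y ⟨k, hk⟩ := dif_pos hk

theorem main : S_COEF := by
  intro hCHEB hIND hLIMW hNNC hPTS hBUMP hall M N Q h T hM hM4 hN hN4 hh hh2 hT
  obtain ⟨hINV, hCRIT, hALG, hABEL, hDER, hITER, hLOC, hLIM, hLAYER⟩ := hall
  set f : Fin T.card → ℝ → ℝ := fun i c => kq N (gg T i).2 * NN M (gg T i).1 (gg T i).2 c with hf
  have hcont : ∀ i, Continuous (f i) := fun i => continuous_const.mul (hNNC M _ _)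
  -- independence
  have hind : ∀ lam : Fin T.card → ℝ, (∀ c ∈ Ioo 0 h, ∑ i, lam i * f i c = 0) → lam = 0 := by
    intro lam hlam
    have h1 := hIND hCHEB hINV hCRIT hALG hABEL hDER hITER M Q h
      (fun p q => ext T (fun i => lam i * kq N (gg T i).2) (p, q)) hM hM4 hh hh2 (by
        intro c hc
        rw [← Finset.sum_product' (Finset.range (M / 2)) (Finset.range (Q + 1))
          (fun p q => ext T (fun i => lam i * kq N (gg T i).2) (p, q) * NN M p q c)]
        have hsub : T ⊆ Finset.range (M / 2) ×ˢ Finset.range (Q + 1) := by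
          intro x hx
          rw [Finset.mem_product, Finset.mem_range, Finset.mem_range]
          exact ⟨(hT x hx).1, Nat.lt_succ_of_le (hT x hx).2⟩
        rw [← Finset.sum_subset hsub (fun x _ hx => by
          show ext T (fun i => lam i * kq N (gg T i).2) (x.1, x.2) * NN M x.1 x.2 c = 0
          rw [ext_not _ (x := (x.1, x.2)) hx, zero_mul])]
        rw [sum_gg, ← hlam c hc]
        refine Finset.sum_congr rfl fun i _ => ?_
        show ext T (fun i => lam i * kq N (gg T i).2) (gg T i) * NN M (gg T i).1 (gg T i).2 c = _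
        rw [ext_gg, hf]
        ring)
    funext i
    have h2 := hT _ (gg_mem T i)
    have h3 : ext T (fun i => lam i * kq N (gg T i).2) (gg T i) = 0 :=
      h1 (gg T i).1 h2.1 (gg T i).2 h2.2
    rw [ext_gg] at h3
    exact (mul_eq_zero.1 h3).resolve_right (kq_pos hN _).ne'
  obtain ⟨c, hc1, hc2, hc3⟩ := hPTS T.card f h hh hind
  obtain ⟨lo, hi, Φ, ψ, hW, hord, hdet⟩ := hBUMP T.card f h c hcont hc1 hc2 hc3
  -- the limit of the matrix
  have hlim : ∀ l i : Fin T.card, Tendsto (fun θ : ℝ => θ ^ (((gg T i).2 : ℝ) + 1 / 2) *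
      JJ M N θ (Φ l) (gg T i).1 (gg T i).2) atTop
      (𝓝 (∫ c in (lo l)..(hi l), ψ l c * f i c)) := by
    intro l i
    obtain ⟨w1, w2, w3⟩ := hW l
    have h1 := hLIMW hCHEB hLOC hLIM hLAYER M N (gg T i).1 (gg T i).2 (lo l) (hi l) (Φ l) (ψ l)
      hM hM4 hN hN4 w3 (w2.le.trans hh2)
    have e : ∫ c in (lo l)..(hi l), ψ l c * f i c =
        kq N (gg T i).2 * ∫ c in (lo l)..(hi l), ψ l c * NN M (gg T i).1 (gg T i).2 c := by
      rw [← intervalIntegral.integral_const_mul]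
      refine intervalIntegral.integral_congr fun c _ => ?_
      simp only [hf]
      ring
    rw [e]
    exact h1
  have hdetlim : Tendsto (fun θ : ℝ => (Matrix.of fun l i : Fin T.card =>
      θ ^ (((gg T i).2 : ℝ) + 1 / 2) * JJ M N θ (Φ l) (gg T i).1 (gg T i).2).det) atTop
      (𝓝 (Matrix.of fun l i => ∫ c in (lo l)..(hi l), ψ l c * f i c).det) := by
    have h1 : Tendsto (fun θ : ℝ => (Matrix.of fun l i : Fin T.card =>
        θ ^ (((gg T i).2 : ℝ) + 1 / 2) * JJ M N θ (Φ l) (gg T i).1 (gg T i).2)) atTop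
        (𝓝 (Matrix.of fun l i => ∫ c in (lo l)..(hi l), ψ l c * f i c)) := by
      exact tendsto_pi_nhds.2 fun l => tendsto_pi_nhds.2 fun i => hlim l i
    have h2 : Continuous fun A : Matrix (Fin T.card) (Fin T.card) ℝ => A.det :=
      Continuous.matrix_det continuous_id
    exact (h2.tendsto _).comp h1
  filter_upwards [hdetlim.eventually_ne hdet] with θ hθ
  obtain ⟨A, hA⟩ : ∃ A : Matrix (Fin T.card) (Fin T.card) ℝ, A = Matrix.of fun l i =>
      θ ^ (((gg T i).2 : ℝ) + 1 / 2) * JJ M N θ (Φ l) (gg T i).1 (gg T i).2 := ⟨_, rfl⟩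
  rw [← hA] at hθ
  have hu : IsUnit A.det := isUnit_iff_ne_zero.2 hθ
  obtain ⟨s, hs⟩ : ∃ s : Fin T.card → ℝ, s = fun l : Fin T.card => (-1 : ℝ) ^ (l : ℕ) := ⟨_, rfl⟩
  obtain ⟨y, hy⟩ : ∃ y, y = A⁻¹.mulVec s := ⟨_, rfl⟩
  have hAy : A.mulVec y = s := by
    rw [hy, Matrix.mulVec_mulVec, Matrix.mul_nonsing_inv A hu, Matrix.one_mulVec]
  refine ⟨exn 0 lo, exn 0 hi, exn 0 Φ, exn 0 ψ,
    ext T (fun i => y i * θ ^ (((gg T i).2 : ℝ) + 1 / 2)), ?_, ?_, ?_, ?_, ?_⟩
  · intro k hk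
    rw [exn_lt _ _ hk]
    exact (hW _).1
  · intro k hk
    rw [exn_lt _ _ hk]
    exact (hW _).2.1
  · intro k hk
    rw [exn_lt _ _ hk, exn_lt _ _ hk, exn_lt _ _ hk, exn_lt _ _ hk]
    exact (hW _).2.2
  · intro k hk
    rw [exn_lt _ _ hk, exn_lt _ _ (show k < T.card by omega)]
    exact hord _ _ (Nat.lt_succ_self k)
  · intro k hk
    rw [sum_gg]
    have h1 : A.mulVec y ⟨k, hk⟩ = (-1) ^ k := by
      rw [hAy, hs]
    rw [← h1]
    unfold Matrix.mulVec dotProduct
    refine Finset.sum_congr rfl fun i _ => ?_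
    have h2 : A ⟨k, hk⟩ i = θ ^ (((gg T i).2 : ℝ) + 1 / 2) *
        JJ M N θ (Φ ⟨k, hk⟩) (gg T i).1 (gg T i).2 := by
      rw [hA, Matrix.of_apply]
    show _ = A ⟨k, hk⟩ i * y i
    rw [ext_gg, exn_lt _ _ hk, h2]
    ring

end Pool.Agent.H957.HN.PCoef
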