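import Pool.Agent.H957.HN.Stm

set_option autoImplicit false

open Set Filter Topology MeasureTheory Polynomial

namespace Pool.Agent.H957.HN.PCrit

open Pool.Agent.H957.HN

theorem main : S_CRIT := by
  intro hC M hM
  obtain ⟨-, h2, -, -, -, -, hdeg, -⟩ := hC
  have hM0 : (0 : ℝ) < M := by
    have : 0 < M := by omega
    exact_mod_cast this
  set P : ℝ[X] := (Cp M).derivative with hP
  have hPdeg : P.natDegree = M - 1 := by
    rw [hP, Polynomial.natDegree_derivative, hdeg]
  have hP0 : P ≠ 0 := by
    intro h0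
    rw [h0, Polynomial.natDegree_zero] at hPdeg
    omega
  let f : ℕ → ℝ := fun b => 2 * Real.cos (Real.pi * (b + 1) / M)
  have hrange : ∀ b ∈ Finset.range (M - 1), Real.pi * ((b : ℝ) + 1) / M ∈ Ioo 0 Real.pi := by
    intro b hb
    rw [Finset.mem_range] at hb
    have hb' : (b : ℝ) + 1 < M := by
      have : b + 1 < M := by omega
      exact_mod_cast this
    constructor
    · positivity
    · rw [div_lt_iff₀ hM0]
      exact mul_lt_mul_of_pos_left hb' Real.pi_pos
  have hinj : Set.InjOn f (Finset.range (M - 1) : Set ℕ) := by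
    intro a ha b hb hab
    have ha' := hrange a (by simpa using ha)
    have hb' := hrange b (by simpa using hb)
    have h3 : Real.cos (Real.pi * ((a : ℝ) + 1) / M) = Real.cos (Real.pi * ((b : ℝ) + 1) / M) := by
      have : 2 * Real.cos (Real.pi * ((a : ℝ) + 1) / M) = 2 * Real.cos (Real.pi * ((b : ℝ) + 1) / M) := hab
      linarith
    have h4 := Real.injOn_cos ⟨ha'.1.le, ha'.2.le⟩ ⟨hb'.1.le, hb'.2.le⟩ h3
    rw [div_left_inj' hM0.ne'] at h4
    have h5 := mul_left_cancel₀ Real.pi_pos.ne' h4
    have h6 : (a : ℝ) = b := by linarith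
    exact_mod_cast h6
  let S : Finset ℝ := (Finset.range (M - 1)).image f
  have hScard : S.card = M - 1 := by
    rw [Finset.card_image_of_injOn hinj, Finset.card_range]
  have hroot : ∀ x ∈ S, P.eval x = 0 := by
    intro x hx
    obtain ⟨b, hb, rfl⟩ := Finset.mem_image.mp hx
    have h3 := h2 M (Real.pi * ((b : ℝ) + 1) / M)
    have hr := hrange b hb
    have hs : 0 < Real.sin (Real.pi * ((b : ℝ) + 1) / M) := Real.sin_pos_of_pos_of_lt_pi hr.1 hr.2
    have h4 : (M : ℝ) * (Real.pi * ((b : ℝ) + 1) / M) = ((b + 1 : ℕ) : ℝ) * Real.pi := by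
      push_cast
      field_simp
    rw [h4, Real.sin_nat_mul_pi, mul_zero] at h3
    rcases mul_eq_zero.mp h3 with h5 | h5
    · exact h5
    · exact absurd h5 hs.ne'
  have hSroots : S.val ≤ P.roots := by
    rw [Multiset.le_iff_subset S.nodup]
    intro x hx
    rw [Polynomial.mem_roots hP0]
    exact hroot x (by simpa using hx)
  have heq : S.val = P.roots := by
    refine Multiset.eq_of_le_of_card_le hSroots ?_
    calc P.roots.card ≤ P.natDegree := Polynomial.card_roots' P
      _ = M - 1 := hPdeg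
      _ = S.card := hScard.symm
      _ = S.val.card := rfl
  refine ⟨S, hScard, fun b hb => ⟨hroot b hb, ?_⟩⟩
  intro h0
  have h1 : 1 < P.rootMultiplicity b := by
    rw [Polynomial.one_lt_rootMultiplicity_iff_isRoot hP0]
    exact ⟨hroot b hb, h0⟩
  rw [← Polynomial.count_roots, ← heq] at h1
  have h2' : S.val.count b ≤ 1 := Multiset.nodup_iff_count_le_one.mp S.nodup b
  omega

end Pool.Agent.H957.HN.PCrit
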