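import Pool.Agent.H957.HN.Stm

/-! Project HN, C5: derivatives of `BB` (helper401 for helper957). -/

set_option autoImplicit false

open Set Filter Topology MeasureTheory Polynomial

namespace Pool.Agent.H957.HN.PDer

/-- derivative of the truncated powers -/
theorem der_max (k : ℕ) (hk : 1 ≤ k) (u : ℝ) :
    HasDerivAt (fun v : ℝ => (max 0 v) ^ (k + 1)) (((k : ℝ) + 1) * (max 0 u) ^ k) u := by
  rcases lt_trichotomy u 0 with h | h | h
  · have h1 : (fun v : ℝ => (max 0 v) ^ (k + 1)) =ᶠ[𝓝 u] fun _ => 0 := by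
      filter_upwards [Iio_mem_nhds h] with v hv
      rw [max_eq_left (le_of_lt hv), zero_pow (Nat.succ_ne_zero k)]
    have h2 : ((k : ℝ) + 1) * (max 0 u) ^ k = 0 := by
      rw [max_eq_left h.le, zero_pow (by omega), mul_zero]
    rw [h2]
    exact (hasDerivAt_const u (0:ℝ)).congr_of_eventuallyEq h1
  · subst h
    have h2 : ((k : ℝ) + 1) * (max 0 (0 : ℝ)) ^ k = 0 := by
      rw [max_self, zero_pow (by omega), mul_zero]
    rw [h2]
    have h3 : (fun v : ℝ => (max 0 v) ^ (k + 1)) =O[𝓝 0] fun v : ℝ => ‖v - 0‖ ^ (k + 1) := by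
      refine Asymptotics.IsBigO.of_bound 1 (Eventually.of_forall fun v => ?_)
      rw [one_mul, norm_pow, norm_pow, norm_norm, sub_zero]
      refine pow_le_pow_left₀ (norm_nonneg _) ?_ _
      rw [Real.norm_of_nonneg (le_max_left _ _), Real.norm_eq_abs]
      exact max_le (abs_nonneg _) (le_abs_self _)
    have h4 : HasFDerivAt (fun v : ℝ => (max 0 v) ^ (k + 1)) (0 : ℝ →L[ℝ] ℝ) 0 :=
      h3.hasFDerivAt (by omega)
    exact h4.hasDerivAt
  · have h1 : (fun v : ℝ => (max 0 v) ^ (k + 1)) =ᶠ[𝓝 u] fun v => v ^ (k + 1) := by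
      filter_upwards [Ioi_mem_nhds h] with v hv
      rw [max_eq_right (le_of_lt hv)]
    rw [max_eq_right h.le]
    have h2 := hasDerivAt_pow (k + 1) u
    rw [Nat.add_sub_cancel] at h2
    push_cast at h2
    exact h2.congr_of_eventuallyEq h1

theorem cont (hC : S_CHEB) (M p : ℕ) (s : ℝ) (j : ℕ) :
    Continuous fun X : ℝ => X ^ (2 * p) * (max 0 (s - VV M X)) ^ j := by
  have hV : Continuous (VV M) := continuous_const.sub (hC.2.2.2.2.2.2.2 M).1
  exact (continuous_id.pow _).mul ((continuous_const.max (continuous_const.sub hV)).pow _)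

theorem part1 (hC : S_CHEB) (M p k : ℕ) (t : ℝ) (hk : 1 ≤ k) :
    HasDerivAt (BB M p (k + 1)) (((k : ℝ) + 1) * BB M p k t) t := by
  have hb : ∀ᵐ X : ℝ, X ∈ uIoc (-(ee M)) (ee M) → ∀ s ∈ Metric.ball t 1,
      ‖((k : ℝ) + 1) * (X ^ (2 * p) * (max 0 (s - VV M X)) ^ k)‖ ≤
        ((k : ℝ) + 1) * (X ^ (2 * p) * (max 0 (t + 1 - VV M X)) ^ k) := by
    refine Eventually.of_forall fun X _ s hs => ?_
    have hX : 0 ≤ X ^ (2 * p) := by rw [pow_mul]; positivity
    have h0 : 0 ≤ max 0 (s - VV M X) := le_max_left _ _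
    rw [Real.norm_of_nonneg (by positivity)]
    have hs' : s ≤ t + 1 := by
      rw [Metric.mem_ball, Real.dist_eq] at hs
      linarith [(abs_lt.1 hs).2]
    have h1 : max 0 (s - VV M X) ≤ max 0 (t + 1 - VV M X) := max_le_max_left _ (by linarith)
    exact mul_le_mul_of_nonneg_left (mul_le_mul_of_nonneg_left (pow_le_pow_left₀ h0 h1 k) hX)
      (by positivity)
  have hd : ∀ᵐ X : ℝ, X ∈ uIoc (-(ee M)) (ee M) → ∀ s ∈ Metric.ball t 1,
      HasDerivAt (fun s => X ^ (2 * p) * (max 0 (s - VV M X)) ^ (k + 1))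
        (((k : ℝ) + 1) * (X ^ (2 * p) * (max 0 (s - VV M X)) ^ k)) s := by
    refine Eventually.of_forall fun X _ s _ => ?_
    have h0 : HasDerivAt (fun s : ℝ => s - VV M X) 1 s := (hasDerivAt_id s).sub_const _
    have h00 := der_max k hk (s - VV M X)
    have h1 : HasDerivAt (fun s : ℝ => (max 0 (s - VV M X)) ^ (k + 1))
        ((((k : ℝ) + 1) * (max 0 (s - VV M X)) ^ k) * 1) s := by
      have h9 := HasDerivAt.comp s h00 h0
      exact h9
    have h2 := h1.const_mul (X ^ (2 * p))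
    have e : X ^ (2 * p) * ((((k : ℝ) + 1) * (max 0 (s - VV M X)) ^ k) * 1) =
        ((k : ℝ) + 1) * (X ^ (2 * p) * (max 0 (s - VV M X)) ^ k) := by ring
    rw [e] at h2
    exact h2
  have h := (intervalIntegral.hasDerivAt_integral_of_dominated_loc_of_deriv_le
    (F := fun s X => X ^ (2 * p) * (max 0 (s - VV M X)) ^ (k + 1))
    (F' := fun s X => ((k : ℝ) + 1) * (X ^ (2 * p) * (max 0 (s - VV M X)) ^ k)) (x₀ := t)
    (bound := fun X => ((k : ℝ) + 1) * (X ^ (2 * p) * (max 0 (t + 1 - VV M X)) ^ k))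
    (Metric.ball_mem_nhds t one_pos)
    (Eventually.of_forall fun s => (cont hC M p s (k + 1)).aestronglyMeasurable)
    ((cont hC M p t (k + 1)).intervalIntegrable _ _)
    ((continuous_const.mul (cont hC M p t k)).aestronglyMeasurable)
    hb ((continuous_const.mul (cont hC M p (t + 1) k)).intervalIntegrable _ _) hd).2
  rw [intervalIntegral.integral_const_mul] at h
  exact h

/-- the integral of the power over the sublevel set -/
theorem int_ind (p : ℕ) (a e : ℝ) (ha : 0 < a) (hae : a < e) :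
    ∫ X in (-e)..e, (Ioo (-a) a).indicator (fun X : ℝ => X ^ (2 * p)) X =
      2 / (2 * p + 1) * a ^ (2 * p + 1) := by
  have hsub : Ioo (-a) a ⊆ Ioc (-e) e := fun X hX => ⟨by linarith [hX.1], by linarith [hX.2]⟩
  rw [intervalIntegral.integral_of_le (by linarith), setIntegral_indicator measurableSet_Ioo,
    inter_eq_right.2 hsub, ← integral_Ioc_eq_integral_Ioo,
    ← intervalIntegral.integral_of_le (by linarith), integral_pow]
  have h1 : (-a) ^ (2 * p + 1) = -a ^ (2 * p + 1) := Odd.neg_pow ⟨p, rfl⟩ a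
  rw [h1]
  push_cast
  ring

theorem part2 (hC : S_CHEB) (M p : ℕ) (x : ℝ → ℝ) (hI : Inv M x) (t : ℝ)
    (ht : t ∈ Ioo (0 : ℝ) 2) :
    HasDerivAt (BB M p 1) (2 / (2 * p + 1) * x t ^ (2 * p + 1)) t := by
  have hx := hI.mem t ht
  have hl : ∀ᵐ X : ℝ, X ∈ uIoc (-(ee M)) (ee M) →
      LipschitzOnWith (Real.nnabs (X ^ (2 * p)))
        (fun s => X ^ (2 * p) * (max 0 (s - VV M X)) ^ 1) univ := by
    refine Eventually.of_forall fun X _ => ?_
    refine (LipschitzWith.of_dist_le_mul fun s s' => ?_).lipschitzOnWith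
    rw [Real.coe_nnabs, Real.dist_eq, Real.dist_eq, pow_one, pow_one, ← mul_sub, abs_mul]
    refine mul_le_mul_of_nonneg_left ?_ (abs_nonneg _)
    rw [max_comm 0 (s - VV M X), max_comm 0 (s' - VV M X)]
    have h1 := abs_max_sub_max_le_abs (s - VV M X) (s' - VV M X) 0
    rwa [sub_sub_sub_cancel_right] at h1
  have hd : ∀ᵐ X : ℝ, X ∈ uIoc (-(ee M)) (ee M) →
      HasDerivAt (fun s => X ^ (2 * p) * (max 0 (s - VV M X)) ^ 1)
        ((Ioo (-(x t)) (x t)).indicator (fun X : ℝ => X ^ (2 * p)) X) t := by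
    have h0 : ∀ᵐ X : ℝ, X ∉ ({x t, -(x t)} : Set ℝ) :=
      (Set.toFinite ({x t, -(x t)} : Set ℝ)).countable.ae_notMem volume
    filter_upwards [h0] with X hX0 hX
    rw [uIoc_of_le (by linarith [hx.1, hx.2])] at hX
    have hX' : X ∈ Icc (-(ee M)) (ee M) := ⟨hX.1.le, hX.2⟩
    have hne : |X| ≠ x t := by
      intro h
      apply hX0
      rw [mem_insert_iff, mem_singleton_iff]
      rcases abs_choice X with h1 | h1
      · left; rw [← h1]; exact h
      · right; rw [← h, h1, neg_neg]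
    rcases lt_or_gt_of_ne hne with h | h
    · have hV : VV M X < t := (hI.lev t ht X hX').2 h
      rw [indicator_of_mem (show X ∈ Ioo (-(x t)) (x t) from abs_lt.1 h)]
      have h1 : (fun s => X ^ (2 * p) * (max 0 (s - VV M X)) ^ 1) =ᶠ[𝓝 t]
          fun s => X ^ (2 * p) * (s - VV M X) := by
        filter_upwards [Ioi_mem_nhds hV] with s hs
        rw [max_eq_right (by linarith [mem_Ioi.1 hs]), pow_one]
      have h2 : HasDerivAt (fun s : ℝ => X ^ (2 * p) * (s - VV M X)) (X ^ (2 * p) * 1) t :=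
        ((hasDerivAt_id t).sub_const _).const_mul _
      rw [mul_one] at h2
      exact h2.congr_of_eventuallyEq h1
    · rw [indicator_of_notMem (show X ∉ Ioo (-(x t)) (x t) from
        fun h' => absurd (abs_lt.2 h') (not_lt.2 h.le))]
      -- a level slightly above `t`
      have hc : ContinuousAt x t := (hI.der t ht).continuousAt
      have h3 : ∀ᶠ s in 𝓝[>] t, x s < |X| ∧ s ∈ Ioo (0 : ℝ) 2 := by
        refine (Filter.Eventually.and ?_ ?_).filter_mono nhdsWithin_le_nhds
        · exact hc.eventually (Iio_mem_nhds h)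
        · exact Ioo_mem_nhds ht.1 ht.2
      obtain ⟨t', ⟨h4, h5⟩, h6⟩ := (h3.and self_mem_nhdsWithin).exists
      have hV : t' ≤ VV M X := by
        by_contra h7
        exact absurd ((hI.lev t' h5 X hX').1 (not_le.1 h7)) (not_lt.2 h4.le)
      have hV' : t < VV M X := lt_of_lt_of_le h6 hV
      have h1 : (fun s => X ^ (2 * p) * (max 0 (s - VV M X)) ^ 1) =ᶠ[𝓝 t] fun _ => 0 := by
        filter_upwards [Iio_mem_nhds hV'] with s hs
        rw [max_eq_left (by linarith [mem_Iio.1 hs]), pow_one, mul_zero]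
      exact (hasDerivAt_const t (0 : ℝ)).congr_of_eventuallyEq h1
  have hcp : Continuous fun X : ℝ => X ^ (2 * p) := continuous_id.pow _
  have h := (intervalIntegral.hasDerivAt_integral_of_dominated_loc_of_lip
    (F := fun s X => X ^ (2 * p) * (max 0 (s - VV M X)) ^ 1)
    (F' := fun X => (Ioo (-(x t)) (x t)).indicator (fun X : ℝ => X ^ (2 * p)) X) (x₀ := t)
    (bound := fun X => X ^ (2 * p)) univ_mem
    (Eventually.of_forall fun s => (cont hC M p s 1).aestronglyMeasurable)
    ((cont hC M p t 1).intervalIntegrable _ _)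
    ((hcp.measurable.indicator measurableSet_Ioo).aestronglyMeasurable)
    hl (hcp.intervalIntegrable _ _) hd).2
  rw [int_ind p (x t) (ee M) hx.1 hx.2] at h
  exact h

theorem main : S_DER := by
  intro hC M p x _ _ hI
  exact ⟨fun k t hk => part1 hC M p k t hk, fun t ht => part2 hC M p x hI t ht⟩

end Pool.Agent.H957.HN.PDer
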