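import Pool.Agent.H957.HN.Stm2

set_option autoImplicit false

open Set Filter Topology MeasureTheory

namespace Pool.Agent.H957.HN.PDv

open Pool.Agent.Y300

theorem cf_cd (n : ℕ) {k : WithTop ℕ∞} : ContDiff ℝ k (Cf n) := by
  have h := Polynomial.contDiff_aeval (𝕜 := ℝ) (Cp n) k
  simp only [Polynomial.coe_aeval_eq_eval] at h
  exact h

theorem dc_cd (n : ℕ) {k : WithTop ℕ∞} : ContDiff ℝ k (dC n) := by
  have h := Polynomial.contDiff_aeval (𝕜 := ℝ) (Cp n).derivative k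
  simp only [Polynomial.coe_aeval_eq_eval] at h
  exact h

theorem af_cd (t p : ℕ) {k : WithTop ℕ∞} : ContDiff ℝ k (af t p) := by
  unfold af
  exact ((cf_cd _).pow _).mul (dc_cd _)

theorem aa_cd (t p : ℕ) {k : WithTop ℕ∞} : ContDiff ℝ k (AA t p) := by
  unfold AA
  exact ((cf_cd _).pow _).div_const _

theorem aa_der (hC : S_CHEB) (t p : ℕ) (x : ℝ) : HasDerivAt (AA t p) (af t p x) x := by
  have h1 : HasDerivAt (Cf (2 ^ t)) (dC (2 ^ t) x) x := hC.2.2.2.2.1 _ x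
  have h2 := (h1.pow (2 * p + 1)).div_const (2 * (p : ℝ) + 1)
  have h3 : (((2 * p + 1 : ℕ) : ℝ) * Cf (2 ^ t) x ^ (2 * p + 1 - 1) * dC (2 ^ t) x) / (2 * (p : ℝ) + 1) =
      af t p x := by
    unfold af
    have h4 : (2 * (p : ℝ) + 1) ≠ 0 := by positivity
    rw [Nat.add_sub_cancel]
    push_cast
    field_simp
  rw [h3] at h2
  exact h2

theorem hh_fd (hC : S_CHEB) (m : ℕ) (θ : ℝ) (z v : ℝ × ℝ) :
    fderiv ℝ (HH m θ) z v = -dC m z.1 * v.1 - θ * (dC m z.2 * v.2) := by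
  have h1 : HasFDerivAt (fun z : ℝ × ℝ => Cf m z.1)
      (dC m z.1 • ContinuousLinearMap.fst ℝ ℝ ℝ) z :=
    (hC.2.2.2.2.1 m z.1).comp_hasFDerivAt z hasFDerivAt_fst
  have h2 : HasFDerivAt (fun z : ℝ × ℝ => Cf m z.2)
      (dC m z.2 • ContinuousLinearMap.snd ℝ ℝ ℝ) z :=
    (hC.2.2.2.2.1 m z.2).comp_hasFDerivAt z hasFDerivAt_snd
  have h3 : HasFDerivAt (HH m θ) (-(dC m z.1 • ContinuousLinearMap.fst ℝ ℝ ℝ) +
      θ • (-(dC m z.2 • ContinuousLinearMap.snd ℝ ℝ ℝ))) z := by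
    unfold HH VV
    exact (h1.const_sub 2).add ((h2.const_sub 2).const_mul θ)
  rw [h3.fderiv]
  simp only [_root_.add_apply, _root_.neg_apply,
    _root_.smul_apply, ContinuousLinearMap.coe_fst', ContinuousLinearMap.coe_snd',
    smul_eq_mul]
  ring

theorem y1_fd (hC : S_CHEB) (m J : ℕ) (c : ℕ → ℕ → ℕ × ℕ → ℝ) (τ : ℝ) (z : ℝ × ℝ) :
    fderiv ℝ (Y1 m J c τ) z (1, 0) =
    ∑ t ∈ Finset.range (J - 1), ∑ t' ∈ Finset.range (J - 1), τ ^ (2 * J - t - t') *
      ∑ x ∈ TT m t t', c t t' x * (af t x.1 z.1 * af t' x.2 z.2) := by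
  -- derivative along the line `s ↦ (s, z.2)`
  have hcd : ContDiff ℝ 1 (Y1 m J c τ) := by
    unfold Y1
    refine ContDiff.sum (fun t _ => ContDiff.sum (fun t' _ => contDiff_const.mul
      (ContDiff.sum (fun x _ => contDiff_const.mul
        (((aa_cd t x.1).comp contDiff_fst).mul ((af_cd t' x.2).comp contDiff_snd))))))
  have h1 : HasDerivAt (fun s : ℝ => Y1 m J c τ (s, z.2)) (fderiv ℝ (Y1 m J c τ) z (1, 0)) z.1 := by
    have h2 : HasFDerivAt (Y1 m J c τ) (fderiv ℝ (Y1 m J c τ) z) (z.1, z.2) :=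
      (hcd.differentiable (by simp) z).hasFDerivAt
    have h3 : HasDerivAt (fun s : ℝ => (s, z.2)) ((1 : ℝ), (0 : ℝ)) z.1 :=
      (hasDerivAt_id z.1).prodMk (hasDerivAt_const z.1 z.2)
    exact h2.comp_hasDerivAt z.1 h3
  have h4 : HasDerivAt (fun s : ℝ => Y1 m J c τ (s, z.2))
      (∑ t ∈ Finset.range (J - 1), ∑ t' ∈ Finset.range (J - 1), τ ^ (2 * J - t - t') *
      ∑ x ∈ TT m t t', c t t' x * (af t x.1 z.1 * af t' x.2 z.2)) z.1 := by
    unfold Y1
    refine HasDerivAt.fun_sum (fun t _ => HasDerivAt.fun_sum (fun t' _ => HasDerivAt.const_mul _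
      (HasDerivAt.fun_sum (fun x _ => HasDerivAt.const_mul _ ?_))))
    exact (aa_der hC t x.1 z.1).mul_const (af t' x.2 z.2)
  exact h1.unique h4

theorem main : S_DV := by
  intro hC m J c τ θ
  refine ⟨?_, ?_, fun z v => hh_fd hC m θ z v, ?_⟩
  · unfold HH VV
    exact (contDiff_const.sub ((cf_cd m).comp contDiff_fst)).add
      (contDiff_const.mul (contDiff_const.sub ((cf_cd m).comp contDiff_snd)))
  · unfold YY
    refine ContDiff.prodMk ?_ contDiff_const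
    unfold Y1
    refine ContDiff.sum (fun t _ => ContDiff.sum (fun t' _ => contDiff_const.mul
      (ContDiff.sum (fun x _ => contDiff_const.mul
        (((aa_cd t x.1).comp contDiff_fst).mul ((af_cd t' x.2).comp contDiff_snd))))))
  · intro z
    unfold dv
    have h1 : (fun z : ℝ × ℝ => (YY m J c τ z).1) = Y1 m J c τ := by
      funext w
      rfl
    have h2 : (fun z : ℝ × ℝ => (YY m J c τ z).2) = fun _ => (0 : ℝ) := by
      funext w
      rfl
    rw [h1, h2, y1_fd hC]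
    simp

end Pool.Agent.H957.HN.PDv
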