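import Pool.Agent.H957.HN.Stm

set_option autoImplicit false

open Set Filter Topology MeasureTheory Polynomial

namespace Pool.Agent.H957.HN.PEv2a

open Pool.Agent.H957.HN

theorem cont_VV (n : ℕ) : Continuous (VV n) := by
  unfold VV Cf
  exact continuous_const.sub (Cp n).continuous

/-- the inner integral as a function of the value of the first potential -/
noncomputable def GG (N : ℕ) (θ : ℝ) (Φ : ℝ → ℝ) (q : ℕ) (u : ℝ) : ℝ :=
  ∫ Y in (-(ee N))..(ee N), Φ (u + θ * VV N Y) * Y ^ (2 * q)

theorem cont_GG (N : ℕ) (θ : ℝ) {Φ : ℝ → ℝ} (hΦ : Continuous Φ) (q : ℕ) :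
    Continuous (GG N θ Φ q) := by
  unfold GG
  refine intervalIntegral.continuous_parametric_intervalIntegral_of_continuous' ?_ _ _
  have h1 : Continuous fun z : ℝ × ℝ => Φ (z.1 + θ * VV N z.2) * z.2 ^ (2 * q) :=
    (hΦ.comp (continuous_fst.add (continuous_const.mul ((cont_VV N).comp continuous_snd)))).mul
      (continuous_snd.pow _)
  exact h1

theorem main : S_EV2A := by
  intro hCH hLOC hEVA m t a t' a' hm hmt hat hmt' hat' p q θ Φ hΦ
  have h1 : ∀ x : ℝ, ∫ y in (al m t' a')..(be m t' a'),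
      Φ (VV m x + θ * VV m y) * (af t p x * af t' q y) =
      (-1) ^ a' * (GG (m / 2 ^ t') θ Φ q (VV m x) * af t p x) := by
    intro x
    have h2 := hEVA hCH hLOC m t' a' hm hmt' hat' q (fun u => Φ (VV m x + θ * u))
      (hΦ.comp (continuous_const.add (continuous_const.mul continuous_id)))
    have h3 : ∀ y : ℝ, Φ (VV m x + θ * VV m y) * (af t p x * af t' q y) =
        af t p x * ((fun u => Φ (VV m x + θ * u)) (VV m y) * af t' q y) := by
      intro y
      ring
    rw [intervalIntegral.integral_congr (fun y _ => h3 y),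
      intervalIntegral.integral_const_mul, h2]
    unfold GG
    ring
  have h4 := hEVA hCH hLOC m t a hm hmt hat p (GG (m / 2 ^ t') θ Φ q) (cont_GG _ θ hΦ q)
  rw [intervalIntegral.integral_congr (fun x _ => h1 x), intervalIntegral.integral_const_mul,
    h4, pow_add]
  unfold JJ
  have h5 : ∀ X : ℝ, ∫ Y in (-(ee (m / 2 ^ t')))..(ee (m / 2 ^ t')),
      Φ (VV (m / 2 ^ t) X + θ * VV (m / 2 ^ t') Y) * (X ^ (2 * p) * Y ^ (2 * q)) =
      GG (m / 2 ^ t') θ Φ q (VV (m / 2 ^ t) X) * X ^ (2 * p) := by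
    intro X
    unfold GG
    rw [← intervalIntegral.integral_mul_const]
    refine intervalIntegral.integral_congr fun Y _ => ?_
    ring
  rw [intervalIntegral.integral_congr (fun X _ => h5 X)]
  ring

end Pool.Agent.H957.HN.PEv2a
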