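import Pool.Agent.H957.HN.Stm

/-! Project HN, part EV2B (helper728). -/

set_option autoImplicit false

namespace Pool.Agent.H957.HN.PEv2b

open MeasureTheory

theorem main : S_EV2B := by
  intro hC hL hE m t a t' a' u u' hm ht ha ht' ha' huu p q θ Φ hΦ
  obtain ⟨-, -, -, -, -, -, -, hcont⟩ := id hC
  have hV : ∀ M, Continuous (VV M) := fun M => continuous_const.sub (hcont M).1
  have haf : ∀ t p, Continuous (af t p) := fun t p =>
    ((hcont (2 ^ t)).1.pow (2 * p)).mul (hcont (2 ^ t)).2
  have key : ∀ x : ℝ, (∫ y in (al m t' a')..(be m t' a'),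
      Φ (VV m x + θ * VV m y) * (af u p x * af u' q y)) =
      (∫ y in (al m t' a')..(be m t' a'), Φ (VV m x + θ * VV m y) * af u' q y) * af u p x := by
    intro x
    rw [← intervalIntegral.integral_mul_const]
    congr 1
    funext y
    ring
  simp_rw [key]
  rcases huu with h | h
  · have hΨ : Continuous fun v : ℝ =>
        ∫ y in (al m t' a')..(be m t' a'), Φ (v + θ * VV m y) * af u' q y := by
      apply intervalIntegral.continuous_parametric_intervalIntegral_of_continuous'
      have h1 : Continuous fun z : ℝ × ℝ => z.1 + θ * VV m z.2 :=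
        continuous_fst.add (continuous_const.mul ((hV m).comp continuous_snd))
      exact (hΦ.comp h1).mul ((haf u' q).comp continuous_snd)
    exact hE hC hL m t a u hm ht ha h p _ hΨ
  · have h0 : ∀ x : ℝ, (∫ y in (al m t' a')..(be m t' a'),
        Φ (VV m x + θ * VV m y) * af u' q y) = 0 := fun x =>
      hE hC hL m t' a' u' hm ht' ha' h q (fun v => Φ (VV m x + θ * v))
        (hΦ.comp (continuous_const.add (continuous_const.mul continuous_id)))
    simp_rw [h0, zero_mul]
    exact intervalIntegral.integral_zero

end Pool.Agent.H957.HN.PEv2b
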