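import Pool.Agent.H957.HN.Stm

/-! Project HN: proof of `S_EVA` (substitution `X = Cf (2 ^ t) x`). -/

set_option autoImplicit false

open Set Filter Topology MeasureTheory Polynomial

namespace Pool.Agent.H957.HN.PEva

theorem main : S_EVA := by
  intro hC hL m t a hm hdvd ha p Ψ hΨ
  obtain ⟨-, -, h3, -, h5, -, -, h8⟩ := hC
  obtain ⟨-, -, e1, e2, -, -, -⟩ := hL m t a hm hdvd ha
  have hmt : m / 2 ^ t * 2 ^ t = m :=
    Nat.div_mul_cancel ((pow_dvd_pow 2 (by omega)).trans hdvd)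
  generalize m / 2 ^ t = M at hmt e1 e2 ⊢
  have hV : ∀ x, VV m x = VV M (Cf (2 ^ t) x) := by
    intro x
    unfold VV
    rw [← h3, hmt]
  set g : ℝ → ℝ := fun X => Ψ (VV M X) * X ^ (2 * p) with hg
  have hVc : Continuous (VV M) := by
    unfold VV
    exact continuous_const.sub (h8 M).1
  have hgc : Continuous g := (hΨ.comp hVc).mul (continuous_pow _)
  have h1 : ∫ x in (al m t a)..(be m t a), Ψ (VV m x) * af t p x =
      ∫ x in (al m t a)..(be m t a), (g ∘ Cf (2 ^ t)) x * dC (2 ^ t) x := by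
    refine intervalIntegral.integral_congr fun x _ => ?_
    show Ψ (VV m x) * af t p x = (Ψ (VV M (Cf (2 ^ t) x)) * Cf (2 ^ t) x ^ (2 * p)) * dC (2 ^ t) x
    unfold af
    rw [hV]
    ring
  rw [h1, intervalIntegral.integral_comp_mul_deriv (fun x _ => h5 (2 ^ t) x)
    (h8 (2 ^ t)).2.continuousOn hgc, e1, e2]
  rcases neg_one_pow_eq_or ℝ a with h | h
  · rw [h, one_mul, one_mul]
  · rw [h, neg_one_mul, neg_one_mul, neg_neg]
    exact intervalIntegral.integral_symm _ _

end Pool.Agent.H957.HN.PEva
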