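import Pool.Agent.H957.HN.Stm

/-! The perturbations of a higher level do not act (`S_EVB`): integral of an odd function over a
symmetric interval. -/

set_option autoImplicit false

open Set Filter Topology MeasureTheory Polynomial

namespace Pool.Agent.H957.HN.PEvb

lemma odd_integral {G : ℝ → ℝ} (hG : ∀ x, G (-x) = -G x) (c : ℝ) : ∫ x in (-c)..c, G x = 0 := by
  have h1 : ∫ x in (-c)..c, G (-x) = ∫ x in (-c)..(- -c), G x :=
    intervalIntegral.integral_comp_neg G
  simp_rw [hG] at h1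
  rw [intervalIntegral.integral_neg, neg_neg] at h1
  linarith

theorem main : S_EVB := by
  rintro ⟨-, -, hmul, hdmul, hder, heven, -, hcont⟩ hloc m t a t' hm hdvd ha htt p Ψ hΨ
  obtain ⟨-, -, hal, hbe, -, -, -⟩ := hloc m t a hm hdvd ha
  obtain ⟨M, hM⟩ : ∃ M, m = M * 2 ^ t := by
    obtain ⟨r, hr⟩ := hdvd
    exact ⟨4 * r, by rw [hr, pow_add]; ring⟩
  have hMe : Even M := by
    obtain ⟨r, hr⟩ := hdvd
    have h1 : M * 2 ^ t = (4 * r) * 2 ^ t := by
      rw [← hM, hr, pow_add]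
      ring
    have h2 : M = 4 * r := Nat.eq_of_mul_eq_mul_right (by positivity) h1
    exact ⟨2 * r, by omega⟩
  obtain ⟨k, hk⟩ : ∃ k, k = 2 ^ (t' - t) := ⟨_, rfl⟩
  have hke : Even k := by
    rw [hk, Nat.even_pow]
    exact ⟨even_two, by omega⟩
  have hkl : 2 ^ t' = k * 2 ^ t := by
    rw [hk, ← pow_add]
    congr 1
    omega
  obtain ⟨G, hG⟩ : ∃ G : ℝ → ℝ, ∀ X, G X = Ψ (VV M X) * (Cf k X ^ (2 * p) * dC k X) :=
    ⟨_, fun _ => rfl⟩
  have hGc : Continuous G := by
    have e : G = fun X => Ψ (VV M X) * (Cf k X ^ (2 * p) * dC k X) := funext hG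
    rw [e]
    have h1 : Continuous (VV M) := continuous_const.sub (hcont M).1
    exact (hΨ.comp h1).mul (((hcont k).1.pow _).mul (hcont k).2)
  have hGo : ∀ X, G (-X) = -G X := by
    intro X
    rw [hG, hG]
    unfold VV
    rw [(heven M X hMe).1, (heven k X hke).1, (heven k X hke).2]
    ring
  have e : ∀ x, Ψ (VV m x) * af t' p x = (G ∘ Cf (2 ^ t)) x * dC (2 ^ t) x := by
    intro x
    rw [Function.comp_apply, hG]
    unfold VV af
    rw [hM, hkl, hmul, hmul, hdmul]
    ring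
  simp_rw [e]
  rw [intervalIntegral.integral_comp_mul_deriv (fun x _ => hder (2 ^ t) x)
    (hcont (2 ^ t)).2.continuousOn hGc, hal, hbe]
  exact odd_integral hGo _

end Pool.Agent.H957.HN.PEvb
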