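import Pool.Agent.H957.HN.Stm

set_option autoImplicit false

open Set Filter Topology

namespace Pool.Agent.H957.HN.PGeoP

theorem ev_le {c : ℝ} (hc : 0 < c) : ∀ᶠ r in 𝓝[>] (0 : ℝ), r ≤ c := by
  filter_upwards [Ioc_mem_nhdsGT hc] with r hr
  exact hr.2

theorem ev_lt {c : ℝ} (hc : 0 < c) : ∀ᶠ r in 𝓝[>] (0 : ℝ), 2 * r < c := by
  have h : 0 < c / 2 := by linarith
  filter_upwards [Ioo_mem_nhdsGT h] with r hr
  have := hr.2
  linarith

theorem main : S_GEO := by
  intro hloc hinj s J hs hJ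
  classical
  have hm : 0 < s * 2 ^ J := Nat.mul_pos hs (by positivity)
  set F : Finset (ℕ × ℕ) := (Finset.range (J - 1)) ×ˢ (Finset.range (2 ^ J)) with hF
  have hmem : ∀ t a : ℕ, t < J - 1 → a < 2 ^ t → (t, a) ∈ F := by
    intro t a ht ha
    rw [hF, Finset.mem_product, Finset.mem_range, Finset.mem_range]
    refine ⟨ht, lt_of_lt_of_le ha (Nat.pow_le_pow_right (by norm_num) ?_)⟩
    show t ≤ J
    omega
  have h1 : ∀ᶠ r in 𝓝[>] (0 : ℝ), ∀ x ∈ F, x.1 < J - 1 → x.2 < 2 ^ x.1 →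
      al (s * 2 ^ J) x.1 x.2 ≤ zr x.1 x.2 - r ∧ zr x.1 x.2 + r ≤ be (s * 2 ^ J) x.1 x.2 := by
    rw [Filter.eventually_all_finset]
    rintro ⟨t, a⟩ _
    by_cases ht : t < J - 1
    · by_cases ha : a < 2 ^ t
      · have hd : 2 ^ (t + 2) ∣ s * 2 ^ J :=
          Dvd.dvd.mul_left (Nat.pow_dvd_pow 2 (by omega)) s
        obtain ⟨h1, h2, _⟩ := hloc (s * 2 ^ J) t a hm hd ha
        filter_upwards [ev_le (sub_pos.mpr h1), ev_le (sub_pos.mpr h2)] with r hr1 hr2 _ _
        refine ⟨?_, ?_⟩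
        · show al (s * 2 ^ J) t a ≤ zr t a - r
          linarith
        · show zr t a + r ≤ be (s * 2 ^ J) t a
          linarith
      · exact Filter.Eventually.of_forall fun r _ h => absurd h ha
    · exact Filter.Eventually.of_forall fun r h => absurd h ht
  have h2 : ∀ᶠ r in 𝓝[>] (0 : ℝ), ∀ x ∈ F, ∀ y ∈ F, x.2 < 2 ^ x.1 → y.2 < 2 ^ y.1 →
      x ≠ y → 2 * r < |zr x.1 x.2 - zr y.1 y.2| := by
    rw [Filter.eventually_all_finset]
    intro x _
    rw [Filter.eventually_all_finset]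
    intro y _
    by_cases hx : x.2 < 2 ^ x.1
    · by_cases hy : y.2 < 2 ^ y.1
      · by_cases hxy : x = y
        · exact Filter.Eventually.of_forall fun r _ _ h => absurd hxy h
        · have hne : zr x.1 x.2 - zr y.1 y.2 ≠ 0 := by
            intro h
            obtain ⟨h3, h4⟩ := hinj _ _ _ _ hx hy (sub_eq_zero.mp h)
            exact hxy (Prod.ext h3 h4)
          filter_upwards [ev_lt (abs_pos.mpr hne)] with r hr _ _ _
          exact hr
      · exact Filter.Eventually.of_forall fun r _ h => absurd h hy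
    · exact Filter.Eventually.of_forall fun r h => absurd h hx
  have h3 : ∀ᶠ r in 𝓝[>] (0 : ℝ), 0 < r := eventually_mem_nhdsWithin
  obtain ⟨r, hr1, hr2, hr3⟩ := (h1.and (h2.and h3)).exists
  refine ⟨r, hr3, ?_, ?_⟩
  · intro t a ht ha
    exact hr1 (t, a) (hmem t a ht ha) ht ha
  · intro t a t' a' ht ha ht' ha' hne
    exact hr2 (t, a) (hmem t a ht ha) (t', a') (hmem t' a' ht' ha') ha ha' hne

end Pool.Agent.H957.HN.PGeoP
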