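import Pool.Agent.H957.HN.Stm

/-! Project HN, part C7: independence of the functions `NN M p q`. -/

set_option autoImplicit false

open Set Filter Topology MeasureTheory Polynomial

namespace Pool.Agent.H957.HN.PIndn

theorem main : S_INDN := by
  intro hCheb hInv hCrit hAlg hAbel hDer hIter M Q h lam hM h4 h0 h2 hrel
  obtain ⟨β, hβ, hab⟩ := hAbel hCheb
  obtain ⟨x, hx⟩ := hInv hCheb M hM h4
  have hM4 : 4 ≤ M := Nat.le_of_dvd hM h4
  obtain ⟨S, hS, hSb⟩ := hCrit hCheb M (by omega)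
  have hit := hIter hCheb hDer
  set I : Finset (ℕ × ℕ) := Finset.range (M / 2) ×ˢ Finset.range (Q + 1) with hI
  -- the Abel transform of the relation
  have hF : ∀ t ∈ Ioo 0 h, ∑ z ∈ I, lam z.1 z.2 * β z.2 * BB M z.1 (z.2 + 1) t = 0 := by
    intro t ht
    have e1 : ∫ c in (0:ℝ)..t, ∑ z ∈ I, lam z.1 z.2 * (NN M z.1 z.2 c / √(t - c)) = 0 := by
      refine intervalIntegral.integral_zero_ae (Filter.Eventually.of_forall fun c hc => ?_)
      rw [uIoc_of_le ht.1.le] at hc
      have e2 : ∑ z ∈ I, lam z.1 z.2 * (NN M z.1 z.2 c / √(t - c)) =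
          (∑ z ∈ I, lam z.1 z.2 * NN M z.1 z.2 c) / √(t - c) := by
        rw [Finset.sum_div]
        exact Finset.sum_congr rfl fun z _ => (mul_div_assoc _ _ _).symm
      rw [e2]
      rcases eq_or_lt_of_le hc.2 with hct | hct
      · rw [hct, sub_self, Real.sqrt_zero, div_zero]
      · have e3 := hrel c ⟨hc.1, hct.trans ht.2⟩
        rw [← Finset.sum_product'] at e3
        rw [hI, e3, zero_div]
    rw [intervalIntegral.integral_finsetSum fun z _ =>
      ((hab M z.1 z.2 t hM ht.1).1.const_mul _)] at e1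
    rw [← e1]
    refine Finset.sum_congr rfl fun z _ => ?_
    rw [intervalIntegral.integral_const_mul, (hab M z.1 z.2 t hM ht.1).2, mul_assoc]
  -- its iterated derivative
  have hG : ∀ t ∈ Ioo 0 h, ∑ z ∈ I, lam z.1 z.2 * β z.2 *
      (((z.2 + 1).factorial : ℝ) * (2 / (2 * z.1 + 1)) *
        iteratedDeriv (Q - z.2) (fun s => x s ^ (2 * z.1 + 1)) t) = 0 := by
    intro t ht
    have ht2 : t ∈ Ioo (0:ℝ) 2 := ⟨ht.1, ht.2.trans_le h2⟩
    have e1 : (fun t => ∑ z ∈ I, lam z.1 z.2 * β z.2 * BB M z.1 (z.2 + 1) t) =ᶠ[𝓝 t]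
        fun _ => (0:ℝ) := by
      filter_upwards [Ioo_mem_nhds ht.1 ht.2] with s hs
      exact hF s hs
    have e2 := e1.iteratedDeriv_eq (Q + 1)
    have hcd : ∀ z ∈ I, ContDiffAt ℝ ((Q + 1 : ℕ) : WithTop ℕ∞) (BB M z.1 (z.2 + 1)) t := by
      intro z _
      exact ((hit M z.1 z.2 x hM h4 hx).1.contDiffAt (Ioo_mem_nhds ht2.1 ht2.2)).of_le
        (by exact_mod_cast le_top)
    rw [iteratedDeriv_fun_const_zero, iteratedDeriv_fun_sum fun z hz =>
      contDiffAt_const.mul (hcd z hz)] at e2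
    rw [← e2]
    refine Finset.sum_congr rfl fun z hz => ?_
    rw [iteratedDeriv_const_mul_field]
    have hz2 : z.2 ≤ Q := by
      rw [hI, Finset.mem_product, Finset.mem_range, Finset.mem_range] at hz
      omega
    have e3 := (hit M z.1 z.2 x hM h4 hx).2 (Q - z.2) t ht2
    rw [show z.2 + 1 + (Q - z.2) = Q + 1 by omega] at e3
    rw [e3]
  -- the algebraic argument
  have hA := hAlg (C 2 - Cp M) (M / 2) Q S x 0 h
    (fun p n => lam p (Q - n) * β (Q - n) *
      (((Q - n + 1).factorial : ℝ) * (2 / (2 * p + 1)))) ?_ (by omega) h0 ?_ ?_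
  · intro p hp q hq
    have e1 := hA p hp (Q - q) (Nat.sub_le _ _)
    simp only [Nat.sub_sub_self hq] at e1
    have e2 : (0:ℝ) < β q * (((q + 1).factorial : ℝ) * (2 / (2 * p + 1))) := by
      have := hβ q
      positivity
    rw [mul_assoc] at e1
    exact (mul_eq_zero.1 e1).resolve_right e2.ne'
  · intro b hb
    obtain ⟨h5, h6⟩ := hSb b hb
    constructor
    · simp [h5]
    · simpa using h6
  · intro t ht
    have ht2 : t ∈ Ioo (0:ℝ) 2 := ⟨ht.1, ht.2.trans_le h2⟩
    have e1 : (C 2 - Cp M : ℝ[X]).derivative.eval (x t) = -dC M (x t) := by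
      simp [dC]
    rw [e1]
    exact ⟨(neg_pos.2 (hx.neg t ht2)).ne', hx.der t ht2⟩
  · intro t ht
    have e1 := hG t ht
    rw [hI, Finset.sum_product] at e1
    rw [← e1]
    refine Finset.sum_congr rfl fun p _ => ?_
    rw [← Finset.sum_range_reflect]
    refine Finset.sum_congr rfl fun q hq => ?_
    rw [Finset.mem_range] at hq
    have e2 : Q + 1 - 1 - q = Q - q := by omega
    have e3 : Q - (Q - q) = q := by omega
    simp only [e2, e3]
    ring

end Pool.Agent.H957.HN.PIndn
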