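import Pool.Agent.H957.HN.Stm

/-!
# Project HN: the critical points are different (S_INJ), proved by helper161
-/

set_option autoImplicit false

namespace Pool.Agent.H957.HN.PInj

theorem ph0_mem {t a : ℕ} (h : a < 2 ^ t) : ph0 t a ∈ Set.Icc 0 Real.pi := by
  have h1 : (2 * (a : ℝ) + 1) ≤ 2 ^ (t + 1) := by
    have h2 : 2 * a + 1 ≤ 2 ^ (t + 1) := by
      rw [pow_succ]
      omega
    exact_mod_cast h2
  have hp : (0 : ℝ) < 2 ^ (t + 1) := by positivity
  unfold ph0
  constructor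
  · have := Real.pi_pos
    positivity
  · rw [div_le_iff₀ hp]
    exact mul_le_mul_of_nonneg_left h1 Real.pi_pos.le

theorem nat_key {t a t' a' : ℕ} (h : (2 * a + 1) * 2 ^ (t' + 1) = (2 * a' + 1) * 2 ^ (t + 1))
    (hlt : t < t') : False := by
  obtain ⟨s, rfl⟩ := Nat.exists_eq_add_of_lt hlt
  have e1 : (2 * a + 1) * 2 ^ (t + s + 1 + 1) = ((2 * a + 1) * 2 ^ (s + 1)) * 2 ^ (t + 1) := by
    rw [mul_assoc, ← pow_add]
    congr 2
    ring
  rw [e1] at h
  have h2 := Nat.eq_of_mul_eq_mul_right (by positivity : 0 < 2 ^ (t + 1)) h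
  rw [pow_succ, ← mul_assoc] at h2
  omega

theorem main : S_INJ := by
  intro t a t' a' ha ha' h
  have h1 : Real.cos (ph0 t a) = Real.cos (ph0 t' a') := by
    unfold zr at h
    linarith
  have h2 : ph0 t a = ph0 t' a' := Real.injOn_cos (ph0_mem ha) (ph0_mem ha') h1
  have h3 : (2 * (a : ℝ) + 1) * 2 ^ (t' + 1) = (2 * (a' : ℝ) + 1) * 2 ^ (t + 1) := by
    unfold ph0 at h2
    have hp : (0 : ℝ) < 2 ^ (t + 1) := by positivity
    have hp' : (0 : ℝ) < 2 ^ (t' + 1) := by positivity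
    rw [div_eq_div_iff hp.ne' hp'.ne', mul_assoc, mul_assoc] at h2
    exact mul_left_cancel₀ Real.pi_ne_zero h2
  have h4 : (2 * a + 1) * 2 ^ (t' + 1) = (2 * a' + 1) * 2 ^ (t + 1) := by exact_mod_cast h3
  have h5 : t = t' := by
    rcases lt_trichotomy t t' with hlt | he | hgt
    · exact (nat_key h4 hlt).elim
    · exact he
    · exact (nat_key h4.symm hgt).elim
  subst h5
  refine ⟨rfl, ?_⟩
  have h6 := Nat.eq_of_mul_eq_mul_right (by positivity : 0 < 2 ^ (t + 1)) h4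
  omega

end Pool.Agent.H957.HN.PInj
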