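import Pool.Agent.H957.HN.Stm

/-! Project HN, task INV: the inverse function of `VV M`. -/

set_option autoImplicit false

open Set Filter Topology MeasureTheory Polynomial

namespace Pool.Agent.H957.HN.PInvP

theorem vv_sin (hC : S_CHEB) {M : ℕ} (h4 : 4 ∣ M) (w : ℝ) :
    VV M (2 * Real.sin w) = 4 * Real.sin (M * w / 2) ^ 2 := by
  obtain ⟨k, rfl⟩ := h4
  have h1 : 2 * Real.sin w = 2 * Real.cos (Real.pi / 2 - w) := by rw [Real.cos_pi_div_two_sub]
  unfold VV
  rw [h1, hC.1]
  have h2 : ((4 * k : ℕ) : ℝ) * (Real.pi / 2 - w) =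
      (k : ℝ) * (2 * Real.pi) - ((4 * k : ℕ) : ℝ) * w := by
    push_cast
    ring
  rw [h2, Real.cos_nat_mul_two_pi_sub]
  have h3 : ((4 * k : ℕ) : ℝ) * w = 2 * (((4 * k : ℕ) : ℝ) * w / 2) := by ring
  rw [h3, Real.cos_two_mul]
  have h4 := Real.sin_sq_add_cos_sq (((4 * k : ℕ) : ℝ) * w / 2)
  have h5 : 2 * (((4 * k : ℕ) : ℝ) * w / 2) / 2 = ((4 * k : ℕ) : ℝ) * w / 2 := by ring
  rw [h5]
  linear_combination (-4 : ℝ) * h4

theorem dc_sin (hC : S_CHEB) {M : ℕ} (h4 : 4 ∣ M) (w : ℝ) :
    dC M (2 * Real.sin w) * Real.cos w = -(M * Real.sin (M * w)) := by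
  obtain ⟨k, rfl⟩ := h4
  have h1 : 2 * Real.sin w = 2 * Real.cos (Real.pi / 2 - w) := by rw [Real.cos_pi_div_two_sub]
  have h0 := hC.2.1 (4 * k) (Real.pi / 2 - w)
  rw [h1, ← Real.sin_pi_div_two_sub w, h0]
  have h2 : ((4 * k : ℕ) : ℝ) * (Real.pi / 2 - w) =
      (k : ℝ) * (2 * Real.pi) - ((4 * k : ℕ) : ℝ) * w := by
    push_cast
    ring
  rw [h2, Real.sin_nat_mul_two_pi_sub]
  ring

/-- the angle -/
noncomputable def om (M : ℕ) (t : ℝ) : ℝ := 2 / M * Real.arcsin (√t / 2)

theorem arg_mem {t : ℝ} (ht : t ∈ Ioo (0 : ℝ) 2) :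
    0 < Real.arcsin (√t / 2) ∧ Real.arcsin (√t / 2) < Real.pi / 4 := by
  have h1 : 0 < √t := Real.sqrt_pos.mpr ht.1
  have h2 : √t < √2 := Real.sqrt_lt_sqrt ht.1.le ht.2
  refine ⟨Real.arcsin_pos.mpr (by linarith), ?_⟩
  have hpi := Real.pi_pos
  rw [Real.arcsin_lt_iff_lt_sin' ⟨by linarith, by linarith⟩, Real.sin_pi_div_four]
  linarith

theorem om_mem {M : ℕ} (hM : 0 < M) {t : ℝ} (ht : t ∈ Ioo (0 : ℝ) 2) :
    0 < om M t ∧ om M t < Real.pi / (2 * M) := by
  have hM' : (0 : ℝ) < M := by exact_mod_cast hM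
  obtain ⟨h1, h2⟩ := arg_mem ht
  unfold om
  refine ⟨by positivity, ?_⟩
  have h3 : Real.pi / (2 * (M : ℝ)) = 2 / M * (Real.pi / 4) := by
    field_simp
    ring
  rw [h3]
  exact mul_lt_mul_of_pos_left h2 (by positivity)

theorem om_mul {M : ℕ} (hM : 0 < M) (t : ℝ) : (M : ℝ) * om M t / 2 = Real.arcsin (√t / 2) := by
  have hM' : (M : ℝ) ≠ 0 := by exact_mod_cast hM.ne'
  unfold om
  field_simp

theorem bound {M : ℕ} (hM : 0 < M) (h4 : 4 ∣ M) : Real.pi / (2 * M) < Real.pi / 2 ∧
    0 < Real.pi / (2 * M) := by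
  have h5 : 4 ≤ M := Nat.le_of_dvd hM h4
  have hM' : (4 : ℝ) ≤ M := by exact_mod_cast h5
  have hpi := Real.pi_pos
  refine ⟨?_, by positivity⟩
  apply div_lt_div_of_pos_left hpi (by norm_num)
  linarith

theorem main : S_INV := by
  intro hC M hM h4
  have hM' : (0 : ℝ) < M := by exact_mod_cast hM
  have hpi := Real.pi_pos
  obtain ⟨hb1, hb2⟩ := bound hM h4
  have hval : ∀ t ∈ Ioo (0 : ℝ) 2, VV M (2 * Real.sin (om M t)) = t := by
    intro t ht
    have h1 : 0 < √t := Real.sqrt_pos.mpr ht.1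
    have h2 : √t < √2 := Real.sqrt_lt_sqrt ht.1.le ht.2
    have h3 : √2 < 2 := by
      rw [Real.sqrt_lt' (by norm_num)]
      norm_num
    rw [vv_sin hC h4, om_mul hM, Real.sin_arcsin (by linarith) (by linarith), div_pow,
      Real.sq_sqrt ht.1.le]
    ring
  have hneg : ∀ t ∈ Ioo (0 : ℝ) 2, dC M (2 * Real.sin (om M t)) < 0 := by
    intro t ht
    obtain ⟨h1, h2⟩ := om_mem hM ht
    have h3 := dc_sin hC h4 (om M t)
    have h5 : 0 < Real.cos (om M t) :=
      Real.cos_pos_of_mem_Ioo ⟨by linarith, by linarith⟩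
    have h6 : 0 < Real.sin (M * om M t) := by
      apply Real.sin_pos_of_pos_of_lt_pi (by positivity)
      have h7 := om_mul hM t
      obtain ⟨-, h8⟩ := arg_mem ht
      linarith
    have h9 : dC M (2 * Real.sin (om M t)) * Real.cos (om M t) < 0 := by
      rw [h3]
      have := mul_pos hM' h6
      linarith
    by_contra hcon
    rw [not_lt] at hcon
    have := mul_nonneg hcon h5.le
    linarith
  refine ⟨fun t => 2 * Real.sin (om M t), ?_, hval, hneg, ?_, ?_⟩
  · intro t ht
    obtain ⟨h1, h2⟩ := om_mem hM ht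
    refine ⟨mul_pos two_pos (Real.sin_pos_of_pos_of_lt_pi h1 (by linarith)), ?_⟩
    unfold ee
    exact mul_lt_mul_of_pos_left
      (Real.sin_lt_sin_of_lt_of_le_pi_div_two (by linarith) hb1.le h2) two_pos
  · intro t ht
    have hcont : ContinuousAt (fun t => 2 * Real.sin (om M t)) t := by
      have : Continuous (fun t => 2 * Real.sin (om M t)) := by
        unfold om
        fun_prop
      exact this.continuousAt
    have hder : HasDerivAt (VV M) (-dC M (2 * Real.sin (om M t))) (2 * Real.sin (om M t)) := by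
      have h1 := hC.2.2.2.2.1 M (2 * Real.sin (om M t))
      have h2 := h1.const_sub 2
      exact h2
    have hne : -dC M (2 * Real.sin (om M t)) ≠ 0 := by
      have := hneg t ht
      linarith [this] |> fun h : (0 : ℝ) < -dC M (2 * Real.sin (om M t)) => h.ne'
    have h3 := HasDerivAt.of_local_left_inverse hcont hder hne (by
      filter_upwards [isOpen_Ioo.mem_nhds ht] with y hy
      exact hval y hy)
    rw [one_div]
    exact h3
  · intro t ht X hX
    obtain ⟨h1, h2⟩ := om_mem hM ht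
    have hX' : |X| ≤ ee M := abs_le.mpr hX
    have hX0 : 0 ≤ |X| := abs_nonneg X
    have hVabs : VV M X = VV M |X| := by
      rcases abs_choice X with h | h
      · rw [h]
      · rw [h]
        unfold VV
        have hev : Even M := by
          obtain ⟨k, rfl⟩ := h4
          exact ⟨2 * k, by ring⟩
        rw [(hC.2.2.2.2.2.1 M X hev).1]
    unfold ee at hX'
    have hs1 : Real.sin (Real.pi / (2 * M)) ≤ 1 := Real.sin_le_one _
    set w := Real.arcsin (|X| / 2) with hw
    have hsw : Real.sin w = |X| / 2 := Real.sin_arcsin (by linarith) (by linarith)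
    have hw0 : 0 ≤ w := Real.arcsin_nonneg.mpr (by linarith)
    have hw1 : w ≤ Real.pi / (2 * M) := by
      rw [hw, Real.arcsin_le_iff_le_sin' ⟨by linarith, by linarith⟩]
      linarith
    have hXw : |X| = 2 * Real.sin w := by rw [hsw]; ring
    have e1 : VV M X = 4 * Real.sin (M * w / 2) ^ 2 := by rw [hVabs, hXw, vv_sin hC h4]
    have e2 : t = 4 * Real.sin (M * om M t / 2) ^ 2 := by
      rw [← vv_sin hC h4]
      exact (hval t ht).symm
    have q1 : 0 ≤ M * w / 2 := by positivity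
    have q2 : M * w / 2 ≤ Real.pi / 2 := by
      have : M * w ≤ M * (Real.pi / (2 * M)) := mul_le_mul_of_nonneg_left hw1 hM'.le
      have h5 : (M : ℝ) * (Real.pi / (2 * M)) = Real.pi / 2 := by field_simp
      linarith
    have q3 : 0 < M * om M t / 2 := by positivity
    have q4 : M * om M t / 2 ≤ Real.pi / 2 := by
      have : M * om M t ≤ M * (Real.pi / (2 * M)) := mul_le_mul_of_nonneg_left h2.le hM'.le
      have h5 : (M : ℝ) * (Real.pi / (2 * M)) = Real.pi / 2 := by field_simp
      linarith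
    have r1 : 0 ≤ Real.sin (M * w / 2) := Real.sin_nonneg_of_nonneg_of_le_pi q1 (by linarith)
    have r2 : 0 ≤ Real.sin (M * om M t / 2) :=
      Real.sin_nonneg_of_nonneg_of_le_pi q3.le (by linarith)
    have a1 : VV M X < t ↔ Real.sin (M * w / 2) < Real.sin (M * om M t / 2) := by
      rw [e1]
      nth_rewrite 1 [e2]
      constructor
      · intro h
        exact lt_of_pow_lt_pow_left₀ 2 r2 (by linarith)
      · intro h
        have := pow_lt_pow_left₀ h r1 two_ne_zero
        linarith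
    have a2 : Real.sin (M * w / 2) < Real.sin (M * om M t / 2) ↔ M * w / 2 < M * om M t / 2 :=
      Real.strictMonoOn_sin.lt_iff_lt ⟨by linarith, q2⟩ ⟨by linarith, q4⟩
    have a3 : M * w / 2 < M * om M t / 2 ↔ w < om M t := by
      constructor
      · intro h
        have h5 : (M : ℝ) * w < M * om M t := by linarith
        exact lt_of_mul_lt_mul_left h5 hM'.le
      · intro h
        have := mul_lt_mul_of_pos_left h hM'
        linarith
    have a4 : w < om M t ↔ Real.sin w < Real.sin (om M t) :=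
      (Real.strictMonoOn_sin.lt_iff_lt ⟨by linarith, by linarith⟩
        ⟨by linarith, by linarith⟩).symm
    rw [a1, a2, a3, a4, hsw]
    constructor
    · intro h
      linarith
    · intro h
      linarith

end Pool.Agent.H957.HN.PInvP
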