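import Pool.Agent.H957.HN.Stm

/-! Task ITER of the project HN (helper339, for helper957): iterated derivatives of `BB`. -/

set_option autoImplicit false

open Set Filter Topology MeasureTheory Polynomial

namespace Pool.Agent.H957.HN.PIter

theorem dC_contDiff (M : ℕ) (n : ℕ) : ContDiff ℝ n (dC M) := by
  have h : dC M = fun x => (Polynomial.aeval x) (Cp M).derivative := by
    funext x
    rw [Polynomial.coe_aeval_eq_eval]
    rfl
  rw [h]
  exact Polynomial.contDiff_aeval _ _

theorem x_contDiffOn {M : ℕ} {x : ℝ → ℝ} (hx : Inv M x) (n : ℕ) :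
    ContDiffOn ℝ n x (Ioo 0 2) := by
  induction n with
  | zero =>
    have h : ContinuousOn x (Ioo 0 2) := fun t ht => (hx.der t ht).continuousAt.continuousWithinAt
    exact contDiffOn_zero.2 h
  | succ n ih =>
    have h0 : ((n + 1 : ℕ) : WithTop ℕ∞) = (n : WithTop ℕ∞) + 1 := by push_cast; rfl
    rw [h0, contDiffOn_succ_iff_deriv_of_isOpen isOpen_Ioo]
    refine ⟨fun t ht => (hx.der t ht).differentiableAt.differentiableWithinAt, fun h => ?_, ?_⟩
    · exact absurd h (WithTop.natCast_ne_top _)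
    · have h1 : ContDiffOn ℝ n (fun t => 1 / (-dC M (x t))) (Ioo 0 2) := by
        refine ContDiffOn.div contDiffOn_const ?_ fun t ht => ?_
        · exact ((dC_contDiff M n).comp_contDiffOn ih).neg
        · have := hx.neg t ht
          exact ne_of_gt (by linarith)
      exact h1.congr fun t ht => (hx.der t ht).deriv

theorem xp_contDiffOn {M : ℕ} {x : ℝ → ℝ} (hx : Inv M x) (p n : ℕ) :
    ContDiffOn ℝ n (fun t => 2 / (2 * (p : ℝ) + 1) * x t ^ (2 * p + 1)) (Ioo 0 2) :=
  contDiffOn_const.mul ((x_contDiffOn hx n).pow _)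

theorem main : S_ITER := by
  intro hch hder M p q x hM h4 hx
  obtain ⟨hd1, hd0⟩ := hder hch M p x hM h4 hx
  have hB : ∀ q : ℕ, ContDiffOn ℝ (⊤ : ℕ∞) (BB M p (q + 1)) (Ioo 0 2) := by
    intro q
    induction q with
    | zero =>
      rw [contDiffOn_infty_iff_deriv_of_isOpen isOpen_Ioo]
      refine ⟨fun t ht => (hd0 t ht).differentiableAt.differentiableWithinAt, ?_⟩
      have h1 : ContDiffOn ℝ (⊤ : ℕ∞)
          (fun t => 2 / (2 * (p : ℝ) + 1) * x t ^ (2 * p + 1)) (Ioo 0 2) :=
        contDiffOn_infty.2 fun n => xp_contDiffOn hx p n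
      exact h1.congr fun t ht => (hd0 t ht).deriv
    | succ q ih =>
      rw [contDiffOn_infty_iff_deriv_of_isOpen isOpen_Ioo]
      refine ⟨fun t _ => (hd1 (q + 1) t (by omega)).differentiableAt.differentiableWithinAt, ?_⟩
      have h1 : ContDiffOn ℝ (⊤ : ℕ∞)
          (fun t => (((q + 1 : ℕ) : ℝ) + 1) * BB M p (q + 1) t) (Ioo 0 2) :=
        contDiffOn_const.mul ih
      exact h1.congr fun t _ => (hd1 (q + 1) t (by omega)).deriv
  refine ⟨hB q, fun k => ?_⟩
  induction q with
  | zero =>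
    intro t ht
    rw [show 0 + 1 + k = k + 1 by ring, iteratedDeriv_succ']
    have h1 : deriv (BB M p (0 + 1)) =ᶠ[𝓝 t]
        fun t => 2 / (2 * (p : ℝ) + 1) * x t ^ (2 * p + 1) := by
      filter_upwards [isOpen_Ioo.mem_nhds ht] with s hs
      exact (hd0 s hs).deriv
    rw [Filter.EventuallyEq.iteratedDeriv_eq k h1, iteratedDeriv_const_mul_field]
    simp
  | succ q ih =>
    intro t ht
    rw [show q + 1 + 1 + k = (q + 1 + k) + 1 by ring, iteratedDeriv_succ']
    have h1 : deriv (BB M p (q + 1 + 1)) = fun t => (((q + 1 : ℕ) : ℝ) + 1) * BB M p (q + 1) t := by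
      funext s
      exact (hd1 (q + 1) s (by omega)).deriv
    rw [h1, iteratedDeriv_const_mul_field, ih t ht, Nat.factorial_succ (q + 1)]
    push_cast
    ring

end Pool.Agent.H957.HN.PIter
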