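import Pool.Agent.H957.HN.Stm

set_option autoImplicit false

open Set Filter Topology MeasureTheory

namespace Pool.Agent.H957.HN.PLayer

theorem main : S_LAYER := by
  intro lo hi γ s Φ ψ q hW hγ
  obtain ⟨hlt, hder, hψc, hψ0, hsupp, htop⟩ := hW
  -- a large radius
  obtain ⟨A, hA0, hA⟩ : ∃ A : ℝ, 0 < A ∧ hi < s + γ * A ^ 2 := by
    refine ⟨1 + |hi - s| / γ, by positivity, ?_⟩
    have h1 : 0 ≤ |hi - s| / γ := by positivity
    have h2 : γ * (|hi - s| / γ) = |hi - s| := by field_simp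
    have h3 : hi - s ≤ |hi - s| := le_abs_self _
    nlinarith [mul_nonneg hγ.le (mul_nonneg h1 h1)]
  have hΦc : Continuous Φ := continuous_iff_continuousAt.2 fun t => (hder t).continuousAt
  have hbig : ∀ Z : ℝ, A ≤ |Z| → hi ≤ s + γ * Z ^ 2 := by
    intro Z hZ
    have h1 : A ^ 2 ≤ Z ^ 2 := by
      rw [← sq_abs Z]
      exact pow_le_pow_left₀ hA0.le hZ 2
    nlinarith
  -- 1. the integral over an interval
  have e1 : ∫ Z : ℝ, Φ (s + γ * Z ^ 2) * Z ^ (2 * q) =
      ∫ Z in (-A)..A, Φ (s + γ * Z ^ 2) * Z ^ (2 * q) := by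
    symm
    apply intervalIntegral.integral_eq_integral_of_support_subset
    intro Z hZ
    by_contra hcon
    apply hZ
    have h1 : A ≤ |Z| := by
      by_contra h2
      push Not at h2
      rw [abs_lt] at h2
      exact hcon ⟨h2.1, h2.2.le⟩
    show Φ (s + γ * Z ^ 2) * Z ^ (2 * q) = 0
    rw [htop _ (hbig Z h1), zero_mul]
  -- 2. integration by parts
  have hq : (2 * (q : ℝ) + 1) ≠ 0 := by positivity
  have hG : ∀ Z : ℝ, HasDerivAt (fun Z : ℝ => Φ (s + γ * Z ^ 2) * (Z ^ (2 * q + 1) / (2 * q + 1)))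
      (Φ (s + γ * Z ^ 2) * Z ^ (2 * q) -
        ψ (s + γ * Z ^ 2) * (2 * γ * Z ^ (2 * q + 2) / (2 * q + 1))) Z := by
    intro Z
    have h1 : HasDerivAt (fun Z : ℝ => s + γ * Z ^ 2) (γ * (2 * Z)) Z := by
      have := ((hasDerivAt_pow 2 Z).const_mul γ).const_add s
      simpa using this
    have h2 := (hder (s + γ * Z ^ 2)).comp Z h1
    have h3 : HasDerivAt (fun Z : ℝ => Z ^ (2 * q + 1) / (2 * (q : ℝ) + 1)) (Z ^ (2 * q)) Z := by
      have h4 := (hasDerivAt_pow (2 * q + 1) Z).div_const (2 * (q : ℝ) + 1)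
      have h5 : ((2 * q + 1 : ℕ) : ℝ) * Z ^ (2 * q + 1 - 1) / (2 * (q : ℝ) + 1) = Z ^ (2 * q) := by
        rw [Nat.add_sub_cancel]
        push_cast
        field_simp
      rw [h5] at h4
      exact h4
    have h6 := h2.mul h3
    refine h6.congr_deriv ?_
    simp only [Function.comp]
    field_simp
    ring
  have hc1 : Continuous fun Z : ℝ => Φ (s + γ * Z ^ 2) * Z ^ (2 * q) :=
    (hΦc.comp (by fun_prop)).mul (by fun_prop)
  have hc2 : Continuous fun Z : ℝ => ψ (s + γ * Z ^ 2) * (2 * γ * Z ^ (2 * q + 2) / (2 * q + 1)) :=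
    (hψc.comp (by fun_prop)).mul (by fun_prop)
  have e2 : ∫ Z in (-A)..A, Φ (s + γ * Z ^ 2) * Z ^ (2 * q) =
      ∫ Z in (-A)..A, ψ (s + γ * Z ^ 2) * (2 * γ * Z ^ (2 * q + 2) / (2 * q + 1)) := by
    have h1 := intervalIntegral.integral_eq_sub_of_hasDerivAt (a := -A) (b := A)
      (fun Z _ => hG Z) ((hc1.sub hc2).intervalIntegrable _ _)
    rw [intervalIntegral.integral_sub (hc1.intervalIntegrable _ _) (hc2.intervalIntegrable _ _)]
      at h1
    have h2 : Φ (s + γ * A ^ 2) = 0 := htop _ hA.le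
    have h3 : Φ (s + γ * (-A) ^ 2) = 0 := by rw [neg_sq]; exact h2
    rw [h2, h3, zero_mul, zero_mul, sub_zero] at h1
    linarith
  -- 3. symmetry
  have e3 : ∫ Z in (-A)..A, ψ (s + γ * Z ^ 2) * (2 * γ * Z ^ (2 * q + 2) / (2 * q + 1)) =
      2 * ∫ Z in (0:ℝ)..A, ψ (s + γ * Z ^ 2) * (2 * γ * Z ^ (2 * q + 2) / (2 * q + 1)) := by
    have h1 := intervalIntegral.integral_comp_neg (a := 0) (b := A)
      (fun Z : ℝ => ψ (s + γ * Z ^ 2) * (2 * γ * Z ^ (2 * q + 2) / (2 * q + 1)))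
    have h2 : ∀ Z : ℝ, (-Z) ^ (2 * q + 2) = Z ^ (2 * q + 2) := fun Z =>
      Even.neg_pow ⟨q + 1, by ring⟩ Z
    simp only [neg_sq, h2, neg_zero] at h1
    rw [← intervalIntegral.integral_add_adjacent_intervals (b := 0)
      (hc2.intervalIntegrable _ _) (hc2.intervalIntegrable _ _), ← h1]
    ring
  -- 4. substitution
  set g : ℝ → ℝ := fun c => ψ c * (√((c - s) / γ)) ^ (2 * q + 1) / (2 * q + 1) with hg
  have hgc : Continuous g := by
    rw [hg]
    exact (hψc.mul (by fun_prop)).div_const _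
  have e4 : ∫ Z in (0:ℝ)..A, ψ (s + γ * Z ^ 2) * (2 * γ * Z ^ (2 * q + 2) / (2 * q + 1)) =
      ∫ c in s..(s + γ * A ^ 2), g c := by
    have h1 := intervalIntegral.integral_comp_mul_deriv (a := 0) (b := A)
      (f := fun Z : ℝ => s + γ * Z ^ 2) (f' := fun Z : ℝ => γ * (2 * Z)) (g := g)
      (fun Z _ => by
        have := ((hasDerivAt_pow 2 Z).const_mul γ).const_add s
        simpa using this) (by fun_prop) hgc
    have h2 : s + γ * (0:ℝ) ^ 2 = s := by ring
    simp only [h2] at h1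
    rw [← h1]
    apply intervalIntegral.integral_congr
    intro Z hZ
    rw [uIcc_of_le hA0.le] at hZ
    simp only [Function.comp, hg]
    have h3 : (s + γ * Z ^ 2 - s) / γ = Z ^ 2 := by field_simp; ring
    rw [h3, Real.sqrt_sq hZ.1]
    field_simp
    ring
  -- 5. the domain of integration
  have e5 : ∫ c in s..(s + γ * A ^ 2), g c = ∫ c in lo..hi, g c := by
    rw [intervalIntegral.integral_eq_integral_of_support_subset,
      intervalIntegral.integral_eq_integral_of_support_subset]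
    · intro c hc
      by_contra hcon
      apply hc
      simp only [hg]
      rw [hsupp c (fun h => hcon ⟨h.1, h.2.le⟩)]
      simp
    · intro c hc
      by_contra hcon
      apply hc
      simp only [hg]
      by_cases h1 : c ∈ Ioo lo hi
      · have h2 : c ≤ s := by
          by_contra h3
          push Not at h3
          exact hcon ⟨h3, h1.2.le.trans hA.le⟩
        have h3 : √((c - s) / γ) = 0 :=
          Real.sqrt_eq_zero_of_nonpos (div_nonpos_of_nonpos_of_nonneg (by linarith) hγ.le)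
        rw [h3, zero_pow (by omega)]
        simp
      · rw [hsupp c h1]
        simp
  -- 6. the constant
  have hsγ : 0 < √γ := Real.sqrt_pos.2 hγ
  have hpow : γ ^ ((q : ℝ) + 1 / 2) = (√γ) ^ (2 * q + 1) := by
    rw [Real.rpow_add hγ, Real.rpow_natCast, ← Real.sqrt_eq_rpow, pow_succ, pow_mul,
      Real.sq_sqrt hγ.le]
  have e6 : ∫ c in lo..hi, g c =
      1 / ((2 * q + 1) * (√γ) ^ (2 * q + 1)) * ∫ c in lo..hi, ψ c * (√(c - s)) ^ (2 * q + 1) := by
    rw [← intervalIntegral.integral_const_mul]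
    apply intervalIntegral.integral_congr
    intro c _
    simp only [hg]
    rw [Real.sqrt_div' _ hγ.le, div_pow]
    field_simp
  rw [e1, e2, e3, e4, e5, e6, hpow]
  ring

end Pool.Agent.H957.HN.PLayer
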