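import Pool.Agent.H957.HN.Stm

/-! Project HN, part D1 (helper962): the limit `θ → ∞`. -/

set_option autoImplicit false

open Set Filter Topology MeasureTheory

namespace Pool.Agent.H957.HN.PLim

open Pool.Agent.H957.HN

theorem ee_pos {N : ℕ} (hN : 0 < N) : 0 < ee N := by
  unfold ee
  have hN' : (1 : ℝ) ≤ N := by exact_mod_cast hN
  have hpi := Real.pi_pos
  have h1 : 0 < Real.pi / (2 * N) := by positivity
  have h2 : Real.pi / (2 * N) < Real.pi := by
    rw [div_lt_iff₀ (by positivity)]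
    nlinarith
  have := Real.sin_pos_of_pos_of_lt_pi h1 h2
  positivity

/-- the lower bound of the potential -/
theorem vv_low (hloc : S_LOC) {M : ℕ} (hM : 0 < M) (hM4 : 4 ∣ M) {x : ℝ}
    (hx : x ∈ Icc (-(ee M)) (ee M)) : (M : ℝ) ^ 2 / Real.pi ^ 2 * x ^ 2 ≤ VV M x := by
  obtain ⟨-, -, -, -, h, -, -⟩ := hloc M 0 0 hM (by simpa using hM4) (by norm_num)
  have e0 : ph0 0 0 = Real.pi / 2 := by
    unfold ph0
    norm_num
  have e1 : zr 0 0 = 0 := by
    unfold zr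
    rw [e0, Real.cos_pi_div_two, mul_zero]
  have e2 : al M 0 0 = -(ee M) := by
    unfold al ee
    rw [e0, add_comm, Real.cos_add_pi_div_two]
    ring
  have e3 : be M 0 0 = ee M := by
    unfold be ee
    rw [e0, Real.cos_pi_div_two_sub]
  rw [e1, e2, e3] at h
  have := h x hx
  rwa [sub_zero] at this

/-- the behaviour at the origin -/
theorem vv_lim (hC : S_CHEB) {N : ℕ} (hN4 : 4 ∣ N) (Z : ℝ) :
    Tendsto (fun θ : ℝ => θ * VV N (Z / √θ)) atTop (𝓝 ((N : ℝ) ^ 2 / 4 * Z ^ 2)) := by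
  obtain ⟨hC1, -⟩ := hC
  obtain ⟨n, hn⟩ := hN4
  have hd : HasDerivAt (fun s : ℝ => 2 * Real.sin (N * Real.arcsin (s * (Z / 2)) / 2))
      (N * Z / 2) 0 := by
    have h1 : HasDerivAt (fun s : ℝ => s * (Z / 2)) (Z / 2) 0 := by
      have := (hasDerivAt_id (0 : ℝ)).mul_const (Z / 2)
      rwa [one_mul] at this
    have h2 : HasDerivAt Real.arcsin 1 ((0 : ℝ) * (Z / 2)) := by
      rw [zero_mul]
      have := Real.hasDerivAt_arcsin (x := 0) (by norm_num) (by norm_num)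
      simpa using this
    have h3 := h2.comp (0 : ℝ) h1
    have h4 := (h3.const_mul (N : ℝ)).div_const 2
    have h5 := (h4.sin).const_mul 2
    refine h5.congr_deriv ?_
    simp only [Function.comp, zero_mul, Real.arcsin_zero, mul_zero, zero_div, Real.cos_zero]
    ring
  rw [hasDerivAt_iff_tendsto_slope_zero] at hd
  have hs : Tendsto (fun θ : ℝ => 1 / √θ) atTop (𝓝[≠] 0) := by
    rw [tendsto_nhdsWithin_iff]
    refine ⟨?_, ?_⟩
    · exact tendsto_const_nhds.div_atTop (Real.tendsto_sqrt_atTop)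
    · filter_upwards [eventually_gt_atTop (0 : ℝ)] with θ hθ
      have : 0 < √θ := Real.sqrt_pos.2 hθ
      exact (by positivity : (1 : ℝ) / √θ ≠ 0)
  have h1 := (hd.comp hs).pow 2
  have e : (N * Z / 2 : ℝ) ^ 2 = (N : ℝ) ^ 2 / 4 * Z ^ 2 := by ring
  rw [e] at h1
  refine h1.congr' ?_
  have hsmall : ∀ᶠ θ : ℝ in atTop, |Z| ≤ √θ :=
    Real.tendsto_sqrt_atTop.eventually_ge_atTop _
  filter_upwards [hsmall, eventually_gt_atTop (0 : ℝ)] with θ h2 hθ
  have hq : 0 < √θ := Real.sqrt_pos.2 hθ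
  have hqs : √θ ^ 2 = θ := Real.sq_sqrt hθ.le
  have h3 : |Z / √θ / 2| ≤ 1 := by
    rw [abs_div, abs_div, abs_of_pos hq, abs_two]
    have h4 : |Z| / √θ ≤ 1 := (div_le_one hq).2 h2
    linarith
  rw [abs_le] at h3
  obtain ⟨ω, hω⟩ : ∃ ω, ω = Real.arcsin (Z / √θ / 2) := ⟨_, rfl⟩
  have h4 : Real.sin ω = Z / √θ / 2 := by
    rw [hω]
    exact Real.sin_arcsin h3.1 h3.2
  have h5 : VV N (Z / √θ) = 4 * Real.sin (N * ω / 2) ^ 2 := by
    have h6 := hC1 N (Real.pi / 2 - ω)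
    rw [Real.cos_pi_div_two_sub, h4, mul_div_cancel₀ _ (two_ne_zero)] at h6
    unfold VV
    rw [h6]
    have h7 : (N : ℝ) * (Real.pi / 2 - ω) = -(N * ω) + n * (2 * Real.pi) := by
      rw [hn]
      push_cast
      ring
    rw [h7, Real.cos_add_nat_mul_two_pi, Real.cos_neg]
    have h8 : Real.cos (N * ω) = 1 - 2 * Real.sin (N * ω / 2) ^ 2 := by
      have h9 : (N : ℝ) * ω = 2 * (N * ω / 2) := by ring
      rw [h9, Real.cos_two_mul, Real.cos_sq']
      ring_nf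
    rw [h8]
    ring
  show ((1 / √θ)⁻¹ • (2 * Real.sin (N * Real.arcsin ((0 + 1 / √θ) * (Z / 2)) / 2) -
    2 * Real.sin (N * Real.arcsin (0 * (Z / 2)) / 2))) ^ 2 = _
  have h10 : (0 + 1 / √θ) * (Z / 2) = Z / √θ / 2 := by ring
  rw [h5, h10, ← hω, zero_mul, Real.arcsin_zero, mul_zero, zero_div, Real.sin_zero, mul_zero,
    sub_zero, smul_eq_mul, one_div, inv_inv, mul_pow, hqs]
  ring

/-- the inner integrand -/
noncomputable def gg (N q : ℕ) (Φ : ℝ → ℝ) (v θ : ℝ) : ℝ → ℝ :=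
  (Ioc (-(ee N * √θ)) (ee N * √θ)).indicator
    (fun Z => Φ (v + θ * VV N (Z / √θ)) * Z ^ (2 * q))

/-- the bound -/
noncomputable def bd (q : ℕ) (K : ℝ) : ℝ → ℝ :=
  (Icc (-(2 * Real.pi)) (2 * Real.pi)).indicator (fun _ => K * (2 * Real.pi) ^ (2 * q))

theorem bd_int (q : ℕ) (K : ℝ) : Integrable (bd q K) := by
  unfold bd
  rw [integrable_indicator_iff measurableSet_Icc]
  exact integrableOn_const (by simp)

theorem gg_bd (hloc : S_LOC) {N : ℕ} (hN : 0 < N) (hN4 : 4 ∣ N) (q : ℕ) {Φ : ℝ → ℝ} {K : ℝ}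
    (hK : ∀ t, 0 ≤ t → |Φ t| ≤ K) (hΦ2 : ∀ t, 2 ≤ t → Φ t = 0) {v θ : ℝ} (hv : 0 ≤ v)
    (hθ : 0 < θ) (Z : ℝ) : ‖gg N q Φ v θ Z‖ ≤ bd q K Z := by
  have hK0 : 0 ≤ K := (abs_nonneg _).trans (hK 0 le_rfl)
  have hpi := Real.pi_pos
  have hbd0 : 0 ≤ bd q K Z := by
    unfold bd
    exact indicator_nonneg (fun _ _ => by positivity) _
  unfold gg
  by_cases hZ : Z ∈ Ioc (-(ee N * √θ)) (ee N * √θ)
  · rw [indicator_of_mem hZ]
    have hq : 0 < √θ := Real.sqrt_pos.2 hθ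
    have hqs : √θ ^ 2 = θ := Real.sq_sqrt hθ.le
    have h1 : Z / √θ ∈ Icc (-(ee N)) (ee N) := by
      constructor
      · rw [le_div_iff₀ hq]
        linarith [hZ.1]
      · rw [div_le_iff₀ hq]
        exact hZ.2
    have h2 := vv_low hloc hN hN4 h1
    have h3 : (N : ℝ) ^ 2 / Real.pi ^ 2 * Z ^ 2 ≤ θ * VV N (Z / √θ) := by
      have h4 := mul_le_mul_of_nonneg_left h2 hθ.le
      refine le_trans (le_of_eq ?_) h4
      rw [div_pow, hqs]
      field_simp
    have hN1 : (1 : ℝ) ≤ N := by exact_mod_cast hN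
    have h4 : Z ^ 2 / Real.pi ^ 2 ≤ (N : ℝ) ^ 2 / Real.pi ^ 2 * Z ^ 2 := by
      have h5 : (1 : ℝ) ≤ (N : ℝ) ^ 2 := one_le_pow₀ hN1
      have h6 : (N : ℝ) ^ 2 / Real.pi ^ 2 * Z ^ 2 = (N : ℝ) ^ 2 * (Z ^ 2 / Real.pi ^ 2) := by ring
      rw [h6]
      have h7 : 0 ≤ Z ^ 2 / Real.pi ^ 2 := by positivity
      nlinarith
    have h5 : Z ^ 2 / Real.pi ^ 2 ≤ v + θ * VV N (Z / √θ) := by linarith
    have h50 : 0 ≤ v + θ * VV N (Z / √θ) := le_trans (by positivity) h5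
    by_cases hZ2 : Z ∈ Icc (-(2 * Real.pi)) (2 * Real.pi)
    · unfold bd
      rw [indicator_of_mem hZ2, norm_mul, Real.norm_eq_abs, norm_pow, Real.norm_eq_abs]
      have h6 : |Z| ≤ 2 * Real.pi := abs_le.2 hZ2
      exact mul_le_mul (hK _ h50) (pow_le_pow_left₀ (abs_nonneg _) h6 _) (by positivity) hK0
    · have h6 : 2 * Real.pi < |Z| := by
        by_contra hc
        exact hZ2 (abs_le.1 (not_lt.1 hc))
      have h7 : (2 : ℝ) ≤ Z ^ 2 / Real.pi ^ 2 := by
        rw [le_div_iff₀ (by positivity), ← sq_abs Z]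
        nlinarith
      rw [hΦ2 _ (h7.trans h5), zero_mul, norm_zero]
      exact hbd0
  · rw [indicator_of_notMem hZ, norm_zero]
    exact hbd0

theorem main : S_LIM := by
  intro hC hloc M N p q Φ hM hM4 hN hN4 hΦ hΦ2
  have hCfc : ∀ n : ℕ, Continuous (Cf n) := fun n => ((hC.2.2.2.2.2.2.2) n).1
  have hVV : ∀ n : ℕ, Continuous (VV n) := fun n => continuous_const.sub (hCfc n)
  have heN := ee_pos hN
  have heM := ee_pos hM
  obtain ⟨K, hK1⟩ := isCompact_Icc.exists_bound_of_continuousOn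
    (hΦ.continuousOn (s := Icc (0 : ℝ) 2))
  have hK0 : 0 ≤ K := (norm_nonneg _).trans (hK1 0 ⟨le_rfl, by norm_num⟩)
  have hK : ∀ t, 0 ≤ t → |Φ t| ≤ K := by
    intro t ht
    rcases le_or_gt t 2 with h | h
    · exact hK1 t ⟨ht, h⟩
    · rw [hΦ2 t h.le, abs_zero]
      exact hK0
  -- the substitution
  obtain ⟨H, hH⟩ : ∃ H : ℝ → ℝ → ℝ, H = fun θ X => θ ^ ((q : ℝ) + 1 / 2) *
      ∫ Y in (-(ee N))..(ee N), Φ (VV M X + θ * VV N Y) * (X ^ (2 * p) * Y ^ (2 * q)) := ⟨_, rfl⟩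
  have hJJ : ∀ θ : ℝ, θ ^ ((q : ℝ) + 1 / 2) * JJ M N θ Φ p q =
      ∫ X in (-(ee M))..(ee M), H θ X := by
    intro θ
    unfold JJ
    rw [hH, ← intervalIntegral.integral_const_mul]
  have hHg : ∀ θ : ℝ, 0 < θ → ∀ X : ℝ, H θ X = (∫ Z, gg N q Φ (VV M X) θ Z) * X ^ (2 * p) := by
    intro θ hθ X
    have hq : 0 < √θ := Real.sqrt_pos.2 hθ
    have hqs : √θ ^ 2 = θ := Real.sq_sqrt hθ.le
    have e1 : ∫ Z, gg N q Φ (VV M X) θ Z = ∫ Z in (-(ee N * √θ))..(ee N * √θ),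
        Φ (VV M X + θ * VV N (Z / √θ)) * Z ^ (2 * q) := by
      unfold gg
      rw [integral_indicator measurableSet_Ioc, intervalIntegral.integral_of_le]
      have : 0 < ee N * √θ := by positivity
      linarith
    have e2 : (fun Z : ℝ => Φ (VV M X + θ * VV N (Z / √θ)) * Z ^ (2 * q)) = fun Z : ℝ =>
        (fun Y : ℝ => Φ (VV M X + θ * VV N Y) * (√θ * Y) ^ (2 * q)) (Z / √θ) := by
      funext Z
      show _ = Φ (VV M X + θ * VV N (Z / √θ)) * (√θ * (Z / √θ)) ^ (2 * q)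
      rw [mul_div_cancel₀ _ hq.ne']
    have e3 : ∫ Z in (-(ee N * √θ))..(ee N * √θ),
        Φ (VV M X + θ * VV N (Z / √θ)) * Z ^ (2 * q) =
        √θ * ∫ Y in (-(ee N))..(ee N), Φ (VV M X + θ * VV N Y) * (√θ * Y) ^ (2 * q) := by
      have e5 := intervalIntegral.integral_comp_div (a := -(ee N * √θ)) (b := ee N * √θ)
        (fun Y : ℝ => Φ (VV M X + θ * VV N Y) * (√θ * Y) ^ (2 * q)) hq.ne'
      rw [smul_eq_mul, neg_div, mul_div_cancel_right₀ _ hq.ne'] at e5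
      rw [e2]
      exact e5
    have e4 : θ ^ ((q : ℝ) + 1 / 2) = θ ^ q * √θ := by
      rw [Real.rpow_add hθ, Real.rpow_natCast, Real.sqrt_eq_rpow]
    rw [hH, e1, e3]
    show θ ^ ((q : ℝ) + 1 / 2) * _ = _
    rw [e4, mul_assoc, mul_comm (√θ * _) (X ^ (2 * p)), ← mul_assoc (X ^ (2 * p)),
      mul_comm (X ^ (2 * p)) (√θ), mul_assoc (√θ), mul_left_comm (θ ^ q) (√θ)]
    congr 1
    rw [← intervalIntegral.integral_const_mul, ← intervalIntegral.integral_const_mul]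
    refine intervalIntegral.integral_congr fun Y _ => ?_
    show θ ^ q * (Φ (VV M X + θ * VV N Y) * (X ^ (2 * p) * Y ^ (2 * q))) =
      X ^ (2 * p) * (Φ (VV M X + θ * VV N Y) * (√θ * Y) ^ (2 * q))
    rw [mul_pow, pow_mul (√θ), hqs]
    ring
  have hvX : ∀ X ∈ Icc (-(ee M)) (ee M), 0 ≤ VV M X := fun X hX =>
    le_trans (by positivity) (vv_low hloc hM hM4 hX)
  -- the inner limit
  have hin : ∀ v : ℝ, 0 ≤ v → Tendsto (fun θ => ∫ Z, gg N q Φ v θ Z) atTop
      (𝓝 (∫ Z : ℝ, Φ (v + (N : ℝ) ^ 2 / 4 * Z ^ 2) * Z ^ (2 * q))) := by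
    intro v hv
    refine tendsto_integral_filter_of_dominated_convergence (bd q K) ?_ ?_ (bd_int q K) ?_
    · refine Eventually.of_forall fun θ => ?_
      unfold gg
      refine AEStronglyMeasurable.indicator ?_ measurableSet_Ioc
      have : Continuous fun Z : ℝ => Φ (v + θ * VV N (Z / √θ)) * Z ^ (2 * q) :=
        (hΦ.comp (continuous_const.add (continuous_const.mul
          ((hVV N).comp (continuous_id.div_const _))))).mul (continuous_id.pow _)
      exact this.aestronglyMeasurable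
    · filter_upwards [eventually_gt_atTop (0 : ℝ)] with θ hθ
      exact Eventually.of_forall fun Z => gg_bd hloc hN hN4 q hK hΦ2 hv hθ Z
    · refine Eventually.of_forall fun Z => ?_
      have h1 : Tendsto (fun θ : ℝ => Φ (v + θ * VV N (Z / √θ)) * Z ^ (2 * q)) atTop
          (𝓝 (Φ (v + (N : ℝ) ^ 2 / 4 * Z ^ 2) * Z ^ (2 * q))) :=
        ((hΦ.tendsto _).comp ((vv_lim hC hN4 Z).const_add v)).mul_const _
      refine h1.congr' ?_
      have h2 : Tendsto (fun θ : ℝ => ee N * √θ) atTop atTop :=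
        Tendsto.const_mul_atTop heN Real.tendsto_sqrt_atTop
      filter_upwards [h2.eventually_gt_atTop |Z|] with θ hθ
      have h3 := abs_lt.1 hθ
      have h4 : Z ∈ Ioc (-(ee N * √θ)) (ee N * √θ) := ⟨h3.1, h3.2.le⟩
      unfold gg
      rw [indicator_of_mem h4]
  simp only [hJJ]
  refine intervalIntegral.tendsto_integral_filter_of_dominated_convergence
    (fun _ => (∫ Z, bd q K Z) * (ee M) ^ (2 * p)) ?_ ?_ ?_ ?_
  · refine Eventually.of_forall fun θ => ?_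
    rw [hH]
    refine Continuous.aestronglyMeasurable ?_
    refine continuous_const.mul ?_
    refine intervalIntegral.continuous_parametric_intervalIntegral_of_continuous' ?_ _ _
    exact (hΦ.comp (((hVV M).comp continuous_fst).add (continuous_const.mul
      ((hVV N).comp continuous_snd)))).mul ((continuous_fst.pow _).mul (continuous_snd.pow _))
  · filter_upwards [eventually_gt_atTop (0 : ℝ)] with θ hθ
    refine Eventually.of_forall fun X hX => ?_
    rw [uIoc_of_le (by linarith)] at hX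
    have hX' : X ∈ Icc (-(ee M)) (ee M) := ⟨hX.1.le, hX.2⟩
    rw [hHg θ hθ X, norm_mul, norm_pow, Real.norm_eq_abs X]
    refine mul_le_mul ?_ (pow_le_pow_left₀ (abs_nonneg _) (abs_le.2 hX') _) (by positivity)
      (integral_nonneg fun Z => ?_)
    · exact norm_integral_le_of_norm_le (bd_int q K)
        (Eventually.of_forall fun Z => gg_bd hloc hN hN4 q hK hΦ2 (hvX X hX') hθ Z)
    · unfold bd
      exact indicator_nonneg (fun _ _ => by
        have := Real.pi_pos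
        positivity) _
  · exact intervalIntegrable_const
  · refine Eventually.of_forall fun X hX => ?_
    rw [uIoc_of_le (by linarith)] at hX
    have hX' : X ∈ Icc (-(ee M)) (ee M) := ⟨hX.1.le, hX.2⟩
    refine ((hin (VV M X) (hvX X hX')).mul_const (X ^ (2 * p))).congr' ?_
    filter_upwards [eventually_gt_atTop (0 : ℝ)] with θ hθ
    exact (hHg θ hθ X).symm

end Pool.Agent.H957.HN.PLim
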