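import Pool.Agent.H957.HN.Stm

/-! Project HN, part D3 (helper405): the limit of the weighted integrals. -/

set_option autoImplicit false

open Set Filter Topology MeasureTheory

namespace Pool.Agent.H957.HN.PLimw

open Pool.Agent.H957.HN

theorem main : S_LIMW := by
  intro hC hloc hLIM hLAY M N p q lo hi Φ ψ hM hM4 hN hN4 hW hhi
  have hCf : Continuous (Cf M) := ((hC.2.2.2.2.2.2.2) M).1
  have hVV : Continuous (VV M) := continuous_const.sub hCf
  have hΦ : Continuous Φ := continuous_iff_continuousAt.2 fun t => (hW.der t).continuousAt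
  have h1 := hLIM hC hloc M N p q Φ hM hM4 hN hN4 hΦ (fun t ht => hW.top t (hhi.trans ht))
  have hγ : 0 < (N : ℝ) ^ 2 / 4 := by
    have : (0 : ℝ) < N := by exact_mod_cast hN
    positivity
  have e : (∫ X in (-(ee M))..(ee M),
      (∫ Z : ℝ, Φ (VV M X + (N : ℝ) ^ 2 / 4 * Z ^ 2) * Z ^ (2 * q)) * X ^ (2 * p)) =
      kq N q * ∫ c in lo..hi, ψ c * NN M p q c := by
    have e1 : ∀ X : ℝ, (∫ Z : ℝ, Φ (VV M X + (N : ℝ) ^ 2 / 4 * Z ^ 2) * Z ^ (2 * q)) * X ^ (2 * p) =
        kq N q * ∫ c in lo..hi, ψ c * (X ^ (2 * p) * (√(c - VV M X)) ^ (2 * q + 1)) := by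
      intro X
      rw [hLAY lo hi ((N : ℝ) ^ 2 / 4) (VV M X) Φ ψ q hW hγ]
      have e2 : (fun c : ℝ => ψ c * (X ^ (2 * p) * (√(c - VV M X)) ^ (2 * q + 1))) =
          fun c : ℝ => X ^ (2 * p) * (ψ c * (√(c - VV M X)) ^ (2 * q + 1)) := by
        funext c
        ring
      rw [e2, intervalIntegral.integral_const_mul]
      unfold kq
      ring
    simp only [e1]
    rw [intervalIntegral.integral_const_mul]
    congr 1
    unfold NN
    have e3 : ∀ c : ℝ, ψ c * (∫ X in (-(ee M))..(ee M), X ^ (2 * p) * (√(c - VV M X)) ^ (2 * q + 1)) =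
        ∫ X in (-(ee M))..(ee M), ψ c * (X ^ (2 * p) * (√(c - VV M X)) ^ (2 * q + 1)) := by
      intro c
      rw [intervalIntegral.integral_const_mul]
    simp only [e3]
    have hF : Continuous (Function.uncurry fun X c : ℝ =>
        ψ c * (X ^ (2 * p) * (√(c - VV M X)) ^ (2 * q + 1))) := by
      refine (hW.cont.comp continuous_snd).mul ((continuous_fst.pow _).mul ?_)
      exact (Real.continuous_sqrt.comp (continuous_snd.sub (hVV.comp continuous_fst))).pow _
    refine intervalIntegral_intervalIntegral_swap ?_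
    refine (hF.continuousOn.integrableOn_compact
      ((isCompact_uIcc (a := -(ee M)) (b := ee M)).prod (isCompact_uIcc (a := lo) (b := hi)))).mono_set ?_
    exact Set.prod_mono uIoc_subset_uIcc uIoc_subset_uIcc
  rw [← e]
  exact h1

end Pool.Agent.H957.HN.PLimw
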