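import Pool.Agent.H957.HN.Stm

/-!
A2: local structure at the critical points.
-/

set_option autoImplicit false

open Set Filter Topology MeasureTheory Polynomial

namespace Pool.Agent.H957.HN.PLoc

open Pool.Agent.H957.HN

theorem cos_shift {y : ℝ} {n : ℕ} (s : ℝ) (hy : y = n * (2 * Real.pi)) :
    Real.cos (y + s) = Real.cos s ∧ Real.sin (y + s) = Real.sin s := by
  rw [hy, add_comm]
  exact ⟨Real.cos_add_nat_mul_two_pi s n, Real.sin_add_nat_mul_two_pi s n⟩

theorem main (hC : S_CHEB) : S_LOC := by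
  obtain ⟨hCf, hdC, _⟩ := hC
  intro m t a hm hdvd ha
  obtain ⟨k, hk⟩ := hdvd
  have hk0 : 0 < k := by
    rcases Nat.eq_zero_or_pos k with h | h
    · rw [h, mul_zero] at hk
      omega
    · exact h
  have hpi := Real.pi_pos
  set P : ℝ := 2 ^ t with hP
  have hP0 : 0 < P := by positivity
  have hkR : (1 : ℝ) ≤ k := by exact_mod_cast hk0
  have hmR : (m : ℝ) = 4 * P * k := by
    rw [hk]
    push_cast
    rw [pow_add, ← hP]
    ring
  have hmR0 : (0 : ℝ) < m := by exact_mod_cast hm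
  have haR : (a : ℝ) + 1 ≤ P := by
    rw [hP]
    exact_mod_cast ha
  have ha0 : (0 : ℝ) ≤ a := Nat.cast_nonneg a
  have hφ : ph0 t a = Real.pi * (2 * a + 1) / (2 * P) := by
    unfold ph0
    rw [pow_succ, ← hP]
    ring
  set φ₀ := ph0 t a with hφ₀
  set ε : ℝ := Real.pi / (2 * m) with hε
  have hε0 : 0 < ε := by positivity
  have hε1 : ε ≤ Real.pi / (8 * P) := by
    rw [hε, hmR]
    refine div_le_div_of_nonneg_left hpi.le (by positivity) ?_
    nlinarith
  have hlow : Real.pi / (8 * P) < φ₀ := by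
    rw [hφ, div_lt_div_iff₀ (by positivity) (by positivity)]
    have h1 : 0 < Real.pi * P := by positivity
    nlinarith [mul_nonneg h1.le ha0]
  have hup : φ₀ + Real.pi / (8 * P) < Real.pi := by
    have e : Real.pi = Real.pi * (2 * P) / (2 * P) := by field_simp
    have h1 : φ₀ ≤ Real.pi - Real.pi / (2 * P) := by
      rw [hφ, le_sub_iff_add_le, ← add_div, div_le_iff₀ (by positivity)]
      nlinarith
    have h2 : Real.pi / (8 * P) < Real.pi / (2 * P) := by
      refine div_lt_div_of_pos_left hpi (by positivity) ?_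
      linarith
    linarith
  have hl : 0 < φ₀ - ε := by linarith
  have hu : φ₀ + ε < Real.pi := by linarith
  have hzr : zr t a = 2 * Real.cos φ₀ := rfl
  have hal : al m t a = 2 * Real.cos (φ₀ + ε) := rfl
  have hbe : be m t a = 2 * Real.cos (φ₀ - ε) := rfl
  -- multiples of 2 pi
  have hmφ : (m : ℝ) * φ₀ = ((k * (2 * a + 1) : ℕ) : ℝ) * (2 * Real.pi) := by
    rw [hφ, hmR]
    push_cast
    field_simp
    ring
  have hPφ : P * φ₀ = a * Real.pi + Real.pi / 2 := by
    rw [hφ]
    field_simp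
  have hdiv : m / 2 ^ t = 4 * k := by
    rw [hk, pow_add, mul_assoc, Nat.mul_div_cancel_left _ (by positivity)]
    norm_num
  have hee : ee (m / 2 ^ t) = 2 * Real.sin (P * ε) := by
    unfold ee
    rw [hdiv]
    congr 2
    rw [hε, hmR]
    push_cast
    field_simp
  -- angle of a point of the interval
  have hang : ∀ x ∈ Icc (al m t a) (be m t a), ∃ φ : ℝ, x = 2 * Real.cos φ ∧ φ₀ - ε ≤ φ ∧
      φ ≤ φ₀ + ε := by
    intro x hx
    rw [hal, hbe] at hx
    have h1 : -1 ≤ x / 2 := by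
      have := Real.neg_one_le_cos (φ₀ + ε)
      linarith [hx.1]
    have h2 : x / 2 ≤ 1 := by
      have := Real.cos_le_one (φ₀ - ε)
      linarith [hx.2]
    have h3 := Real.cos_arccos h1 h2
    refine ⟨Real.arccos (x / 2), by rw [h3]; ring, ?_, ?_⟩
    · by_contra h
      have h4 := Real.cos_lt_cos_of_nonneg_of_le_pi (Real.arccos_nonneg (x / 2))
        (by linarith : φ₀ - ε ≤ Real.pi) (not_le.1 h)
      rw [h3] at h4
      linarith [hx.2]
    · by_contra h
      have h4 := Real.cos_lt_cos_of_nonneg_of_le_pi (by linarith : 0 ≤ φ₀ + ε)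
        (Real.arccos_le_pi (x / 2)) (not_le.1 h)
      rw [h3] at h4
      linarith [hx.1]
  have hmε : (m : ℝ) * ε = Real.pi / 2 := by
    rw [hε]
    field_simp
  refine ⟨?_, ?_, ?_, ?_, ?_, ?_, ?_⟩
  · rw [hal, hzr]
    have := Real.cos_lt_cos_of_nonneg_of_le_pi (by linarith : 0 ≤ φ₀) hu.le
      (by linarith : φ₀ < φ₀ + ε)
    linarith
  · rw [hbe, hzr]
    have := Real.cos_lt_cos_of_nonneg_of_le_pi hl.le (by linarith : φ₀ ≤ Real.pi)
      (by linarith : φ₀ - ε < φ₀)
    linarith
  · rw [hal, hCf, hee]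
    have e : ((2 ^ t : ℕ) : ℝ) * (φ₀ + ε) = (P * ε + Real.pi / 2) + a * Real.pi := by
      push_cast
      rw [← hP, mul_add, hPφ]
      ring
    rw [e, Real.cos_add_nat_mul_pi, Real.cos_add_pi_div_two]
    ring
  · rw [hbe, hCf, hee]
    have e : ((2 ^ t : ℕ) : ℝ) * (φ₀ - ε) = (-(P * ε) + Real.pi / 2) + a * Real.pi := by
      push_cast
      rw [← hP, mul_sub, hPφ]
      ring
    rw [e, Real.cos_add_nat_mul_pi, Real.cos_add_pi_div_two, Real.sin_neg]
    ring
  · intro x hx
    obtain ⟨φ, hxφ, h1, h2⟩ := hang x hx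
    set δ := φ - φ₀ with hδ
    have h3 : |δ| ≤ ε := abs_le.2 ⟨by linarith, by linarith⟩
    have h4 : VV m x = 4 * Real.sin (m * δ / 2) ^ 2 := by
      unfold VV
      rw [hxφ, hCf]
      have e : (m : ℝ) * φ = m * φ₀ + m * δ := by
        rw [hδ]
        ring
      rw [e, (cos_shift _ hmφ).1]
      have e2 : (m : ℝ) * δ = 2 * (m * δ / 2) := by ring
      rw [e2, Real.cos_two_mul, Real.cos_sq']
      have e3 : 2 * (m * δ / 2) / 2 = (m : ℝ) * δ / 2 := by ring
      rw [e3]
      ring
    have h5 : (2 / Real.pi * (m * |δ| / 2)) ^ 2 ≤ Real.sin (m * δ / 2) ^ 2 := by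
      have h6 : 0 ≤ (m : ℝ) * |δ| / 2 := by positivity
      have h7 : (m : ℝ) * |δ| / 2 ≤ Real.pi / 2 := by
        have : (m : ℝ) * |δ| ≤ m * ε := mul_le_mul_of_nonneg_left h3 hmR0.le
        linarith
      have h8 := Real.mul_le_sin h6 h7
      have h9 : Real.sin (m * δ / 2) ^ 2 = Real.sin (m * |δ| / 2) ^ 2 := by
        rcases abs_choice δ with h | h
        · rw [h]
        · rw [h]
          have e : (m : ℝ) * -δ / 2 = -(m * δ / 2) := by ring
          rw [e, Real.sin_neg, neg_sq]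
      rw [h9]
      exact pow_le_pow_left₀ (by positivity) h8 2
    have h6 : (x - zr t a) ^ 2 ≤ (2 * δ) ^ 2 := by
      rw [hxφ, hzr, ← mul_sub, mul_pow, mul_pow]
      have h7 : |Real.cos φ - Real.cos φ₀| ≤ |φ - φ₀| := by
        have h8 := Real.abs_cos_sub_cos_le φ φ₀
        exact h8
      have h8 : (Real.cos φ - Real.cos φ₀) ^ 2 ≤ δ ^ 2 := sq_le_sq.2 h7
      linarith
    rw [h4]
    have h7 : (m : ℝ) ^ 2 / Real.pi ^ 2 * (x - zr t a) ^ 2 ≤
        (m : ℝ) ^ 2 / Real.pi ^ 2 * (2 * δ) ^ 2 := mul_le_mul_of_nonneg_left h6 (by positivity)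
    refine h7.trans ?_
    have h8 : (m : ℝ) ^ 2 / Real.pi ^ 2 * (2 * δ) ^ 2 = 4 * (2 / Real.pi * (m * |δ| / 2)) ^ 2 := by
      have e : (2 / Real.pi * (m * |δ| / 2)) ^ 2 = m ^ 2 / Real.pi ^ 2 * |δ| ^ 2 := by
        field_simp
      rw [e, sq_abs]
      ring
    rw [h8]
    linarith
  · intro x hx hne
    obtain ⟨φ, hxφ, h1, h2⟩ := hang x hx
    set δ := φ - φ₀ with hδ
    have hsin : 0 < Real.sin φ := Real.sin_pos_of_pos_of_lt_pi (by linarith) (by linarith)
    have h3 : dC m x * Real.sin φ = m * Real.sin (m * δ) := by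
      rw [hxφ, hdC]
      have e : (m : ℝ) * φ = m * φ₀ + m * δ := by
        rw [hδ]
        ring
      rw [e, (cos_shift _ hmφ).2]
    have hδ0 : δ ≠ 0 := by
      intro h
      have : φ = φ₀ := by linarith
      rw [this] at hxφ
      exact hne hxφ
    rcases lt_or_gt_of_ne hδ0 with h | h
    · have h4 : Real.sin (m * δ) < 0 := by
        have e : (m : ℝ) * δ = -(m * -δ) := by ring
        rw [e, Real.sin_neg, neg_lt_zero]
        refine Real.sin_pos_of_pos_of_lt_pi (mul_pos hmR0 (by linarith)) ?_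
        have : (m : ℝ) * -δ ≤ m * ε := mul_le_mul_of_nonneg_left (by linarith) hmR0.le
        linarith
      have h5 : dC m x < 0 := by
        by_contra h6
        have h7 : 0 ≤ dC m x * Real.sin φ := mul_nonneg (not_lt.1 h6) hsin.le
        rw [h3] at h7
        nlinarith
      have h6 : zr t a < x := by
        rw [hxφ, hzr]
        have := Real.cos_lt_cos_of_nonneg_of_le_pi (by linarith : 0 ≤ φ)
          (by linarith : φ₀ ≤ Real.pi) (by linarith : φ < φ₀)
        linarith
      exact mul_pos (by linarith) (by linarith)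
    · have h4 : 0 < Real.sin (m * δ) := by
        refine Real.sin_pos_of_pos_of_lt_pi (mul_pos hmR0 h) ?_
        have : (m : ℝ) * δ ≤ m * ε := mul_le_mul_of_nonneg_left (by linarith) hmR0.le
        linarith
      have h5 : 0 < dC m x := by
        by_contra h6
        have h7 : dC m x * Real.sin φ ≤ 0 := mul_nonpos_of_nonpos_of_nonneg (not_lt.1 h6) hsin.le
        rw [h3] at h7
        have := mul_pos hmR0 h4
        linarith
      have h6 : x < zr t a := by
        rw [hxφ, hzr]
        have := Real.cos_lt_cos_of_nonneg_of_le_pi (by linarith : 0 ≤ φ₀)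
          (by linarith : φ ≤ Real.pi) (by linarith : φ₀ < φ)
        linarith
      exact mul_pos_of_neg_of_neg (by linarith) (by linarith)
  · unfold VV
    rw [hzr, hCf]
    have e := (cos_shift 0 hmφ).1
    rw [add_zero, Real.cos_zero] at e
    rw [e]
    norm_num

end Pool.Agent.H957.HN.PLoc
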