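import Pool.Agent.H957.HN.Stm

/-! NNC: the functions `NN M p q` are continuous. -/

set_option autoImplicit false

open Set Filter Topology MeasureTheory Polynomial

namespace Pool.Agent.H957.HN.PNnc

theorem nnc_Cf (M : ℕ) : Continuous (Cf M) := (Cp M).continuous

theorem nnc_VV (M : ℕ) : Continuous (VV M) := continuous_const.sub (nnc_Cf M)

theorem main : S_NNC := by
  intro M p q
  unfold NN
  refine intervalIntegral.continuous_parametric_intervalIntegral_of_continuous' ?_ _ _
  have h1 : Continuous fun z : ℝ × ℝ => VV M z.2 := (nnc_VV M).comp continuous_snd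
  have h2 : Continuous fun z : ℝ × ℝ => √(z.1 - VV M z.2) :=
    Real.continuous_sqrt.comp (continuous_fst.sub h1)
  exact (continuous_snd.pow (2 * p)).mul (h2.pow (2 * q + 1))

end Pool.Agent.H957.HN.PNnc
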