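import Pool.Agent.H957.HN.Stm2

/-! Project HN (helper957), F5: many closed orbits around one critical point (`S_ONE`). -/

set_option autoImplicit false

open Set Filter Topology MeasureTheory

namespace Pool.Agent.H957.HN.POne

open Pool.Agent.Y300

theorem lo_mono {M N : ℕ} {θ h : ℝ} {T : Finset (ℕ × ℕ)} {R : ℕ} {lo hi : ℕ → ℝ}
    {Φ ψ : ℕ → ℝ → ℝ} {c : ℕ × ℕ → ℝ} (F : Fam M N θ h T R lo hi Φ ψ c) (k : ℕ) (hk : k < R) :
    lo 0 ≤ lo k := by
  induction k with
  | zero => exact le_rfl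
  | succ k ih =>
    have h1 := ih (by omega)
    have h2 := (F.wt k (by omega)).lt
    have h3 := F.ord k hk
    linarith

theorem hi_mono {M N : ℕ} {θ h : ℝ} {T : Finset (ℕ × ℕ)} {R : ℕ} {lo hi : ℕ → ℝ}
    {Φ ψ : ℕ → ℝ → ℝ} {c : ℕ × ℕ → ℝ} (F : Fam M N θ h T R lo hi Φ ψ c) (j k : ℕ)
    (hk : k + j < R) : hi k ≤ hi (k + j) := by
  induction j with
  | zero => exact le_rfl
  | succ j ih =>
    have h1 := ih (by omega)
    have h3 := F.ord (k + j) (by omega)
    have h2 := (F.wt (k + j + 1) (by omega)).lt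
    rw [← add_assoc]
    linarith

theorem main : S_ONE := by
  intro hC hL hDV hW hS hrest s J r θ h t a t' a' c lo hi Φ ψ hs hG hθ ht ha ht' ha' hh F
  obtain ⟨hbox, hev2a, hev2b, heva, hevb⟩ := hrest
  obtain ⟨R, hR⟩ : ∃ R : ℕ, R = (TT (s * 2 ^ J) t t').card := ⟨_, rfl⟩
  rw [← hR] at F ⊢
  by_cases hR2 : R < 2
  · have h0 : R - 2 = 0 := by omega
    refine Eventually.of_forall fun τ => ⟨0, ?_⟩
    rw [h0]
    exact Many.zero _ _ _
  · have hlt : lo 0 < hi (R - 1) := by
      have h1 := (F.wt 0 (by omega)).lt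
      have h2 := hi_mono F (R - 1) 0 (by omega)
      rw [zero_add] at h2
      linarith
    have hhi : hi (R - 1) < ((s * 2 ^ J : ℕ) : ℝ) ^ 2 / Real.pi ^ 2 * r ^ 2 :=
      lt_of_lt_of_le (F.hi_lt (R - 1) (by omega)) hh
    obtain ⟨r₁, hWell⟩ := hW hC hL hDV s J r θ (lo 0) (hi (R - 1)) t a t' a' hs hG hθ ht ha ht' ha'
      (F.lo_pos 0 (by omega)) hlt hhi
    have hsgn := hS hC hL hbox hev2a hev2b heva hevb hDV s J r θ h t a t' a' c lo hi Φ ψ hs hG hθ
      ht ha ht' ha' hh (by rw [← hR]; exact F)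
    rw [← hR] at hsgn
    refine hsgn.mono fun τ hτ => ⟨r₁, ?_⟩
    obtain ⟨e, he1, he2⟩ : ∃ e : ℕ, e ≤ 1 ∧ Even (e + a + a') := by
      rcases Nat.even_or_odd (a + a') with h1 | h1
      · exact ⟨0, by omega, by rwa [zero_add]⟩
      · exact ⟨1, le_rfl, by rw [add_assoc, add_comm]; exact h1.add_one⟩
    refine hWell.many ((hDV hC (s * 2 ^ J) J c τ θ).2.1) (R - 2) (fun k => Φ (k + e))
      (fun k => ψ (k + e)) (fun k => lo (k + e)) (fun k => hi (k + e)) ?_ ?_ ?_ ?_ ?_ ?_ ?_ ?_ ?_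
    · intro k hk
      exact lo_mono F (k + e) (by omega)
    · intro k hk
      have h1 := hi_mono F (R - 1 - (k + e)) (k + e) (by omega)
      rwa [show k + e + (R - 1 - (k + e)) = R - 1 by omega] at h1
    · intro k hk
      have h1 := F.ord (k + e) (by omega)
      rwa [show k + e + 1 = k + 1 + e by omega] at h1
    · intro k hk
      exact (F.wt (k + e) (by omega)).der
    · intro k hk
      exact (F.wt (k + e) (by omega)).cont
    · intro k hk
      exact (F.wt (k + e) (by omega)).nonneg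
    · intro k hk
      exact (F.wt (k + e) (by omega)).supp
    · intro k hk
      exact (F.wt (k + e) (by omega)).top
    · intro k hk
      have h1 := hτ (k + e) (by omega)
      have h2 : (-1 : ℝ) ^ (k + e + a + a') = (-1) ^ k := by
        rw [show k + e + a + a' = k + (e + a + a') by omega, pow_add, he2.neg_one_pow, mul_one]
      rw [h2] at h1
      exact h1

end Pool.Agent.H957.HN.POne
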