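import Pool.Agent.H957.HN.Stm2

/-! Project HN, F2: degrees of the Hamiltonian and of the perturbation. -/

set_option autoImplicit false

open Set Filter Topology MeasureTheory Polynomial

namespace Pool.Agent.H957.HN.PPoly

open Pool.Agent.Y300 Pool.Agent.H957.HN

theorem pq_mem {m c B k l : ℕ} {P Q : ℝ[X]} (hP : P.natDegree ≤ k) (hQ : Q.natDegree ≤ l)
    (h : m * k + m * l + c ≤ B) :
    (fun z : ℝ × ℝ => P.eval z.1 * Q.eval z.2) ∈ Pw m m c B := by
  have e : (fun z : ℝ × ℝ => P.eval z.1 * Q.eval z.2) =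
      ∑ i ∈ Finset.range (k + 1), ∑ j ∈ Finset.range (l + 1),
        (P.coeff i * Q.coeff j) • mo i j := by
    funext z
    rw [Polynomial.eval_eq_sum_range' (Nat.lt_succ_of_le hP),
      Polynomial.eval_eq_sum_range' (Nat.lt_succ_of_le hQ), Finset.sum_mul_sum,
      Finset.sum_apply]
    refine Finset.sum_congr rfl fun i _ => ?_
    rw [Finset.sum_apply]
    refine Finset.sum_congr rfl fun j _ => ?_
    simp only [mo, Pi.smul_apply, smul_eq_mul]
    ring
  rw [e]
  refine Submodule.sum_mem _ fun i hi => Submodule.sum_mem _ fun j hj =>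
    Submodule.smul_mem _ _ (mo_mem ?_)
  have hi' : i ≤ k := Nat.lt_succ_iff.1 (Finset.mem_range.1 hi)
  have hj' : j ≤ l := Nat.lt_succ_iff.1 (Finset.mem_range.1 hj)
  have h1 : m * i ≤ m * k := Nat.mul_le_mul_left m hi'
  have h2 : m * j ≤ m * l := Nat.mul_le_mul_left m hj'
  omega

theorem main : S_POLY := by
  rintro ⟨_, _, _, _, _, _, hdeg, _⟩ m J c τ θ hm
  constructor
  · have e : HH m θ = (fun z : ℝ × ℝ => (Polynomial.C 2 - Cp m).eval z.1 * (1 : ℝ[X]).eval z.2) +
        θ • (fun z : ℝ × ℝ => (1 : ℝ[X]).eval z.1 * (Polynomial.C 2 - Cp m).eval z.2) := by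
      funext z
      simp only [HH, VV, Cf, Pi.add_apply, Pi.smul_apply, smul_eq_mul, Polynomial.eval_sub,
        Polynomial.eval_C, Polynomial.eval_one, mul_one, one_mul]
    have hd : (Polynomial.C 2 - Cp m).natDegree ≤ m := by
      refine (Polynomial.natDegree_sub_le _ _).trans ?_
      rw [hdeg m, Polynomial.natDegree_C]
      exact max_le (Nat.zero_le m) le_rfl
    have h1 : (1 : ℝ[X]).natDegree ≤ 0 := Polynomial.natDegree_one.le
    rw [e]
    refine Submodule.add_mem _ (pq_mem hd h1 ?_) (Submodule.smul_mem _ _ (pq_mem h1 hd ?_))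
    · rw [mul_zero, add_zero, add_zero]
    · rw [mul_zero, zero_add, add_zero]
  · have e : Y1 m J c τ = ∑ t ∈ Finset.range (J - 1), ∑ t' ∈ Finset.range (J - 1),
        τ ^ (2 * J - t - t') • ∑ x ∈ TT m t t', c t t' x •
          (fun z : ℝ × ℝ => (Polynomial.C (1 / (2 * (x.1 : ℝ) + 1)) *
            Cp (2 ^ t) ^ (2 * x.1 + 1)).eval z.1 *
            (Cp (2 ^ t') ^ (2 * x.2) * (Cp (2 ^ t')).derivative).eval z.2) := by
      funext z
      unfold Y1
      rw [Finset.sum_apply]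
      refine Finset.sum_congr rfl fun t _ => ?_
      rw [Finset.sum_apply]
      refine Finset.sum_congr rfl fun t' _ => ?_
      rw [Pi.smul_apply, Finset.sum_apply, smul_eq_mul]
      congr 1
      refine Finset.sum_congr rfl fun x _ => ?_
      rw [Pi.smul_apply, smul_eq_mul]
      simp only [AA, af, Cf, dC, Polynomial.eval_mul, Polynomial.eval_pow, Polynomial.eval_C]
      ring
    rw [e]
    refine Submodule.sum_mem _ fun t _ => Submodule.sum_mem _ fun t' _ =>
      Submodule.smul_mem _ _ (Submodule.sum_mem _ fun x hx => Submodule.smul_mem _ _ ?_)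
    have hx2 : 2 ^ t * (2 * x.1 + 1) + 2 ^ t' * (2 * x.2 + 1) ≤ m := by
      unfold TT at hx
      exact (Finset.mem_filter.1 hx).2
    have hP : (Polynomial.C (1 / (2 * (x.1 : ℝ) + 1)) *
            Cp (2 ^ t) ^ (2 * x.1 + 1)).natDegree ≤ 2 ^ t * (2 * x.1 + 1) := by
      refine (Polynomial.natDegree_C_mul_le _ _).trans ?_
      refine Polynomial.natDegree_pow_le.trans ?_
      rw [hdeg, mul_comm]
    have ht' : 0 < 2 ^ t' := Nat.two_pow_pos t'
    have hQ : (Cp (2 ^ t') ^ (2 * x.2) * (Cp (2 ^ t')).derivative).natDegree ≤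
        2 ^ t' * (2 * x.2 + 1) - 1 := by
      refine Polynomial.natDegree_mul_le.trans ?_
      have h1 : (Cp (2 ^ t') ^ (2 * x.2)).natDegree ≤ 2 * x.2 * 2 ^ t' := by
        refine Polynomial.natDegree_pow_le.trans ?_
        rw [hdeg]
      have h2 : (Cp (2 ^ t')).derivative.natDegree ≤ 2 ^ t' - 1 := by
        refine (Polynomial.natDegree_derivative_le _).trans ?_
        rw [hdeg]
      have h3 : 2 ^ t' * (2 * x.2 + 1) = 2 * x.2 * 2 ^ t' + 2 ^ t' := by ring
      omega
    refine pq_mem hP hQ ?_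
    have h3 : 0 < 2 ^ t' * (2 * x.2 + 1) := Nat.mul_pos ht' (Nat.succ_pos _)
    have h4 : 2 ^ t * (2 * x.1 + 1) + (2 ^ t' * (2 * x.2 + 1) - 1) + 1 ≤ m := by omega
    calc m * (2 ^ t * (2 * x.1 + 1)) + m * (2 ^ t' * (2 * x.2 + 1) - 1) + m
        = m * (2 ^ t * (2 * x.1 + 1) + (2 ^ t' * (2 * x.2 + 1) - 1) + 1) := by ring
      _ ≤ m * m := Nat.mul_le_mul_left m h4

end Pool.Agent.H957.HN.PPoly
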