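import Pool.Agent.H957.HN.Stm2

/-! Project HN (helper957): F4, signs of the double integrals (helper383). -/

set_option autoImplicit false

open Set Filter Topology MeasureTheory

namespace Pool.Agent.H957.HN.PSign

open Pool.Agent.Y300

lemma Bl_eq (p : ℝ × ℝ) (r : ℝ) :
    Bl p r = {z : ℝ × ℝ | (z.1 - p.1) ^ 2 + (z.2 - p.2) ^ 2 < r ^ 2} := by
  ext z
  unfold Bl dot
  change (z - p).1 * (z - p).1 + (z - p).2 * (z - p).2 < r ^ 2 ↔
    (z.1 - p.1) ^ 2 + (z.2 - p.2) ^ 2 < r ^ 2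
  rw [Prod.fst_sub, Prod.snd_sub, ← sq, ← sq]

lemma cont_VV (h : S_CHEB) (m : ℕ) : Continuous (VV m) := by
  unfold VV
  exact continuous_const.sub (h.2.2.2.2.2.2.2 m).1

lemma cont_af (h : S_CHEB) (t p : ℕ) : Continuous (af t p) := by
  unfold af
  exact ((h.2.2.2.2.2.2.2 (2 ^ t)).1.pow _).mul (h.2.2.2.2.2.2.2 (2 ^ t)).2

lemma cont_HH (h : S_CHEB) (m : ℕ) (θ : ℝ) : Continuous (HH m θ) := by
  unfold HH
  exact ((cont_VV h m).comp continuous_fst).add
    (continuous_const.mul ((cont_VV h m).comp continuous_snd))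

lemma cont_term (h : S_CHEB) (m : ℕ) (θ : ℝ) (F : ℝ → ℝ) (hF : Continuous F) (u u' : ℕ)
    (x : ℕ × ℕ) :
    Continuous fun z : ℝ × ℝ => F (HH m θ z) * (af u x.1 z.1 * af u' x.2 z.2) :=
  (hF.comp (cont_HH h m θ)).mul
    (((cont_af h u x.1).comp continuous_fst).mul ((cont_af h u' x.2).comp continuous_snd))

lemma expand (hC : S_CHEB) (hDV : S_DV) (m J : ℕ) (c : ℕ → ℕ → ℕ × ℕ → ℝ) (τ θ : ℝ)
    (p : ℝ × ℝ) {r : ℝ} (hr : 0 ≤ r) (F : ℝ → ℝ) (hF : Continuous F) :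
    ∫ z in Bl p r, F (HH m θ z) * dv (YY m J c τ) z =
      ∑ u ∈ Finset.range (J - 1), ∑ u' ∈ Finset.range (J - 1), τ ^ (2 * J - u - u') *
        ∑ x ∈ TT m u u', c u u' x *
          ∫ z in Bl p r, F (HH m θ z) * (af u x.1 z.1 * af u' x.2 z.2) := by
  have hdv := (hDV hC m J c τ θ).2.2.2
  have hc3 : ∀ (u u' : ℕ) (x : ℕ × ℕ), Continuous fun z : ℝ × ℝ =>
      (τ ^ (2 * J - u - u') * c u u' x) * (F (HH m θ z) * (af u x.1 z.1 * af u' x.2 z.2)) :=
    fun u u' x => continuous_const.mul (cont_term hC m θ F hF u u' x)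
  have hc2 : ∀ (u u' : ℕ), Continuous fun z : ℝ × ℝ => ∑ x ∈ TT m u u',
      (τ ^ (2 * J - u - u') * c u u' x) * (F (HH m θ z) * (af u x.1 z.1 * af u' x.2 z.2)) :=
    fun u u' => continuous_finsetSum _ fun x _ => hc3 u u' x
  have hc1 : ∀ (u : ℕ), Continuous fun z : ℝ × ℝ => ∑ u' ∈ Finset.range (J - 1),
      ∑ x ∈ TT m u u',
      (τ ^ (2 * J - u - u') * c u u' x) * (F (HH m θ z) * (af u x.1 z.1 * af u' x.2 z.2)) :=
    fun u => continuous_finsetSum _ fun u' _ => hc2 u u'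
  have e0 : ∫ z in Bl p r, F (HH m θ z) * dv (YY m J c τ) z =
      ∫ z in Bl p r, ∑ u ∈ Finset.range (J - 1), ∑ u' ∈ Finset.range (J - 1),
        ∑ x ∈ TT m u u', (τ ^ (2 * J - u - u') * c u u' x) *
          (F (HH m θ z) * (af u x.1 z.1 * af u' x.2 z.2)) := by
    apply integral_congr_ae
    refine Filter.Eventually.of_forall fun z => ?_
    change F (HH m θ z) * dv (YY m J c τ) z = _
    rw [hdv z, Finset.mul_sum]
    apply Finset.sum_congr rfl
    intro u _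
    rw [Finset.mul_sum]
    apply Finset.sum_congr rfl
    intro u' _
    rw [Finset.mul_sum, Finset.mul_sum]
    apply Finset.sum_congr rfl
    intro x _
    ring
  rw [e0, integral_finsetSum _ (fun u _ => integrableOn_Bl (hc1 u) hr p)]
  apply Finset.sum_congr rfl
  intro u _
  rw [integral_finsetSum _ (fun u' _ => integrableOn_Bl (hc2 u u') hr p)]
  apply Finset.sum_congr rfl
  intro u' _
  rw [integral_finsetSum _ (fun x _ => integrableOn_Bl (hc3 u u' x) hr p), Finset.mul_sum]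
  apply Finset.sum_congr rfl
  intro x _
  rw [integral_const_mul, mul_assoc]

lemma small (J t t' : ℕ) (ht : t < J - 1) (ht' : t' < J - 1) (B : ℕ → ℕ → ℝ)
    (h0 : ∀ u < J - 1, ∀ u' < J - 1, (t < u ∨ t' < u') → B u u' = 0) (h1 : B t t' = 1) :
    ∀ᶠ τ : ℝ in 𝓝[>] 0, 0 < ∑ u ∈ Finset.range (J - 1), ∑ u' ∈ Finset.range (J - 1),
      τ ^ (2 * J - u - u') * B u u' := by
  let P : ℝ → ℝ := fun τ => ∑ u ∈ Finset.range (J - 1), ∑ u' ∈ Finset.range (J - 1),
    τ ^ ((t - u) + (t' - u')) * B u u'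
  have hP : Continuous P := by
    refine continuous_finsetSum _ fun u _ => continuous_finsetSum _ fun u' _ => ?_
    exact (continuous_pow _).mul continuous_const
  have hP0 : P 0 = 1 := by
    change ∑ u ∈ Finset.range (J - 1), ∑ u' ∈ Finset.range (J - 1),
      (0 : ℝ) ^ ((t - u) + (t' - u')) * B u u' = 1
    rw [Finset.sum_eq_single t, Finset.sum_eq_single t']
    · rw [h1]
      simp
    · intro u' hu' hne
      rw [Finset.mem_range] at hu'
      rcases Nat.lt_or_ge t' u' with h | h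
      · rw [h0 t ht u' hu' (Or.inr h), mul_zero]
      · rw [zero_pow (by omega), zero_mul]
    · intro hn
      exact absurd (Finset.mem_range.mpr ht') hn
    · intro u hu hne
      rw [Finset.mem_range] at hu
      apply Finset.sum_eq_zero
      intro u' hu'
      rw [Finset.mem_range] at hu'
      rcases Nat.lt_or_ge t u with h | h
      · rw [h0 u hu u' hu' (Or.inl h), mul_zero]
      · rw [zero_pow (by omega), zero_mul]
    · intro hn
      exact absurd (Finset.mem_range.mpr ht) hn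
  have hev : ∀ᶠ τ : ℝ in 𝓝[>] 0, 0 < P τ := by
    have hlt : ∀ᶠ τ : ℝ in 𝓝 0, 0 < P τ := by
      have h2 := hP.tendsto 0
      rw [hP0] at h2
      exact h2.eventually_const_lt one_pos
    exact hlt.filter_mono nhdsWithin_le_nhds
  have hpos : ∀ᶠ τ : ℝ in 𝓝[>] (0 : ℝ), 0 < τ := eventually_mem_nhdsWithin
  filter_upwards [hev, hpos] with τ hτ hτ0
  have e1 : ∑ u ∈ Finset.range (J - 1), ∑ u' ∈ Finset.range (J - 1),
      τ ^ (2 * J - u - u') * B u u' = τ ^ (2 * J - t - t') * P τ := by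
    change _ = τ ^ (2 * J - t - t') * ∑ u ∈ Finset.range (J - 1), ∑ u' ∈ Finset.range (J - 1),
      τ ^ ((t - u) + (t' - u')) * B u u'
    rw [Finset.mul_sum]
    apply Finset.sum_congr rfl
    intro u hu
    rw [Finset.mem_range] at hu
    rw [Finset.mul_sum]
    apply Finset.sum_congr rfl
    intro u' hu'
    rw [Finset.mem_range] at hu'
    by_cases hc : t < u ∨ t' < u'
    · rw [h0 u hu u' hu' hc, mul_zero, mul_zero, mul_zero]
    · rw [← mul_assoc, ← pow_add]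
      have : 2 * J - u - u' = 2 * J - t - t' + (t - u + (t' - u')) := by omega
      rw [this]
  rw [e1]
  positivity

lemma fam_facts {M N R : ℕ} {θ h : ℝ} {T : Finset (ℕ × ℕ)} {lo hi : ℕ → ℝ}
    {Φ ψ : ℕ → ℝ → ℝ} {c : ℕ × ℕ → ℝ} (hF : Fam M N θ h T R lo hi Φ ψ c) {k : ℕ} (hk : k < R) :
    Continuous (Φ k) ∧ ∀ t, h ≤ t → Φ k t = 0 := by
  have hw := hF.wt k hk
  refine ⟨continuous_iff_continuousAt.mpr fun t => (hw.der t).continuousAt, fun t ht => ?_⟩
  exact hw.top t ((hF.hi_lt k hk).le.trans ht)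

lemma box (hC : S_CHEB) (hL : S_LOC) (hB : S_BOX) {m J t a t' a' : ℕ} {r θ h : ℝ}
    (hm : 0 < m) (hd : 2 ^ (t + 2) ∣ m) (hd' : 2 ^ (t' + 2) ∣ m) (ha : a < 2 ^ t)
    (ha' : a' < 2 ^ t') (hG : Geo m J r) (ht : t < J - 1) (ht' : t' < J - 1) (hθ : 1 ≤ θ)
    (hh : h ≤ (m : ℝ) ^ 2 / Real.pi ^ 2 * r ^ 2) (F : ℝ → ℝ) (hF : Continuous F)
    (hF0 : ∀ t, h ≤ t → F t = 0) (u u' : ℕ) (x : ℕ × ℕ) :
    ∫ z in Bl (zr t a, zr t' a') r, F (HH m θ z) * (af u x.1 z.1 * af u' x.2 z.2) =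
      ∫ X in (al m t a)..(be m t a), ∫ Y in (al m t' a')..(be m t' a'),
        F (VV m X + θ * VV m Y) * (af u x.1 X * af u' x.2 Y) := by
  rw [Bl_eq]
  have hmR : (0 : ℝ) < m := by exact_mod_cast hm
  have hlam : (0 : ℝ) < (m : ℝ) ^ 2 / Real.pi ^ 2 := by positivity
  exact hB (zr t a, zr t' a') r (al m t a) (be m t a) (al m t' a') (be m t' a')
    ((m : ℝ) ^ 2 / Real.pi ^ 2) h θ (VV m) (af u x.1) (af u' x.2) F
    (cont_VV hC m) (cont_af hC u x.1) (cont_af hC u' x.2) hF hG.1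
    (hG.2.1 t a ht ha).1 (hG.2.1 t a ht ha).2 (hG.2.1 t' a' ht' ha').1 (hG.2.1 t' a' ht' ha').2
    hlam hθ (hL m t a hm hd ha).2.2.2.2.1 (hL m t' a' hm hd' ha').2.2.2.2.1 hh hF0

theorem main : S_SIGN := by
  intro hC hL hB hA2 hB2 hA hBv hDV s J r θ h t a t' a' c lo hi Φ ψ hs hG hθ ht ha ht' ha' hh hF
  have hm : 0 < s * 2 ^ J := by positivity
  have hd : 2 ^ (t + 2) ∣ s * 2 ^ J := (pow_dvd_pow 2 (by omega)).mul_left s
  have hd' : 2 ^ (t' + 2) ∣ s * 2 ^ J := (pow_dvd_pow 2 (by omega)).mul_left s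
  generalize s * 2 ^ J = m at *
  have hev : ∀ᶠ τ : ℝ in 𝓝[>] 0, ∀ k ∈ Finset.range (TT m t t').card,
      0 < (-1) ^ (k + a + a') * ∫ z in Bl (zr t a, zr t' a') r,
        Φ k (HH m θ z) * dv (YY m J c τ) z := by
    rw [Filter.eventually_all_finset]
    intro k hk
    rw [Finset.mem_range] at hk
    obtain ⟨hΦ, hΦ0⟩ := fam_facts hF hk
    have hI := fun u u' x => box hC hL hB hm hd hd' ha ha' hG ht ht' hθ hh (Φ k) hΦ hΦ0 u u' x
    have hsm := small J t t' ht ht' (fun u u' => (-1) ^ (k + a + a') *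
      ∑ x ∈ TT m u u', c u u' x * ∫ z in Bl (zr t a, zr t' a') r,
        Φ k (HH m θ z) * (af u x.1 z.1 * af u' x.2 z.2)) ?_ ?_
    · refine hsm.mono fun τ hτ => ?_
      rw [expand hC hDV m J c τ θ (zr t a, zr t' a') hG.1.le (Φ k) hΦ]
      refine lt_of_lt_of_eq hτ ?_
      rw [Finset.mul_sum]
      apply Finset.sum_congr rfl
      intro u _
      rw [Finset.mul_sum]
      apply Finset.sum_congr rfl
      intro u' _
      ring
    · intro u hu u' hu' hor
      rw [Finset.sum_eq_zero, mul_zero]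
      intro x _
      rw [hI u u' x, hB2 hC hL hBv m t a t' a' u u' hm hd ha hd' ha' hor x.1 x.2 θ (Φ k) hΦ,
        mul_zero]
    · have e1 : ∑ x ∈ TT m t t', c t t' x * (∫ z in Bl (zr t a, zr t' a') r,
          Φ k (HH m θ z) * (af t x.1 z.1 * af t' x.2 z.2)) =
          (-1) ^ (a + a') * ∑ x ∈ TT m t t',
            c t t' x * JJ (m / 2 ^ t) (m / 2 ^ t') θ (Φ k) x.1 x.2 := by
        rw [Finset.mul_sum]
        apply Finset.sum_congr rfl
        intro x _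
        rw [hI t t' x, hA2 hC hL hA m t a t' a' hm hd ha hd' ha' x.1 x.2 θ (Φ k) hΦ]
        ring
      rw [e1, hF.sgn k hk, ← pow_add, ← pow_add]
      have : k + a + a' + (a + a' + k) = 2 * (k + a + a') := by ring
      rw [this, pow_mul]
      norm_num
  refine hev.mono fun τ hτ k hk => hτ k (Finset.mem_range.mpr hk)

end Pool.Agent.H957.HN.PSign
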