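import Pool.Agent.H957.HN.Stm2

/-! The well around a critical point (S_WELL). -/

set_option autoImplicit false

open Set Filter Topology MeasureTheory

namespace Pool.Agent.H957.HN.PWellP

open Pool.Agent.H957.HN Pool.Agent.Y300

theorem sq_le_dot (v : ℝ × ℝ) : v.1 ^ 2 ≤ dot v v ∧ v.2 ^ 2 ≤ dot v v := by
  unfold dot
  constructor <;> nlinarith [sq_nonneg v.1, sq_nonneg v.2]

theorem box {x0 α β r x : ℝ} (hr : 0 < r) (h1 : α ≤ x0 - r) (h2 : x0 + r ≤ β) (h : (x - x0) ^ 2 ≤ r ^ 2) :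
    x ∈ Icc α β := by
  have h3 := abs_le_of_sq_le_sq h hr.le
  have := abs_le.1 h3
  constructor <;> linarith

theorem main : S_WELL := by
  intro _ hL hD s J r θ lo hi t a t' a' hs hG hθ ht ha ht' ha' hlo hlohi hhi
  obtain ⟨hr, hbox, -⟩ := hG
  set m : ℕ := s * 2 ^ J with hm
  have hm0 : 0 < m := Nat.mul_pos (by omega) (pow_pos (by norm_num) J)
  have hdiv : ∀ u : ℕ, u < J - 1 → 2 ^ (u + 2) ∣ m := fun u hu =>
    Dvd.dvd.mul_left (pow_dvd_pow 2 (by omega)) s
  obtain ⟨-, -, -, -, q5, q6, q7⟩ := hL m t a hm0 (hdiv t ht) ha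
  obtain ⟨-, -, -, -, q5', q6', q7'⟩ := hL m t' a' hm0 (hdiv t' ht') ha'
  obtain ⟨b1, b2⟩ := hbox t a ht ha
  obtain ⟨b1', b2'⟩ := hbox t' a' ht' ha'
  obtain ⟨d1, -, d3, -⟩ := hD ‹S_CHEB› m J (fun _ _ _ => 0) 0 θ
  set p : ℝ × ℝ := (zr t a, zr t' a') with hp
  have hHp : HH m θ p = 0 := by
    rw [HH, hp]
    simp only
    rw [q7, q7', mul_zero, add_zero]
  have hcont : Continuous (HH m θ) := d1.continuous
  have hopen : IsOpen {z | HH m θ z < lo} := isOpen_lt hcont continuous_const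
  obtain ⟨ε, hε, hball⟩ := Metric.isOpen_iff.1 hopen p (show HH m θ p < lo by rw [hHp]; exact hlo)
  refine ⟨min (ε / 2) (r / 2), ?_⟩
  have hr1 : 0 < min (ε / 2) (r / 2) := lt_min (by linarith) (by linarith)
  refine ⟨hr1, lt_of_le_of_lt (min_le_right _ _) (by linarith), hlohi, d1, ?_, ?_, ?_⟩
  · intro z hz
    rw [d3]
    obtain ⟨h1, h2⟩ := hz
    obtain ⟨s1, s2⟩ := sq_le_dot (z - p)
    have e1 : (z - p).1 = z.1 - zr t a := rfl
    have e2 : (z - p).2 = z.2 - zr t' a' := rfl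
    rw [e1] at s1
    rw [e2] at s2
    have m1 := box hr b1 b2 (s1.trans h2)
    have m2 := box hr b1' b2' (s2.trans h2)
    rw [e1, e2]
    have n1 : 0 ≤ -dC m z.1 * (z.1 - zr t a) := by
      rcases eq_or_ne z.1 (zr t a) with h | h
      · rw [h]; simp
      · exact (q6 z.1 m1 h).le
    have n2 : 0 ≤ -dC m z.2 * (z.2 - zr t' a') := by
      rcases eq_or_ne z.2 (zr t' a') with h | h
      · rw [h]; simp
      · exact (q6' z.2 m2 h).le
    have n3 : 0 < -dC m z.1 * (z.1 - zr t a) ∨ 0 < -dC m z.2 * (z.2 - zr t' a') := by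
      by_cases h : z.1 = zr t a
      · by_cases h' : z.2 = zr t' a'
        · exfalso
          have : dot (z - p) (z - p) = 0 := by
            unfold dot
            rw [e1, e2, h, h']
            simp
          rw [this] at h1
          have := pow_pos hr1 2
          linarith
        · exact Or.inr (q6' z.2 m2 h')
      · exact Or.inl (q6 z.1 m1 h)
    rcases n3 with n3 | n3
    · nlinarith
    · nlinarith
  · intro z hz
    have h1 := norm_sq_le_dot (z - p)
    have h2 : ‖z - p‖ ≤ min (ε / 2) (r / 2) := by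
      apply le_of_sq_le_sq (h1.trans hz) hr1.le
    have h3 : z ∈ Metric.ball p ε := by
      rw [mem_ball_iff_norm]
      exact lt_of_le_of_lt (h2.trans (min_le_left _ _)) (by linarith)
    exact hball h3
  · intro z hz
    obtain ⟨s1, s2⟩ := sq_le_dot (z - p)
    have e1 : (z - p).1 = z.1 - zr t a := rfl
    have e2 : (z - p).2 = z.2 - zr t' a' := rfl
    rw [e1, hz] at s1
    rw [e2, hz] at s2
    have m1 := q5 z.1 (box hr b1 b2 s1)
    have m2 := q5' z.2 (box hr b1' b2' s2)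
    have e3 : (z.1 - zr t a) ^ 2 + (z.2 - zr t' a') ^ 2 = r ^ 2 := by
      rw [← hz]
      unfold dot
      rw [e1, e2]
      ring
    have n0 : 0 ≤ (m : ℝ) ^ 2 / Real.pi ^ 2 * (z.2 - zr t' a') ^ 2 := by positivity
    have n2 : (m : ℝ) ^ 2 / Real.pi ^ 2 * (z.2 - zr t' a') ^ 2 ≤ θ * VV m z.2 := by
      have h5 : 0 ≤ VV m z.2 := n0.trans m2
      nlinarith
    rw [HH]
    rw [← e3] at hhi
    nlinarith

end Pool.Agent.H957.HN.PWellP
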