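import Pool.Agent.H957.HN.Top
import Pool.Agent.H957.HN.Abel
import Pool.Agent.H957.HN.Alg
import Pool.Agent.H957.HN.All
import Pool.Agent.H957.HN.Asym
import Pool.Agent.H957.HN.Box
import Pool.Agent.H957.HN.Bump
import Pool.Agent.H957.HN.Card
import Pool.Agent.H957.HN.Cheb
import Pool.Agent.H957.HN.Choice
import Pool.Agent.H957.HN.Cnt
import Pool.Agent.H957.HN.Coef
import Pool.Agent.H957.HN.Crit
import Pool.Agent.H957.HN.Der
import Pool.Agent.H957.HN.Dv
import Pool.Agent.H957.HN.Ev2a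
import Pool.Agent.H957.HN.Ev2b
import Pool.Agent.H957.HN.Eva
import Pool.Agent.H957.HN.Evb
import Pool.Agent.H957.HN.GeoP
import Pool.Agent.H957.HN.Indn
import Pool.Agent.H957.HN.Inj
import Pool.Agent.H957.HN.InvP
import Pool.Agent.H957.HN.Iter
import Pool.Agent.H957.HN.Layer
import Pool.Agent.H957.HN.Lim
import Pool.Agent.H957.HN.Limw
import Pool.Agent.H957.HN.Loc
import Pool.Agent.H957.HN.Nnc
import Pool.Agent.H957.HN.One
import Pool.Agent.H957.HN.Poly
import Pool.Agent.H957.HN.Pts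
import Pool.Agent.H957.HN.Sign
import Pool.Agent.H957.HN.WellP
import Pool.Graph.R_seed8.H709R2.PolyLine

/-! Project HN (helper957): all parts together. -/

set_option autoImplicit false

open Set MeasureTheory Topology Filter

namespace Pool.Agent.H957.HN

open Pool.Agent
open Pool.Agent.Y300
open Pool.Agent.H709R2 (field)

theorem all (n s J : ℕ) (hs : 1 ≤ s) (hJ : 2 ≤ J) (hn : s * 2 ^ J ≤ n + 1) :
    ∃ P Q : MvPolynomial (Fin 2) ℝ, P.totalDegree ≤ n ∧ Q.totalDegree ≤ n ∧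
      {C | ClosedOrbit (field P Q) C}.Finite ∧
      ((cnt (s * 2 ^ J) J : ℕ) : ℕ∞) ≤ {C | ClosedOrbit (field P Q) C}.encard :=
  top PCheb.main (PLoc.main PCheb.main) PInj.main PEva.main PEvb.main PGeoP.main PBox.main
    PEv2a.main PEv2b.main PInvP.main PCrit.main PAlg.main PAbel.main PDer.main PIter.main
    PIndn.main PLim.main PLayer.main PLimw.main PNnc.main PPts.main PBump.main PCoef.main
    PCard.main PDv.main PPoly.main PWellP.main PSign.main POne.main PAll.main PChoice.main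
    n s J hs hJ hn

theorem count (s J : ℕ) (hs : 1 ≤ s) (hJ : 2 ≤ J) :
    ((s * 2 ^ J : ℕ) : ℝ) ^ 2 * (((J : ℝ) - 1) ^ 2 - 4) / 8 ≤ (cnt (s * 2 ^ J) J : ℝ) :=
  PCnt.main PCard.main s J hs hJ

theorem asym : S_ASYM := PAsym.main

end Pool.Agent.H957.HN
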