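import Pool.Agent.H957.HN.Stm

set_option autoImplicit false

open Set

namespace Pool.Agent.H957.HN.PPts

theorem main : S_PTS := by
  intro R f h hh hind
  let v : Ioo (0 : ℝ) h → (Fin R → ℝ) := fun c i => f i c
  have hspan : Submodule.span ℝ (range v) = ⊤ := by
    by_contra hne
    obtain ⟨g, hg0, hg⟩ := Submodule.exists_le_ker_of_lt_top _ (lt_top_iff_ne_top.mpr hne)
    have hgw : ∀ w : Fin R → ℝ, g w = ∑ i, g (Pi.single i 1) * w i := by
      intro w
      conv_lhs => rw [← Finset.univ_sum_single w]
      rw [map_sum]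
      refine Finset.sum_congr rfl fun i _ => ?_
      have h1 : (Pi.single i (w i) : Fin R → ℝ) = w i • Pi.single i 1 := by
        rw [← Pi.single_smul, smul_eq_mul, mul_one]
      rw [h1, map_smul, smul_eq_mul, mul_comm]
    have hl : (fun i => g (Pi.single i 1)) = 0 := by
      apply hind
      intro c hc
      have h2 : g (v ⟨c, hc⟩) = 0 := hg (Submodule.subset_span ⟨⟨c, hc⟩, rfl⟩)
      rw [hgw] at h2
      exact h2
    apply hg0
    apply LinearMap.ext
    intro w
    rw [hgw, LinearMap.zero_apply]
    apply Finset.sum_eq_zero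
    intro i _
    have h3 := congrFun hl i
    simp only [Pi.zero_apply] at h3
    rw [h3, zero_mul]
  obtain ⟨κ, a, ha, hs, hli⟩ := exists_linearIndependent' ℝ v
  rw [hspan] at hs
  let b := Module.Basis.mk hli hs.ge
  have hfin : Fintype κ := FiniteDimensional.fintypeBasisIndex b
  have hcard : Fintype.card κ = R := by
    rw [← Module.finrank_eq_card_basis b]
    simp
  have hPinj : Function.Injective (fun k : κ => ((a k : Ioo (0 : ℝ) h) : ℝ)) :=
    Subtype.val_injective.comp ha
  have hsc : (Finset.univ.image (fun k : κ => ((a k : Ioo (0 : ℝ) h) : ℝ))).card = R := by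
    rw [Finset.card_image_of_injective _ hPinj, Finset.card_univ, hcard]
  let c := (Finset.univ.image (fun k : κ => ((a k : Ioo (0 : ℝ) h) : ℝ))).orderEmbOfFin hsc
  have hc : ∀ l, ∃ k : κ, ((a k : Ioo (0 : ℝ) h) : ℝ) = c l := by
    intro l
    have h1 := Finset.orderEmbOfFin_mem _ hsc l
    rw [Finset.mem_image] at h1
    obtain ⟨k, _, hk⟩ := h1
    exact ⟨k, hk⟩
  choose k hk using hc
  have hkinj : Function.Injective k := by
    intro l l' hll
    apply c.injective
    rw [← hk l, ← hk l', hll]
  refine ⟨c, c.strictMono, fun l => ?_, ?_⟩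
  · rw [← hk l]
    exact (a (k l)).2
  · have h1 : LinearIndependent ℝ (fun l => v (a (k l))) := hli.comp k hkinj
    have h2 : (Matrix.of fun l i => f i (c l)).row = fun l => v (a (k l)) := by
      funext l i
      show f i (c l) = f i (a (k l))
      rw [hk l]
    rw [← h2, Matrix.linearIndependent_rows_iff_isUnit, Matrix.isUnit_iff_isUnit_det] at h1
    exact h1.ne_zero

end Pool.Agent.H957.HN.PPts
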