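import Mathlib

/-! Project HN (helper957): Hilbert numbers, `H_n ≥ c n² (log n)²`.

`Cf n (2 cos φ) = 2 cos (n φ)`. The unperturbed Hamiltonian is `(2 - Cf m x) + θ (2 - Cf m y)`,
`m = s 2 ^ J`. Its minima in the open square are the points `(zr t a, zr t' a')`, `zr t a` being the
zeros of `Cf (2 ^ t)`, `t ≤ J - 2`. -/

set_option autoImplicit false

open Set Filter Topology MeasureTheory Polynomial

namespace Pool.Agent.H957.HN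

/-- rescaled Chebyshev polynomial -/
noncomputable def Cp (n : ℕ) : ℝ[X] := Polynomial.Chebyshev.C ℝ (n : ℤ)

/-- its values: `Cf n (2 cos φ) = 2 cos (n φ)` -/
noncomputable def Cf (n : ℕ) (x : ℝ) : ℝ := (Cp n).eval x

/-- the derivative -/
noncomputable def dC (n : ℕ) (x : ℝ) : ℝ := (Cp n).derivative.eval x

/-- the potential -/
noncomputable def VV (M : ℕ) (X : ℝ) : ℝ := 2 - Cf M X

/-- end point of the basic interval: `VV M (ee M) = 2` if `4 ∣ M` -/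
noncomputable def ee (M : ℕ) : ℝ := 2 * Real.sin (Real.pi / (2 * M))

/-- angle of the zero number `a` of `Cf (2 ^ t)` -/
noncomputable def ph0 (t a : ℕ) : ℝ := Real.pi * (2 * a + 1) / 2 ^ (t + 1)

/-- the zeros of `Cf (2 ^ t)` (for `a < 2 ^ t`) -/
noncomputable def zr (t a : ℕ) : ℝ := 2 * Real.cos (ph0 t a)

noncomputable def al (m t a : ℕ) : ℝ := 2 * Real.cos (ph0 t a + Real.pi / (2 * m))

noncomputable def be (m t a : ℕ) : ℝ := 2 * Real.cos (ph0 t a - Real.pi / (2 * m))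

/-- derivative of `Cf (2 ^ t) ^ (2 p + 1) / (2 p + 1)` -/
noncomputable def af (t p : ℕ) (x : ℝ) : ℝ := Cf (2 ^ t) x ^ (2 * p) * dC (2 ^ t) x

/-- integrals of the perturbation over the basic rectangle, with a weight -/
noncomputable def JJ (M N : ℕ) (θ : ℝ) (Φ : ℝ → ℝ) (p q : ℕ) : ℝ :=
  ∫ X in (-(ee M))..(ee M), ∫ Y in (-(ee N))..(ee N),
    Φ (VV M X + θ * VV N Y) * (X ^ (2 * p) * Y ^ (2 * q))

/-- limit functions for `θ → ∞` -/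
noncomputable def NN (M p q : ℕ) (c : ℝ) : ℝ :=
  ∫ X in (-(ee M))..(ee M), X ^ (2 * p) * (√(c - VV M X)) ^ (2 * q + 1)

/-- their Abel transforms (used for `k ≥ 1`) -/
noncomputable def BB (M p k : ℕ) (t : ℝ) : ℝ :=
  ∫ X in (-(ee M))..(ee M), X ^ (2 * p) * (max 0 (t - VV M X)) ^ k

/-- weights: `Φ t = ∫_t^∞ ψ`, `ψ ≥ 0` with support in `(lo, hi)` -/
structure Wt (lo hi : ℝ) (Φ ψ : ℝ → ℝ) : Prop where
  lt : lo < hi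
  der : ∀ t, HasDerivAt Φ (-ψ t) t
  cont : Continuous ψ
  nonneg : ∀ t, 0 ≤ ψ t
  supp : ∀ t, t ∉ Ioo lo hi → ψ t = 0
  top : ∀ t, hi ≤ t → Φ t = 0

/-- the index set of the perturbations of level `(t, t')` -/
def TT (m t t' : ℕ) : Finset (ℕ × ℕ) :=
  ((Finset.range m) ×ˢ (Finset.range m)).filter fun x =>
    2 ^ t * (2 * x.1 + 1) + 2 ^ t' * (2 * x.2 + 1) ≤ m

/-! ### A. geometry in one variable -/

/-- A1. Basic facts about the Chebyshev polynomials. (Mathlib: `Chebyshev.C_two_mul_real_cos`,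
`Chebyshev.C_mul`.) -/
def S_CHEB : Prop :=
  (∀ (n : ℕ) (φ : ℝ), Cf n (2 * Real.cos φ) = 2 * Real.cos (n * φ)) ∧
  (∀ (n : ℕ) (φ : ℝ), dC n (2 * Real.cos φ) * Real.sin φ = n * Real.sin (n * φ)) ∧
  (∀ (k l : ℕ) (x : ℝ), Cf (k * l) x = Cf k (Cf l x)) ∧
  (∀ (k l : ℕ) (x : ℝ), dC (k * l) x = dC k (Cf l x) * dC l x) ∧
  (∀ (n : ℕ) (x : ℝ), HasDerivAt (Cf n) (dC n x) x) ∧
  (∀ (n : ℕ) (x : ℝ), Even n → Cf n (-x) = Cf n x ∧ dC n (-x) = -dC n x) ∧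
  (∀ n : ℕ, (Cp n).natDegree = n) ∧
  (∀ n : ℕ, Continuous (Cf n) ∧ Continuous (dC n))

/-- A2. Local structure at the critical point `zr t a`. With `φ₀ = ph0 t a`, `x = 2 cos φ`,
`|φ - φ₀| ≤ π / (2 m)`, one has `m φ₀ ∈ 2 π ℤ`, `VV m x = 4 sin² (m (φ - φ₀) / 2)`, and
`Cf (2 ^ t) x = 2 cos (2 ^ t φ) = -2 (-1) ^ a sin (2 ^ t (φ - φ₀))`. For the fifth item use
`sin s ≥ 2 s / π` (`0 ≤ s ≤ π / 2`) and `|x - zr t a| ≤ 2 |φ - φ₀|`; for the sixth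
`dC m x = m sin (m (φ - φ₀)) / sin φ`. -/
def S_LOC : Prop := ∀ m t a : ℕ, 0 < m → 2 ^ (t + 2) ∣ m → a < 2 ^ t →
  al m t a < zr t a ∧ zr t a < be m t a ∧
  Cf (2 ^ t) (al m t a) = -((-1) ^ a * ee (m / 2 ^ t)) ∧
  Cf (2 ^ t) (be m t a) = (-1) ^ a * ee (m / 2 ^ t) ∧
  (∀ x ∈ Icc (al m t a) (be m t a), (m : ℝ) ^ 2 / Real.pi ^ 2 * (x - zr t a) ^ 2 ≤ VV m x) ∧
  (∀ x ∈ Icc (al m t a) (be m t a), x ≠ zr t a → 0 < -dC m x * (x - zr t a)) ∧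
  VV m (zr t a) = 0

/-- A3. The critical points are different. -/
def S_INJ : Prop := ∀ t a t' a' : ℕ, a < 2 ^ t → a' < 2 ^ t' → zr t a = zr t' a' → t = t' ∧ a = a'

/-- A4. Substitution `X = Cf (2 ^ t) x` (`VV m x = VV (m / 2 ^ t) X`, the end points are given in
A2; `intervalIntegral.integral_comp_mul_deriv`). -/
def S_EVA : Prop := S_CHEB → S_LOC → ∀ m t a : ℕ, 0 < m → 2 ^ (t + 2) ∣ m → a < 2 ^ t →
  ∀ (p : ℕ) (Ψ : ℝ → ℝ), Continuous Ψ →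
  ∫ x in (al m t a)..(be m t a), Ψ (VV m x) * af t p x =
    (-1) ^ a * ∫ X in (-(ee (m / 2 ^ t)))..(ee (m / 2 ^ t)), Ψ (VV (m / 2 ^ t) X) * X ^ (2 * p)

/-- A5. The perturbations of level `t' > t` do not act at the critical points of level `t`: by the
substitution `X = Cf (2 ^ t) x` one gets the integral of an odd function of `X` over a symmetric
interval (`Cf (2 ^ t') x = Cf (2 ^ (t' - t)) X` is even in `X`). -/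
def S_EVB : Prop := S_CHEB → S_LOC → ∀ m t a t' : ℕ, 0 < m → 2 ^ (t + 2) ∣ m → a < 2 ^ t → t < t' →
  ∀ (p : ℕ) (Ψ : ℝ → ℝ), Continuous Ψ → ∫ x in (al m t a)..(be m t a), Ψ (VV m x) * af t' p x = 0

/-- A6. One radius for all critical points of levels `t < J - 1` (finitely many points). -/
def Geo (m J : ℕ) (r : ℝ) : Prop := 0 < r ∧
  (∀ t a : ℕ, t < J - 1 → a < 2 ^ t → al m t a ≤ zr t a - r ∧ zr t a + r ≤ be m t a) ∧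
  (∀ t a t' a' : ℕ, t < J - 1 → a < 2 ^ t → t' < J - 1 → a' < 2 ^ t' → (t, a) ≠ (t', a') →
    2 * r < |zr t a - zr t' a'|)

def S_GEO : Prop := S_LOC → S_INJ → ∀ s J : ℕ, 1 ≤ s → 2 ≤ J → ∃ r : ℝ, Geo (s * 2 ^ J) J r

/-! ### B. integrals in two variables -/

/-- B1. From the disc to the rectangle: on the part of the rectangle outside the disc the argument
of `Φ` is `≥ lam r² ≥ h`, where `Φ = 0`. -/
def S_BOX : Prop := ∀ (p : ℝ × ℝ) (r α β α' β' lam h θ : ℝ) (g a b Φ : ℝ → ℝ),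
  Continuous g → Continuous a → Continuous b → Continuous Φ → 0 < r →
  α ≤ p.1 - r → p.1 + r ≤ β → α' ≤ p.2 - r → p.2 + r ≤ β' → 0 < lam → 1 ≤ θ →
  (∀ x ∈ Icc α β, lam * (x - p.1) ^ 2 ≤ g x) → (∀ y ∈ Icc α' β', lam * (y - p.2) ^ 2 ≤ g y) →
  h ≤ lam * r ^ 2 → (∀ t, h ≤ t → Φ t = 0) →
  ∫ z in {z : ℝ × ℝ | (z.1 - p.1) ^ 2 + (z.2 - p.2) ^ 2 < r ^ 2},
      Φ (g z.1 + θ * g z.2) * (a z.1 * b z.2) =
    ∫ x in α..β, ∫ y in α'..β', Φ (g x + θ * g y) * (a x * b y)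

/-- B2. Value of the double integral for the perturbations of the level of the critical point: A4
twice, first in `y` with `Ψ u = Φ (VV m x + θ u)`, then in `x` with
`Ψ u = ∫ Y, Φ (u + θ VV N Y) Y ^ (2 q)` (which is continuous). -/
def S_EV2A : Prop := S_CHEB → S_LOC → S_EVA → ∀ m t a t' a' : ℕ, 0 < m →
  2 ^ (t + 2) ∣ m → a < 2 ^ t → 2 ^ (t' + 2) ∣ m → a' < 2 ^ t' →
  ∀ (p q : ℕ) (θ : ℝ) (Φ : ℝ → ℝ), Continuous Φ →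
  ∫ x in (al m t a)..(be m t a), ∫ y in (al m t' a')..(be m t' a'),
      Φ (VV m x + θ * VV m y) * (af t p x * af t' q y) =
    (-1) ^ (a + a') * JJ (m / 2 ^ t) (m / 2 ^ t') θ Φ p q

/-- B3. The other levels: if `t < u` or `t' < u'` the double integral is zero (A5). -/
def S_EV2B : Prop := S_CHEB → S_LOC → S_EVB → ∀ m t a t' a' u u' : ℕ, 0 < m →
  2 ^ (t + 2) ∣ m → a < 2 ^ t → 2 ^ (t' + 2) ∣ m → a' < 2 ^ t' → (t < u ∨ t' < u') →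
  ∀ (p q : ℕ) (θ : ℝ) (Φ : ℝ → ℝ), Continuous Φ →
  ∫ x in (al m t a)..(be m t a), ∫ y in (al m t' a')..(be m t' a'),
      Φ (VV m x + θ * VV m y) * (af u p x * af u' q y) = 0

/-! ### C. independence of the functions `NN M p q` -/

/-- the inverse function of `VV M` on `(0, 2)` -/
structure Inv (M : ℕ) (x : ℝ → ℝ) : Prop where
  mem : ∀ t ∈ Ioo (0:ℝ) 2, x t ∈ Ioo 0 (ee M)
  val : ∀ t ∈ Ioo (0:ℝ) 2, VV M (x t) = t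
  neg : ∀ t ∈ Ioo (0:ℝ) 2, dC M (x t) < 0
  der : ∀ t ∈ Ioo (0:ℝ) 2, HasDerivAt x (1 / (-dC M (x t))) t
  lev : ∀ t ∈ Ioo (0:ℝ) 2, ∀ X ∈ Icc (-(ee M)) (ee M), VV M X < t ↔ |X| < x t

/-- C1. `VV M (2 sin ω) = 4 sin² (M ω / 2)` is strictly increasing for `0 ≤ ω ≤ π / (2 M)`. -/
def S_INV : Prop := S_CHEB → ∀ M : ℕ, 0 < M → 4 ∣ M → ∃ x : ℝ → ℝ, Inv M x

/-- C2. The critical points `2 cos (π b / M)`, `0 < b < M`, of `Cp M`. -/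
def S_CRIT : Prop := S_CHEB → ∀ M : ℕ, 2 ≤ M → ∃ S : Finset ℝ, S.card = M - 1 ∧
  ∀ b ∈ S, (Cp M).derivative.eval b = 0 ∧ (Cp M).derivative.derivative.eval b ≠ 0

/-- C3. Algebraic independence argument. Put `W = V.derivative`. On the interval, for `n ≥ 1`,
`iteratedDeriv n (x ^ (2 p + 1)) t * W (x t) ^ (2 n - 1) = P_{p,n} (x t)` with the polynomials
`P_{p,1} = (2 p + 1) X ^ (2 p)`, `P_{p,n+1} = P_{p,n}' W - (2 n - 1) P_{p,n} W'`. Let `n₀` be the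
largest `n` such that some `μ p n ≠ 0`. If `n₀ ≥ 1` multiply the relation by `W (x t) ^ (2 n₀ - 1)`:
a polynomial vanishes at all `x t`, i.e. at infinitely many points (`x` is continuous and not
constant), hence identically. At `b ∈ S` only `n = n₀` remains, and
`P_{p,n₀} (b) = (2 p + 1) b ^ (2 p) κ (b)`, `κ (b) = ∏ (-(2 m - 1) W' (b)) ≠ 0`. Hence the
polynomial `∑ p < D, μ p n₀ (2 p + 1) X ^ (2 p)` of degree `≤ 2 D - 2 < S.card` vanishes on `S`. If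
`n₀ = 0` the relation is a polynomial relation for `x t`. -/
def S_ALG : Prop := ∀ (V : ℝ[X]) (D Q : ℕ) (S : Finset ℝ) (x : ℝ → ℝ) (t₀ t₁ : ℝ)
  (μ : ℕ → ℕ → ℝ),
  (∀ b ∈ S, V.derivative.eval b = 0 ∧ V.derivative.derivative.eval b ≠ 0) →
  2 * D ≤ S.card + 1 → t₀ < t₁ →
  (∀ t ∈ Ioo t₀ t₁, V.derivative.eval (x t) ≠ 0 ∧
    HasDerivAt x (1 / V.derivative.eval (x t)) t) →
  (∀ t ∈ Ioo t₀ t₁, ∑ p ∈ Finset.range D, ∑ n ∈ Finset.range (Q + 1),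
    μ p n * iteratedDeriv n (fun s => x s ^ (2 * p + 1)) t = 0) →
  ∀ p < D, ∀ n ≤ Q, μ p n = 0

/-- C4. Abel transform: `∫_0^t (√(c - V)) ^ (2 q + 1) / √(t - c) dc = β_q (t - V)_+ ^ (q + 1)` for
`V ≥ 0`, `β_q = ∫_0^1 v ^ (q + 1/2) (1 - v) ^ (-1/2) dv`, and Fubini (`VV M ≥ 0` on `[-2, 2]`). -/
def S_ABEL : Prop := S_CHEB → ∃ β : ℕ → ℝ, (∀ q, 0 < β q) ∧ ∀ (M p q : ℕ) (t : ℝ), 0 < M → 0 < t →
  IntervalIntegrable (fun c => NN M p q c / √(t - c)) volume 0 t ∧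
  ∫ c in (0:ℝ)..t, NN M p q c / √(t - c) = β q * BB M p (q + 1) t

/-- C5. derivatives of `BB` -/
def S_DER : Prop := S_CHEB → ∀ (M p : ℕ) (x : ℝ → ℝ), 0 < M → 4 ∣ M → Inv M x →
  (∀ (k : ℕ) (t : ℝ), 1 ≤ k → HasDerivAt (BB M p (k + 1)) ((k + 1) * BB M p k t) t) ∧
  (∀ t ∈ Ioo (0:ℝ) 2, HasDerivAt (BB M p 1) (2 / (2 * p + 1) * x t ^ (2 * p + 1)) t)

/-- C6. iterated derivatives of `BB` -/
def S_ITER : Prop := S_CHEB → S_DER → ∀ (M p q : ℕ) (x : ℝ → ℝ), 0 < M → 4 ∣ M → Inv M x →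
  ContDiffOn ℝ (⊤ : ℕ∞) (BB M p (q + 1)) (Ioo 0 2) ∧
  ∀ k : ℕ, ∀ t ∈ Ioo (0:ℝ) 2, iteratedDeriv (q + 1 + k) (BB M p (q + 1)) t =
    ((q + 1).factorial : ℝ) * (2 / (2 * p + 1)) *
      iteratedDeriv k (fun s => x s ^ (2 * p + 1)) t

/-- C7. Independence: by C4 `∑ lam p q β_q BB M p (q + 1) = 0` on `(0, h)`; take the iterated
derivative of order `Q + 1` by C6 and apply C3 with `V = 2 - Cp M`, `D = M / 2`,
`μ p n = lam p (Q - n) β_(Q-n) (Q - n + 1)! 2 / (2 p + 1)` and C2. -/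
def S_INDN : Prop := S_CHEB → S_INV → S_CRIT → S_ALG → S_ABEL → S_DER → S_ITER →
  ∀ (M Q : ℕ) (h : ℝ) (lam : ℕ → ℕ → ℝ), 0 < M → 4 ∣ M → 0 < h → h ≤ 2 →
  (∀ c ∈ Ioo 0 h, ∑ p ∈ Finset.range (M / 2), ∑ q ∈ Finset.range (Q + 1),
    lam p q * NN M p q c = 0) →
  ∀ p < M / 2, ∀ q ≤ Q, lam p q = 0

/-! ### D. choice of the weights and of the coefficients -/

/-- D1. the limit `θ → ∞`: put `Y = Z / √θ`; `θ VV N (Z / √θ) → N² Z² / 4`, and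
`VV N Y ≥ N² Y² / π²` on `[-ee N, ee N]` (A2 with `t = a = 0`, `zr 0 0 = 0`) gives a dominating
function with compact support. -/
def S_LIM : Prop := S_CHEB → S_LOC → ∀ (M N p q : ℕ) (Φ : ℝ → ℝ), 0 < M → 4 ∣ M → 0 < N → 4 ∣ N →
  Continuous Φ → (∀ t, 2 ≤ t → Φ t = 0) →
  Tendsto (fun θ : ℝ => θ ^ ((q : ℝ) + 1 / 2) * JJ M N θ Φ p q) atTop
    (𝓝 (∫ X in (-(ee M))..(ee M),
      (∫ Z : ℝ, Φ (VV M X + (N : ℝ) ^ 2 / 4 * Z ^ 2) * Z ^ (2 * q)) * X ^ (2 * p)))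

/-- D2. `Φ t = ∫ c, ψ c 1_{t < c}` and Fubini -/
def S_LAYER : Prop := ∀ (lo hi γ s : ℝ) (Φ ψ : ℝ → ℝ) (q : ℕ), Wt lo hi Φ ψ → 0 < γ →
  ∫ Z : ℝ, Φ (s + γ * Z ^ 2) * Z ^ (2 * q) =
    2 / ((2 * q + 1) * γ ^ ((q : ℝ) + 1 / 2)) *
      ∫ c in lo..hi, ψ c * (√(c - s)) ^ (2 * q + 1)

/-- the constant of the limit -/
noncomputable def kq (N q : ℕ) : ℝ := 2 / ((2 * q + 1) * ((N : ℝ) ^ 2 / 4) ^ ((q : ℝ) + 1 / 2))

/-- D3. D1, D2 and Fubini -/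
def S_LIMW : Prop := S_CHEB → S_LOC → S_LIM → S_LAYER →
  ∀ (M N p q : ℕ) (lo hi : ℝ) (Φ ψ : ℝ → ℝ), 0 < M → 4 ∣ M → 0 < N → 4 ∣ N →
  Wt lo hi Φ ψ → hi ≤ 2 →
  Tendsto (fun θ : ℝ => θ ^ ((q : ℝ) + 1 / 2) * JJ M N θ Φ p q) atTop
    (𝓝 (kq N q * ∫ c in lo..hi, ψ c * NN M p q c))

/-- D4. -/
def S_NNC : Prop := ∀ M p q : ℕ, Continuous (NN M p q)

/-- D5. Independent functions have a nonsingular matrix of values at suitable points. -/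
def S_PTS : Prop := ∀ (R : ℕ) (f : Fin R → ℝ → ℝ) (h : ℝ), 0 < h →
  (∀ lam : Fin R → ℝ, (∀ c ∈ Ioo 0 h, ∑ i, lam i * f i c = 0) → lam = 0) →
  ∃ c : Fin R → ℝ, StrictMono c ∧ (∀ l, c l ∈ Ioo 0 h) ∧
    (Matrix.of fun l i => f i (c l)).det ≠ 0

/-- D6. Narrow weights around the points (e.g. `ψ t = max 0 (η - |t - c l|) / η²`, integral one,
`η → 0`). -/
def S_BUMP : Prop := ∀ (R : ℕ) (f : Fin R → ℝ → ℝ) (h : ℝ) (c : Fin R → ℝ),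
  (∀ i, Continuous (f i)) → StrictMono c → (∀ l, c l ∈ Ioo 0 h) →
  (Matrix.of fun l i => f i (c l)).det ≠ 0 →
  ∃ (lo hi : Fin R → ℝ) (Φ ψ : Fin R → ℝ → ℝ),
    (∀ l, 0 < lo l ∧ hi l < h ∧ Wt (lo l) (hi l) (Φ l) (ψ l)) ∧
    (∀ l l', l < l' → hi l ≤ lo l') ∧
    (Matrix.of fun l i => ∫ c in (lo l)..(hi l), ψ l c * f i c).det ≠ 0

/-- a family of weights (numbers `k < R`) and coefficients with prescribed signs -/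
structure Fam (M N : ℕ) (θ h : ℝ) (T : Finset (ℕ × ℕ)) (R : ℕ) (lo hi : ℕ → ℝ)
    (Φ ψ : ℕ → ℝ → ℝ) (c : ℕ × ℕ → ℝ) : Prop where
  lo_pos : ∀ k < R, 0 < lo k
  hi_lt : ∀ k < R, hi k < h
  wt : ∀ k < R, Wt (lo k) (hi k) (Φ k) (ψ k)
  ord : ∀ k, k + 1 < R → hi k ≤ lo (k + 1)
  sgn : ∀ k < R, ∑ x ∈ T, c x * JJ M N θ (Φ k) x.1 x.2 = (-1) ^ k

/-- D7. Choice of weights and coefficients: the functions `kq N q * NN M p q`, `(p, q) ∈ T`, are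
independent on `(0, h)` (C7); take the points of D5 and the weights of D6; by D3 the determinant of
the matrix `θ ^ (q + 1/2) JJ M N θ (Φ l) p q` is nonzero for large `θ`; solve the linear system. -/
def S_COEF : Prop := S_CHEB → S_INDN → S_LIMW → S_NNC → S_PTS → S_BUMP →
  (S_INV ∧ S_CRIT ∧ S_ALG ∧ S_ABEL ∧ S_DER ∧ S_ITER ∧ S_LOC ∧ S_LIM ∧ S_LAYER) →
  ∀ (M N Q : ℕ) (h : ℝ) (T : Finset (ℕ × ℕ)), 0 < M → 4 ∣ M → 0 < N → 4 ∣ N → 0 < h → h ≤ 2 →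
  (∀ x ∈ T, x.1 < M / 2 ∧ x.2 ≤ Q) →
  ∀ᶠ θ : ℝ in atTop, ∃ (lo hi : ℕ → ℝ) (Φ ψ : ℕ → ℝ → ℝ) (c : ℕ × ℕ → ℝ),
    Fam M N θ h T T.card lo hi Φ ψ c

/-! ### E. counting -/

/-- E1. -/
def S_CARD : Prop := ∀ m t t' : ℕ, 0 < m → 2 ^ (t + 2) ∣ m → 2 ^ (t' + 2) ∣ m →
  m ^ 2 ≤ 8 * 2 ^ (t + t') * (TT m t t').card ∧
  ∀ x ∈ TT m t t', x.1 < m / 2 ^ t / 2 ∧ x.2 < m / 2 ^ t' / 2

/-- number of limit cycles obtained -/
def cnt (m J : ℕ) : ℕ := ∑ t ∈ Finset.range (J - 1), ∑ t' ∈ Finset.range (J - 1),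
  2 ^ t * 2 ^ t' * ((TT m t t').card - 2)

/-- E2. -/
def S_CNT : Prop := S_CARD → ∀ s J : ℕ, 1 ≤ s → 2 ≤ J →
  ((s * 2 ^ J : ℕ) : ℝ) ^ 2 * (((J : ℝ) - 1) ^ 2 - 4) / 8 ≤ (cnt (s * 2 ^ J) J : ℝ)

/-- E3. Given a large constant `A` put `J = Nat.log 2 (n + 1) - A`, `s = (n + 1) / 2 ^ J`, so that
`2 ^ A ≤ s`, `s 2 ^ J ≥ (n + 1) (1 - 2 ^ (-A))` and `J ≥ log (n + 1) / log 2 - 1 - A`. -/
def S_ASYM : Prop := ∀ c : ℝ, c < 1 / (8 * Real.log 2 ^ 2) → ∃ n₀ : ℕ, ∀ n ≥ n₀, ∃ s J : ℕ,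
  1 ≤ s ∧ 2 ≤ J ∧ s * 2 ^ J ≤ n + 1 ∧
  c * (n : ℝ) ^ 2 * Real.log n ^ 2 ≤ ((s * 2 ^ J : ℕ) : ℝ) ^ 2 * (((J : ℝ) - 1) ^ 2 - 4) / 8

end Pool.Agent.H957.HN
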