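import Pool.Agent.H957.HN.Stm
import Pool.Graph.R_seed8.Y300.Green
import Pool.Graph.R_seed8.Y300.Poly

/-! Project HN (helper957), dynamical part. The library (`Pool.Graph.R_seed8.Y300`) contains
`Many H Y K N`, `Well`, `Well.many`, `Many.biUnion`, `Pw`, `exists_mv`. -/

set_option autoImplicit false

open Set Filter Topology MeasureTheory

namespace Pool.Agent.H957.HN

open Pool.Agent.Y300

/-- the Hamiltonian -/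
noncomputable def HH (m : ℕ) (θ : ℝ) (z : ℝ × ℝ) : ℝ := VV m z.1 + θ * VV m z.2

noncomputable def AA (t p : ℕ) (x : ℝ) : ℝ := Cf (2 ^ t) x ^ (2 * p + 1) / (2 * p + 1)

/-- first component of the perturbation -/
noncomputable def Y1 (m J : ℕ) (c : ℕ → ℕ → ℕ × ℕ → ℝ) (τ : ℝ) (z : ℝ × ℝ) : ℝ :=
  ∑ t ∈ Finset.range (J - 1), ∑ t' ∈ Finset.range (J - 1), τ ^ (2 * J - t - t') *
    ∑ x ∈ TT m t t', c t t' x * (AA t x.1 z.1 * af t' x.2 z.2)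

/-- the perturbation -/
noncomputable def YY (m J : ℕ) (c : ℕ → ℕ → ℕ × ℕ → ℝ) (τ : ℝ) (z : ℝ × ℝ) : ℝ × ℝ :=
  (Y1 m J c τ z, 0)

/-- F1. regularity and divergence -/
def S_DV : Prop := S_CHEB → ∀ (m J : ℕ) (c : ℕ → ℕ → ℕ × ℕ → ℝ) (τ θ : ℝ),
  ContDiff ℝ 2 (HH m θ) ∧ ContDiff ℝ 1 (YY m J c τ) ∧
  (∀ z v : ℝ × ℝ, fderiv ℝ (HH m θ) z v = -dC m z.1 * v.1 - θ * (dC m z.2 * v.2)) ∧
  ∀ z : ℝ × ℝ, dv (YY m J c τ) z =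
    ∑ t ∈ Finset.range (J - 1), ∑ t' ∈ Finset.range (J - 1), τ ^ (2 * J - t - t') *
      ∑ x ∈ TT m t t', c t t' x * (af t x.1 z.1 * af t' x.2 z.2)

/-- F2. degrees: `Cf n` is a polynomial of degree `n`; in `AA t p x * af t' q y` the degree is at
most `2 ^ t (2 p + 1) + 2 ^ t' (2 q + 1) - 1 ≤ m - 1` if `(p, q) ∈ TT m t t'`. -/
def S_POLY : Prop := S_CHEB → ∀ (m J : ℕ) (c : ℕ → ℕ → ℕ × ℕ → ℝ) (τ θ : ℝ), 0 < m →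
  HH m θ ∈ Pw m m 0 (m * m) ∧ Y1 m J c τ ∈ Pw m m m (m * m)

/-- F3. the well around a critical point -/
def S_WELL : Prop := S_CHEB → S_LOC → S_DV → ∀ (s J : ℕ) (r θ lo hi : ℝ) (t a t' a' : ℕ),
  1 ≤ s → Geo (s * 2 ^ J) J r → 1 ≤ θ → t < J - 1 → a < 2 ^ t → t' < J - 1 → a' < 2 ^ t' →
  0 < lo → lo < hi → hi < ((s * 2 ^ J : ℕ) : ℝ) ^ 2 / Real.pi ^ 2 * r ^ 2 →
  ∃ r₁ : ℝ, Well (zr t a, zr t' a') r₁ r (HH (s * 2 ^ J) θ) lo hi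

/-- F4. Signs of the double integrals. The integral is
`∑ u u', τ ^ (2 J - u - u') ∑ x, c u u' x I(u, u', x)` (F1, linearity; `Bl p r` is the disc of B1),
where `I(u, u', x)` is zero if `t < u` or `t' < u'` (B1, B3) and for `(u, u') = (t, t')` the inner
sum is `(-1) ^ (a + a') (-1) ^ k` (B1, B2, `Fam.sgn`). In the other terms `u ≤ t`, `u' ≤ t'`, and
the exponent of `τ` is larger than `2 J - t - t'`. -/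
def S_SIGN : Prop := S_CHEB → S_LOC → S_BOX → S_EV2A → S_EV2B → S_EVA → S_EVB → S_DV →
  ∀ (s J : ℕ) (r θ h : ℝ) (t a t' a' : ℕ) (c : ℕ → ℕ → ℕ × ℕ → ℝ) (lo hi : ℕ → ℝ)
    (Φ ψ : ℕ → ℝ → ℝ), 1 ≤ s → Geo (s * 2 ^ J) J r → 1 ≤ θ →
  t < J - 1 → a < 2 ^ t → t' < J - 1 → a' < 2 ^ t' →
  h ≤ ((s * 2 ^ J : ℕ) : ℝ) ^ 2 / Real.pi ^ 2 * r ^ 2 →
  Fam (s * 2 ^ J / 2 ^ t) (s * 2 ^ J / 2 ^ t') θ h (TT (s * 2 ^ J) t t')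
    (TT (s * 2 ^ J) t t').card lo hi Φ ψ (c t t') →
  ∀ᶠ τ : ℝ in 𝓝[>] 0, ∀ k < (TT (s * 2 ^ J) t t').card,
    0 < (-1) ^ (k + a + a') * ∫ z in Bl (zr t a, zr t' a') r,
      Φ k (HH (s * 2 ^ J) θ z) * dv (YY (s * 2 ^ J) J c τ) z

/-- F5. Many closed orbits around one critical point: `Well.many` with the weights `k` (if
`a + a'` is even) or `k + 1` (if `a + a'` is odd), `k ≤ card - 2`; if `card < 2` use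
`Many.zero`. -/
def S_ONE : Prop := S_CHEB → S_LOC → S_DV → S_WELL → S_SIGN → (S_BOX ∧ S_EV2A ∧ S_EV2B ∧ S_EVA ∧
  S_EVB) → ∀ (s J : ℕ) (r θ h : ℝ) (t a t' a' : ℕ) (c : ℕ → ℕ → ℕ × ℕ → ℝ) (lo hi : ℕ → ℝ)
    (Φ ψ : ℕ → ℝ → ℝ), 1 ≤ s → Geo (s * 2 ^ J) J r → 1 ≤ θ →
  t < J - 1 → a < 2 ^ t → t' < J - 1 → a' < 2 ^ t' →
  h ≤ ((s * 2 ^ J : ℕ) : ℝ) ^ 2 / Real.pi ^ 2 * r ^ 2 →
  Fam (s * 2 ^ J / 2 ^ t) (s * 2 ^ J / 2 ^ t') θ h (TT (s * 2 ^ J) t t')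
    (TT (s * 2 ^ J) t t').card lo hi Φ ψ (c t t') →
  ∀ᶠ τ : ℝ in 𝓝[>] 0, ∃ r₁ : ℝ, Many (HH (s * 2 ^ J) θ) (YY (s * 2 ^ J) J c τ)
    (ann (zr t a, zr t' a') r₁ r) ((TT (s * 2 ^ J) t t').card - 2)

/-- F6. All critical points: `Many.biUnion` over the finite set of all `((t, a), (t', a'))`,
`t, t' < J - 1`, `a < 2 ^ t`, `a' < 2 ^ t'`. The annuli lie in discs of radius `r` around points
whose first or second coordinates differ by more than `2 r` (`Geo`), so they are disjoint; they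
are compact. -/
def S_ALL : Prop := S_ONE → (S_CHEB ∧ S_LOC ∧ S_DV ∧ S_WELL ∧ S_SIGN ∧ S_BOX ∧ S_EV2A ∧ S_EV2B ∧
  S_EVA ∧ S_EVB) → ∀ (s J : ℕ) (r θ h : ℝ) (c : ℕ → ℕ → ℕ × ℕ → ℝ),
  1 ≤ s → 2 ≤ J → Geo (s * 2 ^ J) J r → 1 ≤ θ →
  h ≤ ((s * 2 ^ J : ℕ) : ℝ) ^ 2 / Real.pi ^ 2 * r ^ 2 →
  (∀ t t' : ℕ, t < J - 1 → t' < J - 1 → ∃ (lo hi : ℕ → ℝ) (Φ ψ : ℕ → ℝ → ℝ),
    Fam (s * 2 ^ J / 2 ^ t) (s * 2 ^ J / 2 ^ t') θ h (TT (s * 2 ^ J) t t')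
      (TT (s * 2 ^ J) t t').card lo hi Φ ψ (c t t')) →
  ∃ (τ : ℝ) (K : Set (ℝ × ℝ)), IsCompact K ∧
    Many (HH (s * 2 ^ J) θ) (YY (s * 2 ^ J) J c τ) K (cnt (s * 2 ^ J) J)

/-- F7. choice of `θ`, of the weights and of the coefficients for all levels at the same time
(`S_COEF` for the finitely many pairs of levels; `E1` for the hypothesis on `T`; `Q = N / 2`). -/
def S_CHOICE : Prop :=
  (∀ (M N Q : ℕ) (h : ℝ) (T : Finset (ℕ × ℕ)), 0 < M → 4 ∣ M → 0 < N → 4 ∣ N → 0 < h → h ≤ 2 →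
    (∀ x ∈ T, x.1 < M / 2 ∧ x.2 ≤ Q) →
    ∀ᶠ θ : ℝ in atTop, ∃ (lo hi : ℕ → ℝ) (Φ ψ : ℕ → ℝ → ℝ) (c : ℕ × ℕ → ℝ),
      Fam M N θ h T T.card lo hi Φ ψ c) → S_CARD →
  ∀ (s J : ℕ) (h : ℝ), 1 ≤ s → 2 ≤ J → 0 < h → h ≤ 2 →
  ∃ (θ : ℝ) (c : ℕ → ℕ → ℕ × ℕ → ℝ), 1 ≤ θ ∧
    ∀ t t' : ℕ, t < J - 1 → t' < J - 1 → ∃ (lo hi : ℕ → ℝ) (Φ ψ : ℕ → ℝ → ℝ),
      Fam (s * 2 ^ J / 2 ^ t) (s * 2 ^ J / 2 ^ t') θ h (TT (s * 2 ^ J) t t')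
        (TT (s * 2 ^ J) t t').card lo hi Φ ψ (c t t')

end Pool.Agent.H957.HN
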