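import Pool.Agent.H957.HN.Fin
import Pool.Agent.H957.HN.Stm2

/-! Project HN (helper957): assembly. -/

set_option autoImplicit false

open Set MeasureTheory Topology Filter

namespace Pool.Agent.H957.HN

open Pool.Agent
open Pool.Agent.Y300
open Pool.Agent.H709R2 (field)

theorem top (hCHEB : S_CHEB) (hLOC : S_LOC) (hINJ : S_INJ) (hEVA : S_EVA) (hEVB : S_EVB)
    (hGEO : S_GEO) (hBOX : S_BOX) (hEV2A : S_EV2A) (hEV2B : S_EV2B) (hINV : S_INV)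
    (hCRIT : S_CRIT) (hALG : S_ALG) (hABEL : S_ABEL) (hDER : S_DER) (hITER : S_ITER)
    (hINDN : S_INDN) (hLIM : S_LIM) (hLAYER : S_LAYER) (hLIMW : S_LIMW) (hNNC : S_NNC)
    (hPTS : S_PTS) (hBUMP : S_BUMP) (hCOEF : S_COEF) (hCARD : S_CARD) (hDV : S_DV)
    (hPOLY : S_POLY) (hWELL : S_WELL) (hSIGN : S_SIGN) (hONE : S_ONE) (hALL : S_ALL)
    (hCHOICE : S_CHOICE) (n s J : ℕ) (hs : 1 ≤ s) (hJ : 2 ≤ J) (hn : s * 2 ^ J ≤ n + 1) :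
    ∃ P Q : MvPolynomial (Fin 2) ℝ, P.totalDegree ≤ n ∧ Q.totalDegree ≤ n ∧
      {C | ClosedOrbit (field P Q) C}.Finite ∧
      ((cnt (s * 2 ^ J) J : ℕ) : ℕ∞) ≤ {C | ClosedOrbit (field P Q) C}.encard := by
  have hm : 0 < s * 2 ^ J := by positivity
  obtain ⟨r, hr⟩ := hGEO hLOC hINJ s J hs hJ
  have hr0 : 0 < r := hr.1
  set b : ℝ := ((s * 2 ^ J : ℕ) : ℝ) ^ 2 / Real.pi ^ 2 * r ^ 2 with hb
  have hm' : (0:ℝ) < ((s * 2 ^ J : ℕ) : ℝ) := by exact_mod_cast hm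
  have hb0 : 0 < b := by
    rw [hb]
    have := Real.pi_pos
    positivity
  have hcoef := hCOEF hCHEB hINDN hLIMW hNNC hPTS hBUMP
    ⟨hINV, hCRIT, hALG, hABEL, hDER, hITER, hLOC, hLIM, hLAYER⟩
  obtain ⟨θ, c, hθ, hfam⟩ := hCHOICE hcoef hCARD s J (min 2 b) hs hJ (lt_min two_pos hb0)
    (min_le_left _ _)
  obtain ⟨τ, K, hK, hM⟩ := hALL hONE
    ⟨hCHEB, hLOC, hDV, hWELL, hSIGN, hBOX, hEV2A, hEV2B, hEVA, hEVB⟩ s J r θ (min 2 b) c hs hJ hr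
    hθ (min_le_right _ _) hfam
  obtain ⟨h1, h2⟩ := hPOLY hCHEB (s * 2 ^ J) J c τ θ hm
  exact fin (H := HH (s * 2 ^ J) θ) (Y₁ := Y1 (s * 2 ^ J) J c τ) (Y₂ := fun _ => 0) h1 h2
    (Submodule.zero_mem _) hK hM hm hn

/-- isolation -/
theorem iso {V : ℝ × ℝ → ℝ × ℝ} (hV : ContDiff ℝ 1 V) (hfin : {C | ClosedOrbit V C}.Finite)
    {C : Set (ℝ × ℝ)} (hC : ClosedOrbit V C) :
    ∃ U : Set (ℝ × ℝ), IsOpen U ∧ C ⊆ U ∧ ∀ D, ClosedOrbit V D → D ⊆ U → D = C := by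
  refine ⟨(⋃ D ∈ {D | ClosedOrbit V D} \ {C}, D)ᶜ, ?_, ?_, ?_⟩
  · refine IsClosed.isOpen_compl (self := ?_)
    refine Set.Finite.isClosed_biUnion (hfin.subset diff_subset) fun D hD => ?_
    exact (ClosedOrbit.isCompact hD.1).isClosed
  · intro x hx hx'
    simp only [mem_iUnion] at hx'
    obtain ⟨D, hD, hxD⟩ := hx'
    exact hD.2 (closedOrbit_eq hV hD.1 hC hxD hx)
  · intro D hD hDU
    by_contra hne
    obtain ⟨x, hx⟩ := hD.nonempty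
    refine hDU hx ?_
    simp only [mem_iUnion]
    exact ⟨D, ⟨hD, hne⟩, hx⟩

end Pool.Agent.H957.HN
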